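import Pool.Agent.Helper24.FF.TApp

set_option autoImplicit false
set_option maxRecDepth 100000

namespace Pool.Agent.Helper24.FF

open Pool.Agent.Helper64.FL

def dd0_0 : List EntD := [
  ⟨⟨9, [(0, 6), (1, 7), (2, 7), (3, 8), (4, 8), (5, 8), (6, 7), (6, 8), (7, 8)], [(0, 3), (1, 4), (2, 5)]⟩,
    [[3, 5, 6, 1, 7, 4, 1, 8, 4, 6, 2, 7, 5, 2, 3, 8], [4, 0, 3, 6, 0, 2, 7, 5, 2, 8, 5, 6, 7, 3, 4, 8], [5, 0, 3, 6, 0, 1, 7, 4, 1, 8, 4, 6, 7, 3, 5, 8], [5, 0, 6, 0, 1, 7, 4, 1, 8, 4, 6, 2, 7, 5, 2, 8], [0, 3, 6, 0, 2, 1, 7, 1, 5, 2, 8, 5, 6, 7, 3, 8], [0, 3, 6, 0, 1, 2, 7, 2, 4, 1, 8, 4, 6, 7, 3, 8], [0, 3, 0, 1, 4, 7, 1, 5, 8, 2, 5, 7, 2, 4, 3, 8], [2, 5, 2, 1, 4, 1, 0, 3, 6, 0, 8, 6, 3, 4, 5,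 8], [5, 2, 5, 4, 1, 4, 3, 0, 3, 6, 0, 7, 6, 1, 2, 7]],
    17, 0x708d20478c04cc02a301730089c434e622731528879c444e12a5113204b94888a34441a2⟩,
  ⟨⟨8, [(0, 6), (1, 7), (2, 6), (3, 6), (4, 7), (5, 7), (6, 7)], [(0, 1), (2, 4), (3, 5)]⟩,
    [[4, 2, 1, 7, 1, 4, 3, 6, 5, 3, 7, 5, 2, 6], [0, 4, 2, 7, 4, 3, 6, 5, 3, 7, 5, 2, 0, 6], [1, 0, 4, 7, 4, 1, 3, 6, 5, 3, 7, 5, 0, 6], [1, 0, 5, 7, 5, 1, 2, 6, 4, 2, 7, 4, 0, 6], [2, 1, 0, 7, 1, 3, 6, 5, 3, 7, 5, 0, 2, 6], [3, 1, 0, 7, 1, 2, 6, 4, 2, 7, 4, 0, 3, 6], [3, 5, 3, 2, 4, 2, 0, 1, 0, 7, 1, 4, 5, 7], [5, 3, 5, 4, 2, 4, 1, 0, 1, 6, 0, 2, 3, 6]],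
    15, 0x402c201e410339009c234e112728939069ca04a316410f28c18c4686034201a⟩,
  ⟨⟨8, [(0, 3), (0, 7), (1, 4), (1, 7), (2, 5), (2, 7), (3, 6), (3, 7), (4, 6), (4, 7), (5, 6), (5, 7)], []⟩,
    [[1, 6, 4, 3, 5, 6, 2, 7, 5, 2, 3, 1, 4, 7], [5, 2, 4, 0, 3, 7, 0, 6, 3, 4, 5, 6, 2, 7], [4, 1, 5, 0, 3, 7, 0, 6, 3, 5, 4, 6, 1, 7], [0, 5, 2, 1, 4, 7, 1, 6, 4, 5, 6, 2, 0, 7], [1, 5, 2, 0, 3, 7, 0, 6, 3, 5, 6, 2, 1, 7], [2, 4, 1, 0, 3, 7, 0, 6, 3, 4, 6, 1, 2, 7], [2, 5, 1, 4, 0, 3, 7, 0, 3, 1, 4, 2, 5, 7], [0, 2, 5, 2, 1, 4, 1, 6, 4, 5, 3, 6, 0, 3]],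
    15, 0xc01460124081310098614c3126285310498a04a20a4089288088278403c101e⟩,
  ⟨⟨9, [(0, 4), (1, 8), (2, 5), (2, 8), (3, 6), (3, 8), (4, 7), (4, 8), (5, 7), (5, 8), (6, 7), (6, 8)], [(0, 1)]⟩,
    [[1, 2, 7, 5, 4, 6, 7, 3, 8, 6, 3, 4, 2, 5, 1, 8], [2, 7, 5, 0, 4, 0, 6, 7, 3, 8, 6, 3, 4, 2, 5, 8], [3, 7, 6, 5, 4, 7, 1, 8, 0, 1, 4, 0, 5, 3, 6, 8], [2, 7, 5, 6, 4, 7, 1, 8, 0, 1, 4, 0, 6, 2, 5, 8], [0, 1, 0, 6, 3, 2, 5, 8, 2, 7, 5, 6, 7, 3, 1, 8], [2, 3, 7, 6, 4, 7, 1, 8, 0, 1, 4, 0, 3, 6, 2, 8], [3, 2, 7, 5, 4, 7, 1, 8, 0, 1, 4, 0, 2, 5, 3, 8], [3, 6, 2, 5, 0, 1, 4, 0, 8, 4, 1, 2, 5, 3, 6, 8], [1, 0, 1, 3, 6, 3, 2, 5, 2, 7, 5, 6, 4, 7, 0, 4]],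
    17, 0x5105080590024801a100f39069c824e50a728d39829cc24a21a618530c48c488614420a2⟩]

theorem okT_dd0_0 : okT dd0_0 = true := by decide +kernel

def dd0_1 : List EntD := [
  ⟨⟨10, [(0, 5), (1, 6), (2, 9), (3, 9), (4, 7), (4, 9), (5, 8), (5, 9), (6, 8), (6, 9), (7, 8), (7, 9)], [(0, 2), (1, 3)]⟩,
    [[2, 3, 8, 6, 5, 7, 8, 4, 9, 7, 4, 5, 1, 6, 3, 1, 2, 9], [3, 4, 8, 7, 6, 5, 8, 2, 9, 0, 2, 5, 0, 6, 4, 7, 3, 9], [3, 8, 6, 0, 5, 0, 7, 8, 4, 9, 7, 4, 5, 1, 6, 3, 1, 9], [4, 8, 7, 1, 6, 1, 5, 8, 2, 9, 0, 2, 5, 0, 6, 4, 7, 9], [3, 8, 6, 7, 5, 8, 2, 9, 0, 2, 5, 0, 7, 1, 6, 3, 1, 9], [0, 2, 0, 4, 8, 7, 6, 8, 3, 9, 1, 3, 6, 1, 4, 7, 2, 9], [1, 3, 1, 4, 8, 7, 5, 8, 2, 9, 0, 2, 5, 0, 4, 7, 3, 9],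 [4, 3, 8, 6, 5, 8, 2, 9, 0, 2, 5, 0, 1, 6, 3, 1, 4, 9], [4, 7, 1, 3, 6, 1, 0, 2, 5, 0, 9, 5, 2, 6, 3, 4, 7, 9], [2, 0, 2, 4, 7, 4, 3, 1, 3, 6, 1, 8, 6, 7, 5, 8, 0, 5]],
    19, 0x14034401e201330448c22ca02283094148a0a350622838d41c49c834e4126091184990698824c3126⟩,
  ⟨⟨11, [(0, 6), (1, 7), (2, 8), (3, 10), (4, 10), (5, 10), (6, 9), (6, 10), (7, 9), (7, 10), (8, 9), (8, 10)], [(0, 3), (1, 4), (2, 5)]⟩,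
    [[3, 4, 9, 7, 6, 8, 9, 5, 10, 2, 5, 8, 2, 6, 1, 7, 4, 1, 3, 10], [4, 5, 9, 8, 7, 6, 9, 3, 10, 0, 3, 6, 0, 7, 2, 8, 5, 2, 4, 10], [5, 4, 9, 7, 8, 6, 9, 3, 10, 0, 3, 6, 0, 8, 1, 7, 4, 1, 5, 10], [4, 9, 7, 0, 6, 0, 8, 9, 5, 10, 2, 5, 8, 2, 6, 1, 7, 4, 1, 10], [5, 9, 8, 1, 7, 1, 6, 9, 3, 10, 0, 3, 6, 0, 7, 2, 8, 5, 2, 10], [4, 9, 7, 2, 8, 2, 6, 9, 3, 10, 0, 3, 6, 0, 8, 1, 7, 4, 1, 10], [0, 3, 0, 5, 9, 8, 7, 9, 4, 10, 1, 4, 7, 1, 2, 8, 5, 2, 3, 10], [1, 4, 1, 5, 9, 8, 6, 9, 3, 10, 0, 3, 6, 0, 2, 8, 5, 2, 4, 10], [2, 5, 2, 4, 9, 7, 6, 9, 3, 10, 0, 3, 6, 0, 1, 7, 4, 1, 5, 10], [2, 5, 8, 2, 1, 4, 7, 1, 0, 3, 6, 0, 10, 6, 3, 7, 4, 8, 5, 10], [3, 0, 3, 5, 2, 5, 8, 2, 4, 1, 4, 7, 1, 9, 7, 8,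 6, 9, 0, 6]],
    21, 0x601118099c234602e408f300aa4c552622938d49caa5045281a810d40889c254a21e5113204b948a8a35441aa⟩,
  ⟨⟨8, [(0, 4), (1, 7), (2, 5), (2, 7), (3, 6), (3, 7), (4, 5), (4, 6), (5, 7), (6, 7)], [(0, 1)]⟩,
    [[1, 2, 4, 5, 6, 4, 3, 7, 6, 3, 2, 5, 1, 7], [2, 0, 4, 0, 5, 6, 4, 3, 7, 6, 3, 2, 5, 7], [3, 4, 6, 5, 0, 4, 1, 0, 7, 1, 5, 3, 6, 7], [2, 4, 5, 6, 0, 4, 1, 0, 7, 1, 6, 2, 5, 7], [0, 1, 0, 3, 6, 2, 5, 7, 2, 5, 3, 6, 1, 7], [2, 3, 4, 6, 0, 4, 1, 0, 7, 1, 3, 6, 2, 7], [3, 2, 4, 5, 0, 4, 1, 0, 7, 1, 2, 5, 3, 7], [1, 0, 1, 3, 6, 3, 2, 5, 2, 4, 5, 6, 0, 4]],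
    15, 0x144148012100f20068402ca41a5205310494434c40a618930c28c478613c209e⟩,
  ⟨⟨9, [(0, 5), (1, 6), (2, 8), (3, 8), (4, 7), (4, 8), (5, 6), (5, 7), (6, 8), (7, 8)], [(0, 2), (1, 3)]⟩,
    [[2, 4, 5, 7, 6, 5, 3, 8, 1, 3, 6, 1, 4, 7, 2, 8], [3, 4, 5, 7, 6, 0, 5, 2, 0, 8, 2, 6, 4, 7, 3, 8], [4, 0, 5, 0, 7, 6, 5, 3, 8, 1, 3, 6, 1, 4, 7, 8], [4, 5, 7, 1, 6, 1, 0, 5, 2, 0, 8, 2, 6, 4, 7, 8], [0, 2, 5, 0, 7, 6, 5, 3, 8, 1, 3, 6, 1, 7, 2, 8], [0, 2, 0, 4, 7, 1, 3, 6, 1, 8, 6, 3, 4, 7, 2, 8], [1, 3, 1, 4, 5, 7, 0, 5, 2, 0, 8, 2, 4, 7, 3, 8], [4, 0, 2, 5, 0, 6, 5, 3, 8, 1, 3, 6, 1, 2, 4, 8], [2, 0, 2, 4, 7, 4, 3, 1, 3, 6, 1, 5, 6, 7, 0, 5]],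
    17, 0x500d10079822461162013280898a24c522728d30489c834e512720918499068882443122⟩]

theorem okT_dd0_1 : okT dd0_1 = true := by decide +kernel

def dd0_2 : List EntD := [
  ⟨⟨10, [(0, 6), (1, 7), (2, 8), (3, 9), (4, 9), (5, 9), (6, 7), (6, 8), (7, 9), (8, 9)], [(0, 3), (1, 4), (2, 5)]⟩,
    [[3, 5, 6, 8, 7, 6, 4, 9, 1, 4, 7, 1, 2, 8, 5, 2, 3, 9], [4, 5, 6, 8, 7, 0, 6, 3, 0, 9, 3, 7, 2, 8, 5, 2, 4, 9], [5, 0, 3, 6, 0, 8, 7, 6, 4, 9, 1, 4, 7, 1, 8, 3, 5, 9], [5, 0, 6, 0, 8, 7, 6, 4, 9, 1, 4, 7, 1, 2, 8, 5, 2, 9], [5, 6, 8, 1, 7, 1, 0, 6, 3, 0, 9, 3, 7, 2, 8, 5, 2, 9], [0, 3, 6, 0, 2, 8, 2, 7, 6, 4, 9, 1, 4, 7, 1, 8, 3, 9], [0, 3, 0, 2, 5, 8, 2, 1, 4, 7, 1, 9, 7, 4, 8, 5, 3, 9], [1, 4, 1,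 0, 3, 6, 0, 8, 6, 5, 9, 2, 5, 8, 2, 3, 4, 9], [2, 5, 2, 0, 3, 6, 0, 7, 6, 4, 9, 1, 4, 7, 1, 3, 5, 9], [3, 0, 3, 5, 2, 5, 8, 2, 4, 1, 4, 7, 1, 6, 7, 8, 0, 6]],
    19, 0x1023ce11a3013300898054602e831139869cc54e12a830d40889444c812e810d288794898a34c41a6⟩,
  ⟨⟨8, [(0, 5), (1, 5), (2, 7), (3, 7), (4, 6), (4, 7), (5, 6), (6, 7)], [(0, 2), (1, 3)]⟩,
    [[2, 4, 5, 6, 1, 5, 3, 1, 7, 3, 4, 6, 2, 7], [3, 4, 5, 6, 0, 5, 2, 0, 7, 2, 4, 6, 3, 7], [4, 0, 5, 0, 6, 1, 5, 3, 1, 7, 3, 4, 6, 7], [4, 1, 5, 1, 6, 0, 5, 2, 0, 7, 2, 4, 6, 7], [0, 2, 5, 0, 6, 1, 5, 3, 1, 7, 3, 6, 2, 7], [1, 3, 1, 0, 2, 0, 4, 6, 7, 4, 6, 2, 3, 7], [4, 1, 3, 5, 1, 0, 5, 2, 0, 7, 2, 3, 4, 7], [3, 1, 3, 2, 0, 2, 4, 6, 4, 5, 6, 0,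 1, 5]],
    15, 0xc22ca112200f28069404440265091314498a3461266209310690678823c311e⟩,
  ⟨⟨9, [(0, 6), (1, 6), (2, 7), (3, 8), (4, 8), (5, 8), (6, 7), (7, 8)], [(0, 3), (1, 4), (2, 5)]⟩,
    [[3, 1, 4, 6, 1, 7, 6, 5, 8, 2, 5, 7, 2, 4, 3, 8], [4, 0, 3, 6, 0, 7, 6, 5, 8, 2, 5, 7, 2, 3, 4, 8], [5, 0, 3, 6, 0, 7, 1, 6, 4, 1, 8, 4, 7, 3, 5, 8], [1, 4, 0, 6, 0, 1, 7, 6, 5, 8, 2, 5, 7, 2, 4, 8], [0, 3, 1, 6, 1, 0, 7, 6, 5, 8, 2, 5, 7, 2, 3, 8], [0, 3, 6, 0, 2, 7, 2, 1, 6, 4, 1, 8, 4, 7, 3, 8], [1, 4, 1, 0, 3, 0, 2, 5, 7, 2, 8, 7, 5, 3, 4, 8], [2, 5, 2, 1, 4, 6, 1, 0, 6, 3, 0, 8, 3, 4, 5, 8], [4, 1, 4, 3, 0, 3, 5, 2, 5, 7, 2, 6, 7, 0, 1, 6]],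
    17, 0x608d20478c04cc0226015180b9cc34c12a731138869025ce222510f288994888a34441a2⟩,
  ⟨⟨8, [(0, 6), (1, 7), (2, 6), (3, 6), (4, 7), (5, 7)], [(0, 1), (2, 4), (3, 5)]⟩,
    [[5, 3, 1, 7, 1, 5, 4, 7, 2, 4, 6, 2, 3, 6], [5, 3, 7, 5, 4, 7, 2, 4, 0, 6, 0, 2, 3, 6], [5, 3, 4, 7, 4, 5, 1, 7, 0, 1, 6, 0, 3, 6], [4, 2, 5, 7, 5, 4, 1, 7, 0, 1, 6, 0, 2, 6], [2, 5, 3, 7, 5, 1, 7, 0, 1, 6, 0, 3, 2, 6], [3, 4, 2, 7, 4, 1, 7, 0, 1, 6, 0, 2, 3, 6], [3, 5, 3, 2, 4, 2, 0, 1, 0, 7, 1, 4, 5, 7], [5, 3, 5, 4, 2, 4, 1, 0, 1, 6, 0, 2, 3, 6]],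
    15, 0x403c2016410339009c234e112728939069ca04a316410f28c18c4686034201a⟩]

theorem okT_dd0_2 : okT dd0_2 = true := by decide +kernel

def dd0_3 : List EntD := [
  ⟨⟨10, [(0, 6), (1, 7), (2, 8), (3, 9), (4, 9), (5, 9), (6, 7), (6, 8), (6, 9), (7, 8), (7, 9), (8, 9)], [(0, 3), (1, 4), (2, 5)]⟩,
    [[3, 1, 4, 7, 1, 6, 2, 8, 5, 2, 9, 5, 7, 6, 8, 4, 3, 9], [4, 2, 5, 8, 2, 7, 0, 6, 3, 0, 9, 3, 8, 7, 6, 5, 4, 9], [5, 1, 4, 7, 1, 8, 0, 6, 3, 0, 9, 3, 7, 8, 6, 4, 5, 9], [1, 4, 7, 1, 0, 6, 0, 2, 8, 5, 2, 9, 5, 7, 6, 8, 4, 9], [2, 5, 8, 2, 1, 7, 1, 0, 6, 3, 0, 9, 3, 8, 7, 6, 5, 9], [1, 4, 7, 1, 2, 8, 2, 0, 6, 3, 0, 9, 3, 7, 8, 6, 4, 9], [0, 3, 0, 2, 5, 8, 2, 1, 7, 4, 1, 9, 4, 8, 7, 5, 3, 9], [1,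 4, 1, 2, 5, 8, 2, 0, 6, 3, 0, 9, 3, 8, 6, 5, 4, 9], [2, 5, 2, 1, 4, 7, 1, 0, 6, 3, 0, 9, 3, 7, 6, 4, 5, 9], [3, 0, 3, 5, 2, 5, 8, 2, 4, 1, 4, 7, 1, 6, 8, 7, 0, 6]],
    18, 0xc022301338469023cc02a30174188a0e34e62a70954088a0434812e5113288794898a34c41a6⟩,
  ⟨⟨7, [(0, 3), (0, 5), (1, 4), (1, 5), (2, 5), (2, 6), (3, 4), (3, 6), (4, 6), (5, 6)], []⟩,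
    [[2, 3, 4, 6, 3, 1, 4, 5, 1, 2, 6, 5], [2, 4, 3, 6, 4, 0, 3, 5, 0, 2, 6, 5], [4, 1, 3, 6, 4, 0, 3, 5, 0, 6, 1, 5], [0, 2, 4, 6, 1, 4, 5, 1, 2, 6, 0, 5], [1, 2, 3, 6, 0, 3, 5, 0, 2, 6, 1, 5], [2, 1, 4, 1, 0, 3, 0, 6, 4, 3, 2, 6], [2, 4, 1, 3, 4, 0, 3, 5, 0, 1, 2, 5]],
    12, 0x18028c0248102620130c290624c20a4089308088258402c1016⟩,
  ⟨⟨8, [(0, 6), (1, 7), (2, 4), (2, 6), (3, 5), (3, 6), (4, 5), (4, 7), (5, 7), (6, 7)], [(0, 1)]⟩,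
    [[5, 3, 4, 1, 7, 1, 5, 2, 4, 6, 2, 7, 3, 6], [0, 5, 3, 4, 7, 5, 2, 4, 6, 2, 7, 3, 0, 6], [5, 3, 4, 7, 5, 4, 0, 6, 1, 0, 7, 1, 3, 6], [0, 5, 4, 7, 5, 2, 4, 6, 2, 1, 7, 0, 1, 6], [2, 5, 3, 7, 5, 0, 6, 1, 0, 7, 1, 3, 2, 6], [3, 4, 2, 7, 4, 0, 6, 1, 0, 7, 1, 2, 3, 6], [0, 1, 0, 3, 5, 3, 2, 4, 2, 7, 5, 4, 1, 7], [5, 3, 4, 5, 2, 4, 1, 0, 1, 6, 0, 2, 3, 6]],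
    14, 0x20164101080794804e11a708939449c834a302518920868c4686034201a⟩,
  ⟨⟨8, [(0, 4), (1, 6), (2, 5), (2, 6), (3, 6), (3, 7), (4, 5), (4, 7), (5, 7), (6, 7)], [(0, 1)]⟩,
    [[1, 3, 4, 5, 7, 4, 2, 5, 6, 2, 3, 7, 1, 6], [3, 0, 4, 0, 5, 7, 4, 2, 5, 6, 2, 3, 7, 6], [3, 5, 4, 7, 5, 0, 4, 1, 0, 6, 1, 3, 7, 6], [5, 2, 4, 7, 5, 0, 4, 1, 0, 6, 1, 7, 2, 6], [0, 1, 0, 3, 5, 7, 2, 5, 6, 2, 3, 7, 1, 6], [2, 3, 4, 7, 0, 4, 1, 0, 6, 1, 3, 7, 2, 6], [3, 2, 5, 2, 1, 0, 1, 4, 0, 7, 5, 4, 3, 7], [3, 5, 2, 4, 5, 0, 4, 1, 0, 6, 1, 2, 3, 6]],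
    14, 0x2016510520048403c801a520d39429c824a21a718538c48c4686134209a⟩]

theorem okT_dd0_3 : okT dd0_3 = true := by decide +kernel

def dd0_4 : List EntD := [
  ⟨⟨9, [(0, 5), (1, 7), (2, 7), (3, 8), (4, 6), (4, 7), (5, 6), (5, 8), (6, 8), (7, 8)], [(0, 1), (2, 3)]⟩,
    [[1, 6, 4, 5, 8, 6, 5, 2, 7, 3, 2, 8, 3, 4, 1, 7], [6, 4, 0, 5, 0, 8, 6, 5, 2, 7, 3, 2, 8, 3, 4, 7], [6, 4, 5, 3, 8, 3, 6, 0, 5, 1, 0, 7, 1, 8, 4, 7], [2, 6, 4, 5, 8, 6, 0, 5, 1, 0, 7, 1, 8, 4, 2, 7], [2, 6, 5, 8, 6, 0, 5, 1, 0, 7, 1, 3, 8, 2, 3, 7], [0, 1, 0, 6, 4, 8, 6, 2, 7, 3, 2, 8, 3, 4, 1, 7], [4, 0, 1, 5, 0, 8, 5, 2, 7, 3, 2, 8, 3, 1, 4, 7], [2, 3, 2, 4, 6, 4, 1, 0, 1, 5, 0, 8, 6, 5, 3, 8], [3, 2, 3, 6, 4, 5, 6,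 0, 5, 1, 0, 7, 1, 4, 2, 7]],
    16, 0x1883940242026100b2808a0614c512829140c8a0c14c4126205188990478813c209e⟩,
  ⟨⟨9, [(0, 5), (1, 6), (2, 7), (3, 7), (4, 7), (4, 8), (5, 6), (5, 8), (6, 8), (7, 8)], [(0, 2), (1, 3)]⟩,
    [[2, 4, 5, 6, 8, 5, 1, 6, 3, 1, 7, 3, 4, 8, 2, 7], [3, 4, 6, 5, 8, 6, 0, 5, 2, 0, 7, 2, 4, 8, 3, 7], [4, 0, 5, 0, 6, 8, 5, 1, 6, 3, 1, 7, 3, 4, 8, 7], [4, 1, 6, 1, 5, 8, 6, 0, 5, 2, 0, 7, 2, 4, 8, 7], [1, 3, 6, 1, 5, 8, 6, 0, 5, 2, 0, 7, 2, 8, 3, 7], [0, 2, 0, 4, 6, 8, 1, 6, 3, 1, 7, 3, 4, 8, 2, 7], [1, 3, 1, 4, 5, 8, 0, 5, 2, 0, 7, 2, 4, 8, 3, 7], [4, 3, 1, 3, 6, 1, 2, 0, 2, 5, 0, 8, 6, 5, 4, 8], [4, 1, 3, 6, 1, 5, 6, 0, 5, 2, 0, 7, 2, 3, 4, 7]],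
    16, 0x100794034c1122013184594044c52283094146a0824c122820d184990678823c311e⟩,
  ⟨⟨10, [(0, 6), (1, 7), (2, 8), (3, 8), (4, 8), (5, 9), (6, 7), (6, 9), (7, 9), (8, 9)], [(0, 2), (1, 3), (4, 5)]⟩,
    [[2, 1, 3, 7, 1, 6, 9, 7, 6, 4, 8, 5, 4, 9, 5, 3, 2, 8], [3, 4, 7, 6, 9, 7, 0, 6, 2, 0, 8, 2, 5, 9, 4, 5, 3, 8], [1, 3, 7, 1, 0, 6, 0, 9, 7, 6, 4, 8, 5, 4, 9, 5, 3, 8], [4, 1, 7, 1, 6, 9, 7, 0, 6, 2, 0, 8, 2, 5, 9, 4, 5, 8], [1, 3, 7, 1, 6, 5, 9, 5, 7, 0, 6, 2, 0, 8, 2, 9, 3, 8], [4, 1, 3, 7, 1, 6, 9, 7, 0, 6, 2, 0, 8, 2, 9, 3, 4, 8], [0, 2, 0, 1, 3, 7, 1, 9, 7, 4, 8, 5, 4, 9, 5, 3, 2, 8], [1, 3, 1, 0, 2, 6, 0, 9, 6, 4, 8, 5, 4, 9, 5, 2, 3, 8], [4, 5, 4, 3, 1, 3, 7, 1, 2, 0, 2, 6, 0, 9,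 7, 6, 5, 9], [5, 4, 5, 1, 3, 7, 1, 6, 7, 0, 6, 2, 0, 8, 2, 3, 4, 8]],
    18, 0xc022308b10099c224c01a200f49c49cc45261a928d3848a4a246126520b29079068882443122⟩,
  ⟨⟨7, [(0, 3), (0, 4), (1, 3), (1, 5), (2, 3), (2, 6), (4, 5), (4, 6), (5, 6)], []⟩,
    [[6, 2, 4, 5, 6, 4, 1, 5, 3, 1, 2, 3], [6, 2, 5, 4, 6, 5, 0, 4, 3, 0, 2, 3], [5, 1, 6, 4, 5, 6, 0, 4, 3, 0, 1, 3], [0, 2, 6, 2, 1, 5, 1, 4, 6, 5, 0, 4], [6, 2, 5, 6, 1, 5, 0, 3, 0, 1, 2, 3], [1, 6, 2, 4, 6, 0, 4, 3, 0, 2, 1, 3], [2, 5, 1, 4, 5, 0, 4, 3, 0, 1, 2, 3]],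
    12, 0x20029420480126281310294824c20a5089308088238401c100e⟩]

theorem okT_dd0_4 : okT dd0_4 = true := by decide +kernel

def dd0_5 : List EntD := [
  ⟨⟨8, [(0, 4), (1, 5), (2, 4), (2, 6), (3, 4), (3, 7), (5, 6), (5, 7), (6, 7)], [(0, 1)]⟩,
    [[7, 3, 1, 5, 1, 6, 7, 5, 2, 6, 4, 2, 3, 4], [7, 3, 5, 6, 7, 5, 2, 6, 0, 4, 0, 2, 3, 4], [7, 3, 6, 5, 7, 6, 1, 5, 0, 1, 4, 0, 3, 4], [6, 2, 7, 5, 6, 7, 1, 5, 0, 1, 4, 0, 2, 4], [0, 1, 0, 3, 7, 3, 2, 6, 2, 5, 7, 6, 1, 5], [7, 3, 6, 7, 2, 6, 1, 0, 1, 4, 0, 2, 3, 4], [2, 7, 3, 5, 7, 1, 5, 0, 1, 4, 0, 3, 2, 4], [3, 6, 2, 5, 6, 1, 5, 0, 1, 4, 0, 2, 3, 4]],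
    14, 0x2016100f308094224a11a730138c09ca24c51a610d38c48c44860242012⟩,
  ⟨⟨9, [(0, 5), (1, 5), (2, 6), (3, 7), (4, 5), (4, 8), (6, 7), (6, 8), (7, 8)], [(0, 2), (1, 3)]⟩,
    [[8, 4, 2, 6, 2, 7, 8, 6, 3, 7, 1, 3, 5, 1, 4, 5], [8, 4, 3, 7, 3, 6, 8, 7, 2, 6, 0, 2, 5, 0, 4, 5], [8, 4, 6, 7, 8, 6, 3, 7, 1, 3, 0, 5, 0, 1, 4, 5], [1, 8, 4, 7, 6, 8, 7, 2, 6, 0, 2, 5, 0, 4, 1, 5], [3, 1, 7, 3, 8, 6, 7, 8, 2, 6, 0, 2, 5, 0, 1, 5], [0, 2, 0, 4, 8, 4, 1, 3, 1, 7, 3, 6, 8, 7, 2, 6], [8, 4, 7, 8, 3, 7, 1, 3, 2, 0, 2, 5, 0, 1, 4, 5], [3, 1, 3, 8, 4, 6, 8, 2, 6, 0, 2, 5, 0, 4, 1, 5], [4, 3, 1, 7, 3, 6, 7, 2, 6, 0, 2, 5, 0, 1, 4, 5]],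
    16, 0x10038c20c4026610530889c605070283053988a081504027191184990258802c1016⟩,
  ⟨⟨10, [(0, 6), (1, 6), (2, 6), (3, 7), (4, 8), (5, 9), (7, 8), (7, 9), (8, 9)], [(0, 3), (1, 4), (2, 5)]⟩,
    [[5, 2, 9, 5, 3, 7, 3, 8, 9, 7, 4, 8, 1, 4, 6, 1, 2, 6], [5, 2, 9, 5, 4, 8, 4, 7, 9, 8, 3, 7, 0, 3, 6, 0, 2, 6], [4, 1, 8, 4, 5, 9, 5, 7, 8, 9, 3, 7, 0, 3, 6, 0, 1, 6], [5, 2, 9, 5, 7, 8, 9, 7, 4, 8, 1, 4, 0, 6, 0, 1, 2, 6], [1, 5, 2, 9, 5, 8, 7, 9, 8, 3, 7, 0, 3, 6, 0, 2, 1, 6], [2, 4, 1, 8, 4, 9, 7, 8, 9, 3, 7, 0, 3, 6, 0, 1, 2, 6], [0, 3, 0, 2, 5, 2, 9, 5, 1, 4, 1, 8, 4, 7, 9, 8, 3, 7], [5, 2, 9, 5, 8, 9, 4, 8, 1, 4, 3, 0, 3, 6, 0, 1, 2, 6], [4, 1, 4, 5, 2, 9, 5, 7, 9, 3, 7, 0, 3, 6, 0, 2, 1,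 6], [5, 2, 5, 4, 1, 8, 4, 7, 8, 3, 7, 0, 3, 6, 0, 1, 2, 6]],
    18, 0x600e408318059c614e312820149c2a5005071292854104a4a04a20e408b2881882684034101a⟩,
  ⟨⟨11, [(0, 5), (1, 7), (2, 6), (2, 8), (3, 5), (3, 10), (4, 6), (4, 10), (5, 9), (6, 9), (7, 8), (7, 10), (8, 10), (9, 10)], [(0, 1)]⟩,
    [[3, 6, 9, 4, 2, 6, 8, 2, 1, 7, 1, 10, 8, 7, 4, 5, 9, 3, 5, 10], [3, 6, 9, 4, 2, 6, 8, 2, 7, 10, 8, 7, 4, 0, 5, 0, 9, 3, 5, 10], [6, 4, 9, 6, 3, 8, 7, 10, 8, 1, 7, 0, 1, 5, 0, 3, 9, 5, 4, 10], [6, 4, 9, 2, 6, 8, 2, 7, 10, 8, 1, 7, 0, 1, 5, 0, 9, 5, 4, 10], [3, 6, 9, 2, 6, 8, 2, 7, 10, 8, 1, 7, 0, 1, 5, 0, 9, 3, 5, 10], [3, 6, 4, 9, 2, 6, 8, 2, 0, 1, 0, 7, 1, 10, 8, 7, 9, 4, 3, 10], [4, 3, 9, 2, 8, 2,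 7, 10, 8, 1, 7, 0, 1, 5, 0, 9, 3, 5, 4, 10], [1, 0, 1, 5, 0, 3, 9, 5, 4, 8, 10, 2, 8, 6, 2, 4, 9, 6, 3, 10], [4, 5, 9, 3, 0, 5, 1, 0, 7, 1, 10, 7, 3, 2, 6, 2, 9, 4, 6, 10], [6, 4, 2, 6, 8, 2, 1, 7, 0, 1, 5, 0, 3, 5, 10, 3, 8, 7, 4, 10], [3, 1, 0, 7, 1, 8, 7, 2, 8, 4, 6, 4, 2, 9, 6, 5, 9, 0, 3, 5]],
    15, 0x140442026519d3848a4a74a322931d41c698875021a610d31069c8a8e35441aa⟩]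

theorem okT_dd0_5 : okT dd0_5 = true := by decide +kernel

def dd0_6 : List EntD := [
  ⟨⟨12, [(0, 6), (1, 7), (2, 8), (3, 9), (4, 6), (4, 11), (5, 7), (5, 11), (6, 10), (7, 10), (8, 9), (8, 11), (9, 11), (10, 11)], [(0, 2), (1, 3)]⟩,
    [[4, 7, 10, 5, 1, 7, 3, 1, 9, 3, 2, 8, 2, 11, 9, 8, 5, 6, 10, 4, 6, 11], [7, 5, 10, 7, 4, 3, 9, 3, 8, 11, 9, 2, 8, 0, 2, 6, 0, 4, 10, 6, 5, 11], [4, 7, 10, 5, 1, 7, 3, 1, 9, 3, 8, 11, 9, 8, 5, 0, 6, 0, 10, 4, 6, 11], [1, 7, 1, 5, 10, 7, 4, 9, 8, 11, 9, 2, 8, 0, 2, 6, 0, 4, 10, 6, 5, 11], [7, 5, 10, 1, 7, 3, 1, 9, 3, 8, 11, 9, 2, 8, 0, 2, 6, 0, 10, 6, 5, 11], [4, 7, 10, 1, 7, 3, 1, 9, 3, 8, 11, 9, 2, 8, 0, 2, 6, 0, 10, 4, 6, 11], [4, 7, 5, 10, 1, 7, 3,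 1, 9, 3, 0, 2, 0, 8, 2, 11, 9, 8, 10, 5, 4, 11], [5, 4, 10, 1, 3, 1, 9, 3, 8, 11, 9, 2, 8, 0, 2, 6, 0, 10, 4, 6, 5, 11], [2, 0, 2, 6, 0, 4, 10, 6, 5, 9, 11, 3, 9, 1, 3, 7, 1, 5, 10, 7, 4, 11], [5, 6, 10, 4, 0, 6, 2, 0, 8, 2, 11, 8, 4, 3, 1, 3, 7, 1, 10, 5, 7, 11], [7, 5, 1, 7, 3, 1, 9, 3, 2, 8, 0, 2, 6, 0, 4, 6, 11, 4, 9, 8, 5, 11], [4, 2, 0, 8, 2, 9, 8, 3, 9, 1, 3, 5, 7, 5, 1, 10, 7, 6, 10, 0, 4, 6]],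
    16, 0x300a8805cc44262155190a0455474294113950a4644612670913948a0ab9045c522e⟩,
  ⟨⟨11, [(0, 6), (1, 7), (2, 8), (3, 8), (4, 6), (4, 10), (5, 7), (5, 10), (6, 9), (7, 9), (8, 10), (9, 10)], [(0, 2), (1, 3)]⟩,
    [[6, 4, 9, 6, 5, 2, 8, 2, 10, 3, 8, 1, 3, 7, 1, 5, 9, 7, 4, 10], [5, 6, 9, 4, 0, 6, 2, 0, 3, 8, 3, 2, 10, 8, 4, 7, 9, 5, 7, 10], [0, 6, 0, 4, 9, 6, 5, 8, 10, 3, 8, 1, 3, 7, 1, 5, 9, 7, 4, 10], [5, 6, 9, 4, 0, 6, 2, 0, 8, 2, 10, 8, 4, 1, 7, 1, 9, 5, 7, 10], [5, 6, 9, 0, 6, 2, 0, 8, 2, 10, 3, 8, 1, 3, 7, 1, 9, 5, 7, 10], [6, 4, 9, 0, 6, 2, 0, 8, 2, 10, 3, 8, 1, 3, 7, 1, 9, 7, 4, 10], [4, 7, 5, 9, 1, 7, 3, 1, 0, 2, 0, 8, 2, 3, 10, 8, 9, 5, 4, 10], [5, 6, 4, 9, 0, 6, 2, 0, 1, 3,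 1, 8, 3, 2, 10, 8, 9, 4, 5, 10], [2, 0, 2, 6, 0, 4, 9, 6, 5, 10, 3, 1, 3, 7, 1, 5, 9, 7, 4, 10], [6, 4, 0, 6, 2, 0, 8, 2, 5, 10, 7, 5, 1, 7, 3, 1, 8, 3, 4, 10], [4, 2, 0, 8, 2, 3, 8, 1, 3, 5, 7, 5, 1, 9, 7, 6, 9, 0, 4, 6]],
    15, 0x805cc02a9321408a98854c44293a140c89ca84612670913948a0aa90454522a⟩,
  ⟨⟨11, [(0, 5), (1, 6), (2, 5), (2, 7), (3, 8), (3, 9), (4, 5), (4, 10), (6, 8), (6, 10), (7, 9), (7, 10), (8, 10), (9, 10)], [(0, 1)]⟩,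
    [[5, 4, 2, 5, 7, 2, 3, 9, 8, 3, 1, 6, 1, 10, 8, 6, 7, 9, 4, 10], [0, 5, 0, 4, 2, 5, 7, 2, 3, 9, 8, 3, 6, 10, 8, 6, 7, 9, 4, 10], [7, 3, 9, 8, 3, 1, 6, 0, 1, 5, 0, 4, 5, 10, 4, 8, 6, 7, 9, 10], [7, 9, 4, 8, 6, 10, 8, 1, 6, 0, 1, 5, 0, 4, 2, 5, 7, 2, 9, 10], [7, 3, 9, 8, 3, 6, 10, 8, 1, 6, 0, 1, 5, 0, 2, 5, 7, 2, 9, 10], [4, 2, 7, 2, 3, 9, 8, 3, 0, 1, 0, 6, 1, 10, 8, 6, 7, 9, 4, 10], [3, 8, 9, 3, 2, 7, 1, 0, 1, 5, 0, 2, 4, 5, 10, 4, 9, 7, 8, 10], [3, 9, 8, 3, 1, 6, 0, 1, 2, 5, 2, 0, 4, 5, 10, 4, 8, 6, 9, 10], [3, 9, 3, 2, 7, 5, 2, 4, 0, 5, 1, 0, 6, 1, 10, 6, 4, 9, 7, 10], [7, 4, 3, 8, 3, 6, 10, 8, 1, 6, 0, 1, 5, 0, 4, 2, 5, 7, 2, 10], [4, 7, 2, 9, 7, 3, 9, 8, 3, 6, 8, 1, 6, 0, 1, 5,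 0, 2, 4, 5]],
    14, 0x203e501d288c94874a432609d388ca0c450322919149c89cca8e454622a⟩,
  ⟨⟨12, [(0, 6), (1, 6), (2, 7), (3, 8), (4, 9), (4, 10), (5, 6), (5, 11), (7, 9), (7, 11), (8, 10), (8, 11), (9, 11), (10, 11)], [(0, 2), (1, 3)]⟩,
    [[6, 5, 1, 6, 3, 1, 8, 3, 4, 10, 9, 4, 2, 7, 2, 11, 9, 7, 8, 10, 5, 11], [3, 8, 3, 4, 10, 9, 4, 2, 7, 0, 2, 6, 0, 5, 6, 11, 5, 9, 7, 8, 10, 11], [0, 6, 0, 5, 1, 6, 3, 1, 8, 3, 4, 10, 9, 4, 7, 11, 9, 7, 8, 10, 5, 11], [8, 4, 10, 9, 4, 2, 7, 0, 2, 1, 6, 1, 0, 5, 6, 11, 5, 9, 7, 8, 10, 11], [8, 10, 5, 9, 7, 11, 9, 2, 7, 0, 2, 6, 0, 5, 1, 6, 3, 1, 8, 3, 10, 11], [8, 4, 10, 9, 4, 7, 11, 9, 2, 7, 0, 2, 6, 0, 1, 6, 3, 1, 8, 3, 10, 11], [5, 1, 3, 1, 8, 3, 4,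 10, 9, 4, 0, 2, 0, 7, 2, 11, 9, 7, 8, 10, 5, 11], [4, 9, 10, 4, 3, 8, 1, 3, 2, 0, 2, 6, 0, 1, 5, 6, 11, 5, 10, 8, 9, 11], [4, 10, 9, 4, 2, 7, 0, 2, 3, 1, 3, 6, 1, 0, 5, 6, 11, 5, 9, 7, 10, 11], [4, 10, 4, 3, 8, 1, 3, 6, 1, 5, 0, 6, 2, 0, 7, 2, 11, 7, 5, 10, 8, 11], [8, 5, 4, 9, 4, 7, 11, 9, 2, 7, 0, 2, 6, 0, 5, 1, 6, 3, 1, 8, 3, 11], [5, 3, 1, 8, 3, 10, 8, 4, 10, 9, 4, 7, 9, 2, 7, 0, 2, 6, 0, 1, 5, 6]],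
    15, 0x18084404662a1389098294c54a93a11853a4855034aa215520aa50b9255c82ae⟩]

theorem okT_dd0_6 : okT dd0_6 = true := by decide +kernel

def dd0_7 : List EntD := [
  ⟨⟨12, [(0, 6), (1, 7), (2, 8), (3, 9), (4, 6), (4, 10), (5, 6), (5, 11), (7, 8), (7, 11), (8, 11), (9, 10), (9, 11), (10, 11)], [(0, 1), (2, 3)]⟩,
    [[6, 5, 4, 6, 10, 4, 3, 9, 2, 3, 8, 2, 1, 7, 1, 11, 8, 7, 10, 9, 5, 11], [0, 6, 0, 5, 4, 6, 10, 4, 3, 9, 2, 3, 8, 2, 7, 11, 8, 7, 10, 9, 5, 11], [10, 3, 9, 3, 5, 8, 7, 11, 8, 1, 7, 0, 1, 6, 0, 5, 4, 6, 10, 4, 9, 11], [10, 9, 5, 2, 8, 2, 7, 11, 8, 1, 7, 0, 1, 6, 0, 5, 4, 6, 10, 4, 9, 11], [10, 3, 9, 2, 3, 8, 2, 1, 7, 0, 1, 6, 0, 5, 6, 11, 5, 8, 7, 10, 9, 11], [10, 3, 9, 2, 3,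 8, 2, 7, 11, 8, 1, 7, 0, 1, 6, 0, 4, 6, 10, 4, 9, 11], [5, 4, 10, 4, 3, 9, 2, 3, 8, 2, 0, 1, 0, 7, 1, 11, 8, 7, 10, 9, 5, 11], [1, 0, 1, 6, 0, 5, 4, 6, 10, 4, 3, 9, 2, 3, 8, 2, 11, 8, 10, 9, 5, 11], [10, 2, 3, 2, 9, 3, 5, 7, 11, 1, 7, 0, 1, 6, 0, 5, 4, 6, 10, 4, 9, 11], [10, 5, 3, 2, 3, 8, 2, 7, 11, 8, 1, 7, 0, 1, 6, 0, 5, 4, 6, 10, 4, 11], [3, 9, 2, 3, 8, 2, 1, 7, 0, 1, 4, 6, 4, 0, 5, 6, 11, 5, 8, 7, 9, 11], [5, 10, 4, 9, 10, 3, 9, 2, 3, 8, 2, 7, 8, 1, 7, 0, 1, 6, 0, 4, 5, 6]],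
    15, 0x18094204e62a5314e9c294c43aa21d41caa0455493a311748caa4eb9255c72ae⟩,
  ⟨⟨13, [(0, 7), (1, 7), (2, 8), (3, 9), (4, 10), (5, 11), (6, 7), (6, 12), (8, 10), (8, 12), (9, 11), (9, 12), (10, 12), (11, 12)], [(0, 2), (1, 3), (4, 5)]⟩,
    [[7, 6, 1, 7, 3, 1, 9, 3, 5, 11, 4, 5, 10, 4, 2, 8, 2, 12, 10, 8, 9, 11, 6, 12], [3, 9, 3, 5, 11, 4, 5, 10, 4, 2, 8, 0, 2, 7, 0, 6, 7, 12, 6, 10, 8, 9, 11, 12], [0, 7, 0, 6, 1, 7, 3, 1, 9, 3, 5, 11, 4, 5, 10, 4, 8, 12, 10, 8, 9, 11, 6, 12], [9, 5, 11, 4, 5, 10, 4, 2, 8, 0, 2, 1, 7, 1, 0, 6, 7, 12, 6, 10, 8, 9, 11, 12], [9, 5, 11, 5, 6, 10, 8, 12, 10, 2, 8, 0, 2, 7, 0, 6, 1, 7, 3, 1, 9, 3, 11, 12], [9, 11, 6, 4, 10, 4, 8, 12, 10, 2, 8, 0, 2, 7, 0, 6,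 1, 7, 3, 1, 9, 3, 11, 12], [9, 5, 11, 4, 5, 10, 4, 8, 12, 10, 2, 8, 0, 2, 7, 0, 1, 7, 3, 1, 9, 3, 11, 12], [6, 1, 3, 1, 9, 3, 5, 11, 4, 5, 10, 4, 0, 2, 0, 8, 2, 12, 10, 8, 9, 11, 6, 12], [4, 10, 5, 4, 11, 5, 3, 9, 1, 3, 2, 0, 2, 7, 0, 1, 6, 7, 12, 6, 11, 9, 10, 12], [5, 11, 4, 5, 10, 4, 2, 8, 0, 2, 3, 1, 3, 7, 1, 0, 6, 7, 12, 6, 10, 8, 11, 12], [4, 5, 4, 11, 5, 3, 9, 1, 3, 7, 1, 6, 0, 7, 2, 0, 8, 2, 12, 8, 6, 11, 9, 12], [9, 6, 5, 4, 5, 10, 4, 8, 12, 10, 2, 8, 0, 2, 7, 0, 6, 1, 7, 3, 1, 9, 3, 12], [6, 3, 1, 9, 3, 11, 9, 5, 11, 4, 5, 10, 4, 8, 10, 2, 8, 0, 2, 7, 0, 1, 6, 7]],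
    16, 0x10139c094e64a812538549cca5484a30ab48d4a8864a436b2995a4ca92c946649332⟩,
  ⟨⟨11, [(0, 6), (1, 6), (2, 7), (3, 8), (4, 7), (4, 9), (5, 6), (5, 10), (7, 10), (8, 9), (8, 10), (9, 10)], [(0, 2), (1, 3)]⟩,
    [[5, 9, 8, 2, 7, 2, 10, 4, 7, 9, 4, 3, 8, 1, 3, 6, 1, 5, 6, 10], [9, 3, 8, 3, 2, 7, 0, 2, 6, 0, 5, 6, 10, 5, 4, 7, 9, 4, 8, 10], [5, 9, 8, 7, 10, 4, 7, 9, 4, 3, 8, 1, 3, 0, 6, 0, 1, 5, 6, 10], [9, 8, 2, 7, 0, 2, 1, 6, 1, 0, 5, 6, 10, 5, 4, 7, 9, 4, 8, 10], [9, 3, 8, 1, 3, 6, 1, 5, 0, 6, 2, 0, 7, 2, 10, 7, 5, 9, 8, 10], [9, 3, 8, 1, 3, 6, 1, 0, 6, 2, 0, 7, 2, 10, 4, 7, 9, 4, 8, 10], [5, 9, 1, 3, 1, 8, 3, 0, 2, 0, 7, 2, 10, 4, 7, 9, 4, 8, 5, 10], [4, 9, 4, 3, 8, 1, 3, 2, 0, 2,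 6, 0, 1, 5, 6, 10, 5, 9, 8, 10], [4, 9, 7, 4, 5, 10, 3, 1, 3, 6, 1, 5, 0, 6, 2, 0, 7, 2, 9, 10], [3, 8, 1, 3, 6, 1, 5, 0, 6, 2, 0, 4, 7, 4, 2, 10, 7, 5, 8, 10], [5, 3, 1, 8, 3, 9, 8, 4, 9, 7, 4, 2, 7, 0, 2, 6, 0, 1, 5, 6]],
    14, 0x404e6025314e98274e24a62a5184f9c855242a819d4a0ea4ea9255472aa⟩]

theorem okT_dd0_7 : okT dd0_7 = true := by decide +kernel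

def dd0 : List EntD := dd0_0 ++ (dd0_1 ++ (dd0_2 ++ (dd0_3 ++ (dd0_4 ++ (dd0_5 ++ (dd0_6 ++ (dd0_7)))))))

theorem okT_dd0 : okT dd0 = true :=
  okT_append _ _ okT_dd0_0 (
  okT_append _ _ okT_dd0_1 (
  okT_append _ _ okT_dd0_2 (
  okT_append _ _ okT_dd0_3 (
  okT_append _ _ okT_dd0_4 (
  okT_append _ _ okT_dd0_5 (
  okT_append _ _ okT_dd0_6 (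
  okT_dd0_7)))))))

end Pool.Agent.Helper24.FF
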