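import Pool.Agent.Helper24.FF.TApp

set_option autoImplicit false
set_option maxRecDepth 100000

namespace Pool.Agent.Helper24.FF

open Pool.Agent.Helper64.FL

def dd1_0 : List EntD := [
  ⟨⟨12, [(0, 7), (1, 7), (2, 8), (3, 8), (4, 9), (5, 10), (6, 7), (6, 11), (8, 11), (9, 10), (9, 11), (10, 11)], [(0, 2), (1, 4), (3, 5)]⟩,
    [[6, 10, 9, 2, 8, 2, 11, 3, 8, 5, 3, 10, 5, 4, 9, 1, 4, 7, 1, 6, 7, 11], [10, 4, 9, 4, 2, 8, 0, 2, 7, 0, 6, 7, 11, 6, 3, 8, 5, 3, 10, 5, 9, 11], [6, 10, 9, 8, 11, 3, 8, 5, 3, 10, 5, 4, 9, 1, 4, 0, 7, 0, 1, 6, 7, 11], [5, 10, 5, 4, 9, 1, 4, 7, 1, 6, 0, 7, 2, 0, 8, 2, 11, 8, 6, 10, 9, 11], [10, 9, 2, 8, 0, 2, 1, 7, 1, 0, 6, 7, 11, 6, 3, 8, 5, 3, 10, 5,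 9, 11], [10, 4, 9, 1, 4, 7, 1, 6, 0, 7, 2, 0, 3, 8, 3, 2, 11, 8, 6, 10, 9, 11], [10, 4, 9, 1, 4, 7, 1, 0, 7, 2, 0, 8, 2, 11, 3, 8, 5, 3, 10, 5, 9, 11], [6, 10, 1, 4, 1, 9, 4, 0, 2, 0, 8, 2, 11, 3, 8, 5, 3, 10, 5, 9, 6, 11], [3, 5, 3, 10, 5, 4, 9, 1, 4, 2, 0, 2, 7, 0, 1, 6, 7, 11, 6, 10, 9, 11], [10, 2, 8, 0, 2, 4, 1, 4, 7, 1, 0, 6, 7, 11, 6, 3, 8, 5, 3, 10, 5, 11], [4, 9, 1, 4, 7, 1, 6, 0, 7, 2, 0, 5, 3, 5, 8, 3, 2, 11, 8, 6, 9, 11], [6, 4, 1, 9, 4, 10, 9, 5, 10, 3, 5, 8, 3, 2, 8, 0, 2, 7, 0, 1, 6, 7]],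
    15, 0x809ce04a732539909c285024a40a340cca4884a336a299524ca50b9265c832e⟩,
  ⟨⟨11, [(0, 6), (1, 7), (2, 5), (2, 8), (3, 5), (3, 9), (4, 5), (4, 10), (6, 8), (6, 10), (7, 9), (7, 10), (8, 10), (9, 10)], [(0, 1)]⟩,
    [[1, 7, 1, 3, 9, 5, 3, 4, 2, 5, 8, 2, 6, 10, 8, 6, 4, 7, 9, 10], [7, 3, 9, 5, 3, 4, 2, 5, 8, 2, 0, 6, 0, 10, 8, 6, 4, 7, 9, 10], [4, 7, 9, 8, 6, 10, 8, 0, 6, 1, 0, 7, 1, 3, 9, 5, 3, 4, 5, 10], [7, 9, 8, 6, 4, 10, 5, 4, 2, 5, 8, 2, 0, 6, 1, 0, 7, 1, 9, 10], [7, 3, 9, 5, 3, 2, 5, 8, 2, 6, 10, 8, 0, 6, 1, 0, 7, 1, 9, 10], [4, 7, 3, 9, 3, 2, 8, 2, 6, 10, 8, 0, 6, 1, 0, 7, 1, 9, 4, 10], [2, 8, 5, 2, 4, 3, 5, 9, 3, 0, 1, 0, 7, 1, 10, 9, 7, 4, 8, 10], [3, 9, 5, 3, 4,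 2, 5, 8, 2, 1, 0, 1, 6, 0, 10, 8, 6, 4, 9, 10], [2, 5, 2, 4, 3, 5, 9, 3, 1, 7, 0, 1, 6, 0, 10, 6, 9, 7, 4, 10], [7, 8, 6, 4, 10, 3, 5, 3, 4, 2, 5, 8, 2, 0, 6, 1, 0, 7, 1, 10], [4, 9, 3, 7, 9, 1, 7, 0, 1, 6, 0, 8, 6, 2, 8, 5, 2, 3, 4, 5]],
    14, 0xc02210133848a0c452742811d288ea4684a43a51a12910a0ea90454722a⟩,
  ⟨⟨11, [(0, 6), (1, 7), (2, 7), (3, 8), (4, 6), (4, 9), (5, 6), (5, 10), (7, 10), (8, 9), (8, 10), (9, 10)], [(0, 1), (2, 3)]⟩,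
    [[6, 5, 4, 6, 9, 4, 3, 8, 2, 3, 1, 7, 1, 2, 10, 7, 9, 8, 5, 10], [0, 6, 0, 5, 4, 6, 9, 4, 3, 8, 2, 3, 7, 2, 10, 7, 9, 8, 5, 10], [9, 3, 8, 3, 5, 7, 10, 1, 7, 0, 1, 6, 0, 5, 4, 6, 9, 4, 8, 10], [9, 8, 5, 2, 7, 2, 10, 1, 7, 0, 1, 6, 0, 5, 4, 6, 9, 4, 8, 10], [9, 3, 8, 2, 3, 7, 2, 5, 10, 6, 5, 0, 6, 1, 0, 7, 1, 9, 8, 10], [9, 3, 8, 2, 3, 7, 2, 10, 1, 7, 0, 1, 6, 0, 4, 6, 9, 4, 8, 10], [5, 4, 9, 4, 3, 8, 2, 3, 0, 1, 0, 7, 1, 2, 10, 7, 9, 8, 5, 10], [1, 0, 1, 6, 0, 5, 4, 6, 9, 4, 2, 3, 2, 8, 3, 10, 9, 8, 5, 10], [4, 9, 6, 4, 5, 0, 6, 1, 0, 3, 2, 3, 7, 2, 1, 10, 7, 5, 9, 10], [8, 1, 7, 0, 1, 4, 6, 4, 0, 5, 6, 10, 5, 2, 7, 3, 2, 8, 3, 10], [5, 9, 4, 8, 9, 3, 8, 2, 3, 7, 2, 1,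 7, 0, 1, 6, 0, 4, 5, 6]],
    14, 0xc04a1027314e98874c54a70a5490e9c454622e81954a0aa4ea9255472aa⟩,
  ⟨⟨11, [(0, 7), (1, 7), (2, 8), (3, 9), (4, 8), (5, 9), (6, 7), (6, 10), (8, 10), (9, 10)], [(0, 2), (1, 3), (4, 5)]⟩,
    [[10, 6, 5, 9, 4, 5, 2, 8, 2, 4, 10, 8, 3, 9, 1, 3, 7, 1, 6, 7], [10, 6, 4, 8, 5, 4, 3, 9, 3, 5, 10, 9, 2, 8, 0, 2, 7, 0, 6, 7], [10, 6, 5, 9, 4, 5, 8, 4, 10, 8, 3, 9, 1, 3, 0, 7, 0, 1, 6, 7], [1, 10, 6, 4, 8, 5, 4, 9, 5, 10, 9, 2, 8, 0, 2, 7, 0, 6, 1, 7], [3, 1, 5, 9, 5, 3, 10, 9, 6, 8, 10, 2, 8, 0, 2, 7, 0, 6, 1, 7], [3, 1, 9, 3, 10, 9, 6, 4, 8, 4, 10, 2, 8, 0, 2, 7, 0, 6, 1, 7], [3, 1, 9, 3, 10, 5, 9, 4, 5, 8, 4, 10, 2, 8, 0, 2, 7, 0, 1, 7], [0, 2, 0,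 5, 4, 1, 3, 1, 9, 3, 5, 6, 10, 6, 9, 8, 10, 4, 2, 8], [10, 6, 4, 5, 4, 9, 5, 10, 3, 9, 1, 3, 2, 0, 2, 7, 0, 1, 6, 7], [3, 1, 3, 10, 6, 5, 4, 5, 8, 4, 10, 2, 8, 0, 2, 7, 0, 6, 1, 7], [6, 3, 1, 9, 3, 5, 9, 4, 5, 8, 4, 2, 8, 0, 2, 7, 0, 1, 6, 7]],
    14, 0xe04a202740929cc94e64270a1410c8c28ca43691a1494ca50a92654832a⟩]

theorem okT_dd1_0 : okT dd1_0 = true := by decide +kernel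

def dd1_1 : List EntD := [
  ⟨⟨10, [(0, 4), (1, 5), (2, 6), (2, 7), (3, 4), (3, 9), (4, 8), (5, 6), (5, 9), (6, 9), (7, 8), (7, 9), (8, 9)], [(0, 1)]⟩,
    [[4, 3, 8, 4, 2, 7, 6, 2, 1, 5, 1, 9, 6, 5, 8, 7, 3, 9], [0, 4, 0, 3, 8, 4, 2, 7, 6, 2, 5, 9, 6, 5, 8, 7, 3, 9], [8, 7, 3, 6, 5, 9, 6, 1, 5, 0, 1, 4, 0, 3, 8, 4, 7, 9], [8, 2, 7, 6, 2, 5, 9, 6, 1, 5, 0, 1, 4, 0, 8, 4, 7, 9], [3, 8, 2, 7, 6, 2, 0, 1, 0, 5, 1, 9, 6, 5, 8, 7, 3, 9], [1, 0, 1, 4, 0, 3, 8, 4, 2, 7, 6, 2, 9, 6, 8, 7, 3, 9], [8, 2, 7, 2, 3, 5, 9, 1, 5, 0, 1, 4, 0, 3, 8, 4, 7, 9], [3, 8, 2, 6, 2, 5, 9, 6, 1, 5, 0, 1, 4, 0, 8, 3, 4, 9], [2, 7, 6, 2, 1, 5, 0, 1, 4, 0, 3, 4, 9, 3, 6, 5, 7, 9], [3, 1, 0, 5, 1, 6,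 5, 2, 6, 7, 2, 8, 7, 4, 8, 0, 3, 4]],
    13, 0x401d080f90674a13a821520ca98a35072a610d38869ca98e34c51a6⟩,
  ⟨⟨11, [(0, 5), (1, 6), (2, 7), (3, 8), (4, 5), (4, 10), (5, 9), (6, 7), (6, 10), (7, 10), (8, 9), (8, 10), (9, 10)], [(0, 1), (2, 3)]⟩,
    [[5, 4, 9, 5, 3, 8, 2, 3, 7, 2, 1, 6, 1, 10, 7, 6, 9, 8, 4, 10], [0, 5, 0, 4, 9, 5, 3, 8, 2, 3, 7, 2, 6, 10, 7, 6, 9, 8, 4, 10], [9, 3, 8, 3, 4, 7, 6, 10, 7, 1, 6, 0, 1, 5, 0, 4, 9, 5, 8, 10], [9, 8, 4, 2, 7, 2, 6, 10, 7, 1, 6, 0, 1, 5, 0, 4, 9, 5, 8, 10], [9, 3, 8, 2, 3, 7, 2, 6, 10, 7, 1, 6, 0, 1, 5, 0, 9, 5, 8, 10], [4, 9, 3, 8, 2, 3, 7, 2, 0, 1, 0, 6, 1, 10, 7, 6, 9, 8, 4, 10], [1, 0, 1, 5, 0, 4, 9, 5, 3, 8, 2, 3, 7, 2, 10, 7,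 9, 8, 4, 10], [9, 2, 3, 2, 8, 3, 4, 6, 10, 1, 6, 0, 1, 5, 0, 4, 9, 5, 8, 10], [4, 9, 3, 2, 3, 7, 2, 6, 10, 7, 1, 6, 0, 1, 5, 0, 9, 4, 5, 10], [3, 8, 2, 3, 7, 2, 1, 6, 0, 1, 5, 0, 4, 5, 10, 4, 7, 6, 8, 10], [4, 1, 0, 6, 1, 7, 6, 2, 7, 3, 2, 8, 3, 9, 8, 5, 9, 0, 4, 5]],
    14, 0xa0421023305094885253252194a0c9cc44e222311340c8a0ca90454622a⟩,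
  ⟨⟨10, [(0, 5), (1, 7), (2, 5), (2, 6), (3, 6), (3, 8), (4, 5), (4, 9), (6, 9), (7, 8), (7, 9), (8, 9)], [(0, 1)]⟩,
    [[8, 1, 7, 1, 2, 6, 5, 2, 4, 5, 9, 4, 3, 6, 8, 3, 7, 9], [8, 7, 2, 6, 0, 5, 0, 2, 4, 5, 9, 4, 3, 6, 8, 3, 7, 9], [4, 8, 7, 6, 9, 3, 6, 8, 3, 1, 7, 0, 1, 5, 0, 4, 5, 9], [8, 1, 7, 0, 1, 5, 0, 4, 2, 5, 6, 2, 9, 6, 4, 8, 7, 9], [8, 1, 7, 0, 1, 5, 0, 2, 5, 6, 2, 9, 3, 6, 8, 3, 7, 9], [4, 8, 0, 1, 0, 7, 1, 2, 6, 2, 9, 3, 6, 8, 3, 7, 4, 9], [3, 8, 3, 1, 7, 0, 1, 2, 5, 2, 0, 4, 5, 9, 4, 8, 7, 9], [3, 8, 6, 3, 4, 9, 1, 0, 1, 5, 0, 4, 2, 5, 6, 2, 8, 9], [1, 7, 0, 1, 5, 0, 4, 2, 5, 3, 6, 3, 2, 9, 6, 4, 7, 9], [4, 6, 2, 3, 6, 8, 3, 7, 8, 1, 7, 0, 1, 5, 0, 2, 4, 5]],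
    13, 0x101b280c94864a4425121384ca0e64c242819130c8a0c99044c6226⟩,
  ⟨⟨11, [(0, 6), (1, 7), (2, 8), (3, 9), (4, 6), (4, 7), (5, 6), (5, 10), (7, 10), (8, 9), (8, 10), (9, 10)], [(0, 2), (1, 3)]⟩,
    [[9, 2, 8, 2, 4, 7, 6, 4, 5, 6, 10, 5, 1, 7, 3, 1, 9, 3, 8, 10], [3, 9, 3, 2, 8, 0, 2, 6, 0, 5, 4, 6, 7, 4, 10, 7, 5, 9, 8, 10], [9, 8, 4, 7, 0, 6, 0, 4, 5, 6, 10, 5, 1, 7, 3, 1, 9, 3, 8, 10], [9, 2, 8, 0, 2, 6, 0, 5, 4, 6, 1, 7, 1, 4, 10, 7, 5, 9, 8, 10], [5, 9, 8, 7, 10, 1, 7, 3, 1, 9, 3, 2, 8, 0, 2, 6, 0, 5, 6, 10], [9, 2, 8, 0, 2, 6, 0, 4, 6, 7, 4, 10, 1, 7, 3, 1, 9, 3, 8, 10], [5, 9, 0, 2, 0, 8, 2, 4, 7, 4, 10, 1, 7, 3, 1, 9, 3, 8, 5, 10], [1, 3, 1, 9, 3, 2, 8, 0, 2, 4,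 6, 4, 0, 5, 6, 10, 5, 9, 8, 10], [3, 9, 1, 3, 7, 1, 5, 10, 2, 0, 2, 6, 0, 5, 4, 6, 7, 4, 9, 10], [2, 8, 0, 2, 6, 0, 5, 4, 6, 3, 1, 3, 7, 1, 4, 10, 7, 5, 8, 10], [5, 7, 4, 1, 7, 3, 1, 9, 3, 8, 9, 2, 8, 0, 2, 6, 0, 4, 5, 6]],
    14, 0x403e601d408e98a74c54a62254a0e9c895232a3097384aa4ea9255472aa⟩]

theorem okT_dd1_1 : okT dd1_1 = true := by decide +kernel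

def dd1_2 : List EntD := [
  ⟨⟨10, [(0, 4), (0, 5), (1, 4), (1, 6), (2, 7), (2, 8), (3, 4), (3, 9), (5, 7), (5, 9), (6, 8), (6, 9), (7, 9), (8, 9)], []⟩,
    [[4, 3, 1, 4, 6, 1, 2, 8, 7, 2, 5, 9, 7, 5, 6, 8, 3, 9], [6, 2, 8, 7, 2, 0, 5, 4, 0, 3, 4, 9, 3, 7, 5, 6, 8, 9], [6, 8, 3, 7, 5, 9, 7, 0, 5, 4, 0, 3, 1, 4, 6, 1, 8, 9], [6, 2, 8, 7, 2, 5, 9, 7, 0, 5, 4, 0, 1, 4, 6, 1, 8, 9], [3, 1, 6, 1, 2, 8, 7, 2, 0, 5, 0, 9, 7, 5, 6, 8, 3, 9], [2, 7, 8, 2, 1, 6, 0, 4, 0, 1, 3, 4, 9, 3, 8, 6, 7, 9], [2, 8, 7, 2, 0, 5, 1, 4, 1, 0, 3, 4, 9, 3, 7, 5, 8, 9], [2, 8, 2, 1, 6, 4, 1, 3, 0, 4, 5, 0, 9, 5, 3, 8, 6, 9], [6, 3, 2, 7, 2, 5, 9, 7, 0, 5, 4, 0, 3, 1, 4, 6, 1, 9], [3, 6, 1, 8, 6, 2,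 8, 7, 2, 5, 7, 0, 5, 4, 0, 1, 3, 4]],
    13, 0x4021281090684e542409d20ce98274e21a831d4086a0e99034c71a6⟩,
  ⟨⟨10, [(0, 5), (1, 6), (2, 4), (2, 7), (3, 4), (3, 9), (4, 8), (5, 7), (5, 9), (6, 8), (6, 9), (7, 9), (8, 9)], [(0, 1)]⟩,
    [[1, 6, 1, 4, 8, 3, 2, 4, 7, 2, 5, 9, 7, 5, 3, 6, 8, 9], [6, 4, 8, 3, 2, 4, 7, 2, 0, 5, 0, 9, 7, 5, 3, 6, 8, 9], [3, 6, 8, 7, 5, 9, 7, 0, 5, 1, 0, 6, 1, 4, 8, 3, 4, 9], [6, 4, 8, 2, 4, 7, 2, 5, 9, 7, 0, 5, 1, 0, 6, 1, 8, 9], [3, 6, 8, 2, 7, 2, 5, 9, 7, 0, 5, 1, 0, 6, 1, 8, 3, 9], [2, 7, 4, 2, 3, 8, 4, 0, 1, 0, 6, 1, 9, 8, 6, 3, 7, 9], [4, 3, 8, 2, 4, 7, 2, 1, 0, 1, 5, 0, 9, 7, 5, 8, 3, 9], [2, 4, 2, 3, 8, 4, 1, 6, 0, 1, 5, 0, 9, 5, 8, 6, 3, 9],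 [6, 7, 5, 3, 9, 4, 3, 2, 4, 7, 2, 0, 5, 1, 0, 6, 1, 9], [3, 7, 2, 5, 7, 0, 5, 1, 0, 6, 1, 8, 6, 4, 8, 2, 3, 4]],
    13, 0x500d0807a0c54c11a7299388ca08548232419520cc98a98c34c51a6⟩,
  ⟨⟨10, [(0, 6), (1, 7), (2, 5), (2, 6), (3, 5), (3, 8), (4, 5), (4, 9), (6, 9), (7, 8), (7, 9), (8, 9)], [(0, 1)]⟩,
    [[8, 1, 7, 1, 4, 6, 9, 2, 6, 5, 2, 4, 3, 5, 8, 3, 7, 9], [8, 7, 4, 0, 6, 0, 9, 2, 6, 5, 2, 4, 3, 5, 8, 3, 7, 9], [5, 4, 3, 5, 8, 3, 1, 7, 0, 1, 6, 0, 9, 6, 8, 7, 4, 9], [8, 1, 7, 0, 1, 6, 0, 4, 9, 5, 4, 2, 5, 6, 2, 8, 7, 9], [8, 1, 7, 0, 1, 6, 0, 9, 2, 6, 5, 2, 3, 5, 8, 3, 7, 9], [4, 3, 8, 3, 1, 7, 0, 1, 2, 6, 2, 0, 9, 6, 8, 7, 4, 9], [2, 5, 2, 4, 3, 5, 8, 3, 0, 1, 0, 7, 1, 9,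 8, 7, 4, 9], [3, 8, 5, 3, 4, 2, 5, 1, 0, 1, 6, 0, 2, 9, 6, 4, 8, 9], [1, 7, 0, 1, 6, 0, 4, 9, 3, 5, 3, 4, 2, 5, 6, 2, 7, 9], [4, 8, 3, 7, 8, 1, 7, 0, 1, 6, 0, 2, 6, 5, 2, 3, 4, 5]],
    13, 0x601108099c244c242839140cc94484a4425199290ca0c99044c6226⟩,
  ⟨⟨10, [(0, 5), (1, 6), (2, 5), (2, 7), (3, 6), (3, 8), (4, 5), (4, 9), (6, 9), (7, 8), (7, 9), (8, 9)], [(0, 1)]⟩,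
    [[4, 8, 7, 1, 6, 1, 9, 3, 6, 8, 3, 2, 7, 5, 2, 4, 5, 9], [4, 8, 7, 6, 9, 3, 6, 8, 3, 2, 7, 0, 5, 0, 2, 4, 5, 9], [8, 7, 1, 6, 0, 1, 5, 0, 4, 5, 9, 4, 3, 6, 8, 3, 7, 9], [8, 2, 7, 5, 2, 4, 0, 5, 1, 0, 6, 1, 9, 6, 4, 8, 7, 9], [8, 2, 7, 5, 2, 0, 5, 1, 0, 6, 1, 9, 3, 6, 8, 3, 7, 9], [4, 8, 2, 7, 2, 0, 1, 0, 6, 1, 9, 3, 6, 8, 3, 7, 4, 9], [3, 8, 3, 2, 7, 1, 0, 1, 5, 0, 2, 4, 5, 9, 4, 8, 7, 9], [3, 8, 6, 3, 4, 9, 2, 5, 2, 4, 0, 5, 1, 0, 6, 1, 8, 9], [2, 7, 5, 2, 4, 0, 5, 1, 0, 3, 6, 3, 1, 9, 6, 4, 7, 9], [4, 7, 2, 8, 7, 3, 8, 6, 3, 1, 6, 0, 1, 5, 0, 2, 4, 5]],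
    13, 0x5021081194464c1425219291098644e232819141cca0c99044c6226⟩]

theorem okT_dd1_2 : okT dd1_2 = true := by decide +kernel

def dd1_3 : List EntD := [
  ⟨⟨10, [(0, 5), (1, 6), (2, 6), (3, 7), (4, 5), (4, 9), (5, 8), (6, 9), (7, 8), (7, 9), (8, 9)], [(0, 1), (2, 3)]⟩,
    [[5, 4, 8, 5, 3, 7, 2, 3, 1, 6, 1, 2, 9, 6, 8, 7, 4, 9], [0, 5, 0, 4, 8, 5, 3, 7, 2, 3, 6, 2, 9, 6, 8, 7, 4, 9], [8, 3, 7, 3, 4, 6, 9, 1, 6, 0, 1, 5, 0, 4, 8, 5, 7, 9], [8, 7, 4, 2, 6, 2, 9, 1, 6, 0, 1, 5, 0, 4, 8, 5, 7, 9], [8, 3, 7, 2, 3, 6, 2, 9, 1, 6, 0, 1, 5, 0, 8, 5, 7, 9], [4, 8, 3, 7, 2, 3, 0, 1, 0, 6, 1, 2, 9, 6, 8, 7, 4, 9], [1, 0, 1, 5, 0, 4, 8, 5, 2, 3, 2, 7, 3, 9, 8, 7, 4, 9], [5, 4, 8, 0,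 5, 1, 0, 3, 2, 3, 6, 2, 1, 9, 6, 8, 4, 9], [7, 1, 6, 0, 1, 5, 0, 4, 5, 9, 4, 2, 6, 3, 2, 7, 3, 9], [4, 1, 0, 6, 1, 2, 6, 3, 2, 7, 3, 8, 7, 5, 8, 0, 4, 5]],
    13, 0x101f280e98274a43a5219414ca0e64c222311338c89cc98e44c6226⟩,
  ⟨⟨10, [(0, 6), (1, 7), (2, 7), (3, 8), (4, 6), (4, 8), (5, 6), (5, 9), (7, 9), (8, 9)], [(0, 1), (2, 3)]⟩,
    [[9, 5, 3, 8, 2, 3, 1, 7, 1, 2, 9, 7, 4, 8, 6, 4, 5, 6], [9, 5, 3, 8, 2, 3, 7, 2, 9, 7, 4, 8, 0, 6, 0, 4, 5, 6], [3, 8, 3, 4, 9, 8, 5, 7, 9, 1, 7, 0, 1, 6, 0, 5, 4, 6], [8, 4, 9, 8, 5, 2, 7, 2, 9, 1, 7, 0, 1, 6, 0, 5, 4, 6], [9, 5, 2, 7, 3, 2, 8, 3, 9, 8, 1, 7, 0, 1, 6, 0, 5, 6], [8, 4, 9, 3, 8, 2, 3, 7, 2, 9, 1, 7, 0, 1, 6, 0, 4, 6], [0, 1,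 0, 3, 2, 4, 8, 4, 3, 5, 9, 5, 8, 7, 9, 2, 1, 7], [9, 5, 2, 3, 2, 8, 3, 9, 4, 8, 1, 0, 1, 6, 0, 4, 5, 6], [4, 9, 5, 3, 2, 3, 7, 2, 9, 1, 7, 0, 1, 6, 0, 5, 4, 6], [5, 8, 4, 3, 8, 2, 3, 7, 2, 1, 7, 0, 1, 6, 0, 4, 5, 6]],
    13, 0x6021081198874c53a62a13850a0874e22a311740caa0e99054c72a6⟩,
  ⟨⟨10, [(0, 4), (1, 6), (2, 4), (2, 9), (3, 5), (3, 9), (4, 7), (5, 7), (5, 8), (6, 8), (6, 9), (7, 9), (8, 9)], [(0, 1)]⟩,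
    [[2, 5, 7, 3, 8, 5, 1, 6, 1, 9, 8, 6, 3, 4, 7, 2, 4, 9], [2, 5, 7, 3, 8, 5, 6, 9, 8, 6, 3, 0, 4, 0, 7, 2, 4, 9], [5, 3, 7, 8, 5, 6, 9, 8, 1, 6, 0, 1, 4, 0, 7, 4, 3, 9], [2, 5, 7, 8, 5, 6, 9, 8, 1, 6, 0, 1, 4, 0, 7, 2, 4, 9], [2, 5, 3, 7, 8, 5, 0, 1, 0, 6, 1, 9, 8, 6, 7, 3, 2, 9], [3, 2, 7, 8, 6, 9, 8, 1, 6, 0, 1, 4, 0, 7, 2, 4, 3, 9], [1, 0, 1, 4, 0, 2, 7, 4, 3, 8, 9, 5, 8, 3, 7, 5, 2, 9], [5, 3, 8, 5, 1, 6, 0, 1, 4, 0, 2, 4, 9, 2, 8, 6, 3, 9], [3, 4, 7, 2, 0, 4, 1, 0, 6, 1, 9, 6, 2, 5, 7, 3, 5, 9], [2, 1, 0, 6, 1, 8, 6, 3, 5, 3, 8, 7, 5, 4, 7, 0, 2, 4]],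
    14, 0x801a100f390c98234821a4119394ca0c24a332828928c498698c24c3126⟩,
  ⟨⟨10, [(0, 4), (0, 6), (1, 5), (1, 7), (2, 4), (2, 9), (3, 5), (3, 9), (4, 8), (5, 8), (6, 7), (6, 9), (7, 9), (8, 9)], []⟩,
    [[2, 5, 8, 3, 1, 5, 7, 1, 6, 9, 7, 6, 3, 4, 8, 2, 4, 9], [5, 3, 8, 5, 2, 7, 6, 9, 7, 0, 6, 4, 0, 2, 8, 4, 3, 9], [5, 3, 8, 1, 5, 7, 1, 6, 9, 7, 0, 6, 4, 0, 8, 4, 3, 9], [2, 5, 8, 1, 5, 7, 1, 6, 9, 7, 0, 6, 4, 0, 8, 2, 4, 9], [2, 5, 3, 8, 1, 5, 7, 1, 0, 6, 0, 9, 7, 6, 8, 3, 2, 9], [3, 2, 8, 1, 7, 1, 6, 9, 7, 0, 6, 4, 0, 8, 2, 4, 3, 9], [0, 4, 0, 2, 8, 4, 3, 7, 9, 1, 7, 5, 1, 3, 8, 5, 2, 9], [3, 4, 8, 2, 0, 4, 6, 0, 9, 6, 2, 1, 5, 1, 8, 3, 5, 9], [5, 3, 1, 5, 7, 1, 0, 6, 4, 0,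 2, 4, 9, 2, 7, 6, 3, 9], [2, 6, 0, 7, 6, 1, 7, 3, 5, 3, 1, 8, 5, 4, 8, 0, 2, 4]],
    14, 0xc01a400d398494664821a8299410c9c2248232508928c498698c24c3126⟩]

theorem okT_dd1_3 : okT dd1_3 = true := by decide +kernel

def dd1_4 : List EntD := [
  ⟨⟨10, [(0, 5), (1, 7), (2, 6), (2, 7), (3, 5), (3, 9), (4, 6), (4, 9), (5, 8), (6, 8), (7, 9), (8, 9)], [(0, 1)]⟩,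
    [[5, 3, 8, 5, 4, 1, 7, 1, 9, 2, 7, 6, 2, 4, 8, 6, 3, 9], [0, 5, 0, 3, 8, 5, 4, 7, 9, 2, 7, 6, 2, 4, 8, 6, 3, 9], [4, 5, 8, 3, 0, 5, 1, 0, 7, 1, 9, 7, 3, 6, 8, 4, 6, 9], [4, 5, 8, 0, 5, 1, 0, 7, 1, 9, 2, 7, 6, 2, 8, 4, 6, 9], [5, 3, 8, 0, 5, 1, 0, 7, 1, 9, 2, 7, 6, 2, 8, 6, 3, 9], [3, 6, 4, 8, 2, 6, 0, 1, 0, 7, 1, 2, 9, 7, 8, 4, 3, 9], [4, 5, 3, 8, 0, 5, 1, 0, 2, 7, 2, 1, 9, 7, 8, 3, 4, 9], [1, 0, 1, 5, 0, 3, 8, 5, 4, 9, 2, 6, 2, 4, 8, 6, 3, 9], [5, 3, 0, 5, 1, 0, 7, 1, 4, 9, 6, 4, 2, 6, 7, 2, 3, 9], [3, 1, 0, 7, 1, 2, 7, 4, 6, 4, 2, 8, 6, 5, 8, 0, 3, 5]],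
    14, 0xa0221013414e9c244a322519d3886a0c74c21a621d31069c898e34c41a6⟩,
  ⟨⟨10, [(0, 4), (1, 5), (2, 4), (2, 9), (3, 6), (3, 8), (4, 8), (5, 7), (5, 9), (6, 7), (6, 9), (7, 8), (8, 9)], [(0, 1)]⟩,
    [[2, 4, 9, 2, 7, 3, 8, 6, 3, 1, 5, 1, 7, 9, 5, 6, 4, 8], [2, 0, 4, 0, 9, 2, 7, 3, 8, 6, 3, 5, 7, 9, 5, 6, 4, 8], [0, 4, 1, 0, 5, 1, 7, 9, 5, 3, 8, 6, 3, 9, 7, 6, 4, 8], [2, 4, 9, 2, 7, 8, 5, 6, 7, 9, 6, 1, 5, 0, 1, 4, 0, 8], [6, 3, 0, 1, 0, 5, 1, 7, 2, 9, 2, 5, 6, 8, 9, 7, 3, 8], [2, 1, 0, 1, 4, 0, 9, 2, 3, 7, 8, 6, 7, 3, 9, 6, 4, 8], [3, 2, 4, 9, 2, 7, 8, 5, 7, 9, 1, 5, 0, 1, 4, 0, 3, 8], [2, 0, 4, 1, 0, 5, 1, 9, 5, 2, 3, 8, 6, 3, 9, 6, 4, 8], [7, 3, 6, 3, 5, 7, 2, 9, 4, 2,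 0, 4, 1, 0, 5, 1, 6, 9], [3, 5, 7, 1, 5, 0, 1, 2, 4, 2, 0, 8, 4, 6, 7, 3, 6, 8]],
    13, 0x101b200c9426482328215208aa0654e5126195398498a98c24c5126⟩,
  ⟨⟨11, [(0, 5), (1, 6), (2, 7), (3, 9), (4, 5), (4, 10), (5, 9), (6, 8), (6, 10), (7, 8), (7, 10), (8, 9), (9, 10)], [(0, 1), (2, 3)]⟩,
    [[4, 5, 10, 4, 8, 3, 9, 2, 3, 7, 2, 1, 6, 1, 8, 10, 6, 7, 5, 9], [4, 0, 5, 0, 10, 4, 8, 3, 9, 2, 3, 7, 2, 6, 8, 10, 6, 7, 5, 9], [3, 4, 5, 10, 4, 8, 9, 6, 7, 8, 10, 7, 1, 6, 0, 1, 5, 0, 3, 9], [4, 5, 10, 4, 8, 9, 6, 2, 7, 2, 8, 10, 7, 1, 6, 0, 1, 5, 0, 9], [0, 5, 1, 0, 6, 1, 8, 10, 6, 3, 9, 2, 3, 7, 2, 10, 8, 7, 5, 9], [2, 3, 7, 2, 0, 1, 0, 6, 1, 8, 4, 10, 4, 6, 7, 9, 10, 8, 3, 9], [4, 1,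 0, 1, 5, 0, 10, 4, 8, 3, 9, 2, 3, 7, 2, 8, 10, 7, 5, 9], [2, 3, 2, 4, 5, 10, 4, 8, 9, 6, 8, 10, 1, 6, 0, 1, 5, 0, 3, 9], [4, 0, 5, 1, 0, 6, 1, 10, 6, 4, 3, 9, 2, 3, 7, 2, 10, 7, 5, 9], [8, 3, 2, 3, 7, 2, 6, 8, 4, 10, 5, 4, 0, 5, 1, 0, 6, 1, 7, 10], [3, 6, 8, 1, 6, 0, 1, 4, 5, 4, 0, 9, 5, 7, 8, 2, 7, 3, 2, 9]],
    14, 0x203e501d494c94874c13a521948cca0c4462368391388c9cca8e454622a⟩,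
  ⟨⟨10, [(0, 6), (1, 6), (2, 7), (3, 8), (4, 6), (4, 9), (5, 7), (5, 8), (7, 9), (8, 9)], [(0, 2), (1, 3)]⟩,
    [[9, 4, 5, 8, 2, 7, 2, 5, 9, 7, 3, 8, 1, 3, 6, 1, 4, 6], [9, 4, 5, 7, 3, 8, 3, 5, 9, 8, 2, 7, 0, 2, 6, 0, 4, 6], [9, 4, 5, 8, 7, 5, 9, 7, 3, 8, 1, 3, 0, 6, 0, 1, 4, 6], [1, 9, 4, 5, 7, 8, 5, 9, 8, 2, 7, 0, 2, 6, 0, 4, 1, 6], [3, 1, 8, 3, 5, 9, 8, 7, 9, 5, 2, 7, 0, 2, 6, 0, 1, 6], [3, 1, 8, 3, 9, 8, 4, 7, 9, 2, 7, 0, 2, 6, 0, 4, 1, 6], [0, 2, 0, 1, 3, 1, 8, 3, 5, 4, 9, 4, 8, 7, 9, 5, 2, 7], [9, 4, 5, 8, 5, 9, 3, 8, 1, 3, 2, 0, 2, 6, 0, 1, 4, 6], [3, 1, 3, 9, 4, 5, 7, 5, 9, 2, 7, 0, 2, 6, 0, 4, 1, 6], [4, 3, 1, 8, 3, 5, 8, 7, 5, 2, 7, 0, 2, 6, 0, 1, 4, 6]],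
    13, 0x6021101198874c13a622138908c27ce522829140cea0e99044c7226⟩]

theorem okT_dd1_4 : okT dd1_4 = true := by decide +kernel

def dd1_5 : List EntD := [
  ⟨⟨9, [(0, 3), (0, 4), (1, 5), (1, 6), (2, 3), (2, 8), (3, 7), (4, 5), (4, 8), (5, 8), (6, 7), (6, 8), (7, 8)], []⟩,
    [[3, 2, 7, 3, 1, 6, 5, 1, 4, 8, 5, 4, 7, 6, 2, 8], [7, 6, 2, 5, 4, 8, 5, 0, 4, 3, 0, 2, 7, 3, 6, 8], [7, 1, 6, 5, 1, 4, 8, 5, 0, 4, 3, 0, 7, 3, 6, 8], [2, 7, 1, 6, 5, 1, 0, 4, 0, 8, 5, 4, 7, 6, 2, 8], [0, 3, 0, 2, 7, 3, 1, 6, 5, 1, 8, 5, 7, 6, 2, 8], [7, 1, 6, 1, 2, 4, 8, 0, 4, 3, 0, 2, 7, 3, 6, 8], [2, 7, 1, 5, 1, 4, 8, 5, 0, 4, 3, 0, 7, 2, 3, 8], [1, 6, 5, 1, 0, 4, 3, 0, 2, 3, 8, 2, 5, 4, 6, 8], [2,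 4, 0, 5, 4, 1, 5, 6, 1, 7, 6, 3, 7, 0, 2, 3]],
    12, 0x200c8c064a432311938ca8c454a1127315304498a88c2445122⟩,
  ⟨⟨9, [(0, 4), (0, 5), (1, 4), (1, 6), (2, 5), (2, 7), (3, 4), (3, 8), (5, 8), (6, 7), (6, 8), (7, 8)], []⟩,
    [[3, 7, 6, 5, 8, 2, 5, 7, 2, 1, 6, 4, 1, 3, 4, 8], [7, 6, 0, 5, 4, 0, 3, 4, 8, 3, 2, 5, 7, 2, 6, 8], [7, 1, 6, 4, 1, 3, 0, 4, 5, 0, 8, 5, 3, 7, 6, 8], [7, 1, 6, 4, 1, 0, 4, 5, 0, 8, 2, 5, 7, 2, 6, 8], [3, 7, 1, 6, 1, 0, 5, 0, 8, 2, 5, 7, 2, 6, 3, 8], [2, 7, 2, 1, 6, 0, 4, 0, 1, 3, 4, 8, 3, 7, 6, 8], [2, 7, 5, 2, 3, 8, 1, 4, 1, 3, 0, 4, 5, 0, 7, 8], [1, 6, 4, 1, 3, 0, 4, 2, 5, 2, 0, 8, 5, 3, 6, 8], [3, 6, 1, 7, 6, 2, 7, 5, 2, 0, 5, 4, 0, 1, 3, 4]],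
    12, 0x200e94074c12a409520ca9cc54a21a419d38869ca88e34451a2⟩,
  ⟨⟨9, [(0, 4), (1, 5), (2, 5), (2, 6), (3, 4), (3, 8), (4, 7), (5, 8), (6, 7), (6, 8), (7, 8)], [(0, 1)]⟩,
    [[4, 3, 7, 4, 2, 6, 1, 5, 1, 2, 8, 5, 7, 6, 3, 8], [0, 4, 0, 3, 7, 4, 2, 6, 5, 2, 8, 5, 7, 6, 3, 8], [7, 6, 3, 5, 8, 1, 5, 0, 1, 4, 0, 3, 7, 4, 6, 8], [7, 2, 6, 5, 2, 8, 1, 5, 0, 1, 4, 0, 7, 4, 6, 8], [3, 7, 2, 6, 0, 1, 0, 5, 1, 2, 8, 5, 7, 6, 3, 8], [1, 0, 1, 4, 0, 3, 7, 4, 2, 6, 2, 8, 7, 6, 3, 8], [4, 3, 7, 0, 4, 1, 0, 2, 5, 2, 1, 8, 5, 7, 3, 8], [2, 6, 5, 2, 3, 8, 4, 3, 0, 4, 1, 0, 5, 1, 6, 8], [3, 1, 0, 5, 1, 2, 5, 6, 2, 7, 6, 4, 7, 0, 3, 4]],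
    12, 0x200c8406ca132419920ca9c854e62a510d308698a88c34451a2⟩,
  ⟨⟨9, [(0, 3), (0, 4), (1, 3), (1, 5), (2, 3), (2, 6), (4, 5), (4, 7), (5, 8), (6, 7), (6, 8), (7, 8)], []⟩,
    [[6, 2, 7, 8, 6, 4, 7, 5, 4, 8, 1, 5, 3, 1, 2, 3], [6, 2, 8, 7, 6, 5, 8, 4, 5, 7, 0, 4, 3, 0, 2, 3], [5, 1, 7, 4, 6, 8, 7, 6, 5, 8, 0, 4, 3, 0, 1, 3], [0, 2, 6, 2, 8, 7, 6, 1, 5, 1, 8, 4, 5, 7, 0, 4], [6, 2, 7, 8, 6, 7, 5, 8, 1, 5, 0, 3, 0, 1, 2, 3], [1, 6, 2, 8, 7, 6, 8, 4, 7, 0, 4, 3, 0, 2, 1, 3], [2, 5, 1, 7, 4, 8, 7, 5, 8, 0, 4, 3, 0, 1, 2, 3], [6, 2, 8, 6, 5, 8, 1, 4, 5, 0, 4, 3, 0, 1, 2, 3], [5, 1, 4, 5, 0, 7, 4, 6, 7, 2, 6, 3, 2, 0, 1, 3]],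
    12, 0x180e8c05505023115184ea0e04c22a509d398a9ca48e0245012⟩]

theorem okT_dd1_5 : okT dd1_5 = true := by decide +kernel

def dd1_6 : List EntD := [
  ⟨⟨10, [(0, 4), (1, 5), (2, 4), (2, 6), (3, 4), (3, 7), (5, 8), (5, 9), (6, 7), (6, 8), (7, 9), (8, 9)], [(0, 1)]⟩,
    [[7, 3, 8, 6, 1, 5, 1, 9, 8, 5, 7, 9, 2, 6, 4, 2, 3, 4], [7, 3, 8, 6, 5, 9, 8, 5, 7, 9, 2, 6, 0, 4, 0, 2, 3, 4], [7, 3, 9, 6, 7, 8, 6, 5, 9, 8, 1, 5, 0, 1, 4, 0, 3, 4], [6, 2, 8, 7, 6, 9, 7, 5, 8, 9, 1, 5, 0, 1, 4, 0, 2, 4], [0, 1, 0, 3, 7, 3, 9, 2, 6, 2, 7, 8, 6, 5, 9, 8, 1, 5], [7, 3, 8, 6, 9, 8, 7, 9, 2, 6, 1, 0, 1, 4, 0, 2, 3, 4], [2, 7, 3, 9, 7, 8, 5, 9, 8, 1, 5, 0, 1, 4, 0, 3, 2, 4], [3, 6, 2, 8, 6,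 9, 5, 8, 9, 1, 5, 0, 1, 4, 0, 2, 3, 4], [6, 2, 7, 6, 3, 9, 7, 5, 9, 1, 5, 0, 1, 4, 0, 3, 2, 4], [7, 3, 6, 7, 2, 8, 6, 5, 8, 1, 5, 0, 1, 4, 0, 2, 3, 4]],
    14, 0x8032101b209290694833250993092a0a352532928d4186a4c79233c619e⟩,
  ⟨⟨9, [(0, 5), (1, 6), (2, 5), (2, 7), (3, 5), (3, 8), (4, 6), (4, 7), (6, 8), (7, 8)], [(0, 1)]⟩,
    [[8, 3, 4, 7, 1, 6, 1, 4, 8, 6, 2, 7, 5, 2, 3, 5], [8, 3, 4, 7, 6, 4, 8, 6, 2, 7, 0, 5, 0, 2, 3, 5], [8, 3, 4, 6, 7, 4, 8, 7, 1, 6, 0, 1, 5, 0, 3, 5], [7, 2, 4, 8, 7, 6, 8, 4, 1, 6, 0, 1, 5, 0, 2, 5], [7, 2, 8, 7, 3, 6, 8, 1, 6, 0, 1, 5, 0, 3, 2, 5], [0, 1, 0, 2, 7, 2, 4, 3, 8, 3, 7, 6, 8, 4, 1, 6], [8, 3, 4, 7, 4, 8, 2, 7, 1, 0, 1, 5, 0, 2, 3, 5], [2,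 8, 3, 4, 6, 4, 8, 1, 6, 0, 1, 5, 0, 3, 2, 5], [3, 7, 2, 4, 7, 6, 4, 1, 6, 0, 1, 5, 0, 2, 3, 5]],
    12, 0x280e8407cc13a519d288c94664e232620d39069cc88e34461a2⟩,
  ⟨⟨10, [(0, 2), (0, 3), (1, 4), (1, 5), (2, 6), (2, 7), (3, 4), (3, 9), (4, 9), (5, 8), (5, 9), (6, 7), (6, 8), (7, 9), (8, 9)], []⟩,
    [[2, 6, 7, 2, 8, 6, 1, 5, 4, 1, 3, 9, 4, 3, 8, 5, 7, 9], [8, 5, 7, 4, 3, 9, 4, 0, 3, 2, 0, 6, 7, 2, 8, 6, 5, 9], [6, 7, 8, 6, 1, 5, 4, 1, 0, 3, 0, 9, 4, 3, 8, 5, 7, 9], [0, 2, 0, 6, 7, 2, 8, 6, 1, 5, 4, 1, 9, 4, 8, 5, 7, 9], [8, 1, 5, 1, 7, 3, 9, 0, 3, 2, 0, 6, 7, 2, 8, 6, 5, 9], [8, 7, 1, 4, 1, 3, 9, 4, 0, 3, 2, 0, 6, 7, 2, 8, 6, 9], [8, 1, 5, 4, 1, 0, 3, 2, 0, 7, 2, 9, 7, 4, 3,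 8, 5, 9], [8, 1, 5, 4, 1, 3, 9, 4, 0, 3, 2, 0, 6, 2, 8, 6, 5, 9], [1, 5, 4, 1, 0, 3, 2, 0, 6, 7, 2, 6, 9, 7, 4, 3, 5, 9], [7, 8, 6, 5, 8, 1, 5, 4, 1, 3, 4, 0, 3, 2, 0, 7, 6, 2]],
    12, 0x10108c084833a7121204ea0c34e61a509d414ea0e99034c71a6⟩,
  ⟨⟨11, [(0, 3), (1, 4), (2, 5), (2, 6), (3, 7), (3, 8), (4, 5), (4, 10), (5, 10), (6, 9), (6, 10), (7, 8), (7, 9), (8, 10), (9, 10)], [(0, 1)]⟩,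
    [[3, 7, 8, 3, 9, 7, 2, 6, 5, 2, 1, 4, 1, 10, 5, 4, 9, 6, 8, 10], [0, 3, 0, 7, 8, 3, 9, 7, 2, 6, 5, 2, 4, 10, 5, 4, 9, 6, 8, 10], [9, 6, 8, 5, 4, 10, 5, 1, 4, 0, 1, 3, 0, 7, 8, 3, 9, 7, 6, 10], [7, 8, 9, 7, 2, 6, 5, 2, 0, 1, 0, 4, 1, 10, 5, 4, 9, 6, 8, 10], [1, 0, 1, 3, 0, 7, 8, 3, 9, 7, 2, 6, 5, 2, 10, 5, 9, 6, 8, 10], [9, 2, 6, 2, 8, 4, 10, 1, 4, 0, 1, 3, 0, 7, 8, 3, 9, 7, 6, 10], [9, 8, 2, 5, 2, 4, 10, 5, 1, 4, 0, 1, 3, 0, 7, 8, 3, 9, 7, 10], [9, 2, 6, 5, 2, 1, 4, 0, 1, 3, 0, 8, 3, 10, 8, 5, 4, 9, 6, 10], [9, 2, 6, 5, 2, 4, 10, 5, 1, 4, 0, 1, 3, 0, 7, 3, 9, 7, 6, 10], [2, 6, 5, 2, 1, 4, 0, 1, 3, 0, 7, 8, 3, 7, 10, 8, 5, 4, 6, 10], [8, 9, 7, 6, 9, 2, 6, 5, 2, 4, 5, 1,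 4, 0, 1, 3, 0, 8, 7, 3]],
    14, 0x2036301940c89c644813281992910a4e44a24293113090a0ca90454622a⟩]

theorem okT_dd1_6 : okT dd1_6 = true := by decide +kernel

def dd1_7 : List EntD := [
  ⟨⟨11, [(0, 3), (0, 5), (1, 4), (1, 6), (2, 7), (2, 8), (3, 4), (3, 9), (4, 9), (5, 7), (5, 10), (6, 8), (6, 10), (7, 10), (8, 10), (9, 10)], []⟩,
    [[3, 4, 9, 3, 1, 4, 6, 1, 2, 8, 7, 2, 5, 10, 7, 5, 6, 8, 9, 10], [6, 2, 8, 7, 2, 0, 5, 3, 0, 4, 9, 3, 4, 10, 9, 7, 5, 6, 8, 10], [6, 8, 9, 7, 5, 10, 7, 0, 5, 3, 0, 4, 9, 3, 1, 4, 6, 1, 8, 10], [4, 9, 1, 4, 6, 1, 2, 8, 7, 2, 0, 5, 0, 10, 7, 5, 6, 8, 9, 10], [1, 6, 1, 2, 8, 7, 2, 0, 5, 3, 0, 9, 3, 10, 9, 7, 5, 6, 8, 10], [2, 7, 8, 2, 1, 6, 4, 1,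 0, 3, 0, 9, 4, 3, 10, 9, 8, 6, 7, 10], [2, 8, 7, 2, 0, 5, 3, 0, 1, 4, 1, 9, 3, 4, 10, 9, 7, 5, 8, 10], [2, 8, 2, 1, 6, 4, 1, 3, 9, 4, 0, 3, 5, 0, 10, 5, 9, 8, 6, 10], [6, 9, 2, 7, 2, 5, 10, 7, 0, 5, 3, 0, 4, 9, 3, 1, 4, 6, 1, 10], [6, 2, 8, 7, 2, 5, 10, 7, 0, 5, 3, 0, 4, 3, 1, 4, 6, 1, 8, 10], [0, 9, 4, 3, 9, 1, 4, 6, 1, 8, 6, 2, 8, 7, 2, 5, 7, 0, 5, 3]],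
    13, 0x3019280c98254812a72a548cca4854e24a81254192a4ca9255462aa⟩,
  ⟨⟨12, [(0, 4), (1, 6), (2, 5), (2, 7), (3, 8), (3, 9), (4, 5), (4, 10), (5, 10), (6, 8), (6, 11), (7, 9), (7, 11), (8, 11), (9, 11), (10, 11)], [(0, 1)]⟩,
    [[4, 5, 10, 4, 2, 5, 7, 2, 3, 9, 8, 3, 1, 6, 1, 11, 8, 6, 7, 9, 10, 11], [0, 4, 0, 5, 10, 4, 2, 5, 7, 2, 3, 9, 8, 3, 6, 11, 8, 6, 7, 9, 10, 11], [7, 3, 9, 8, 3, 1, 6, 0, 1, 4, 0, 5, 10, 4, 5, 11, 10, 8, 6, 7, 9, 11], [7, 9, 10, 8, 6, 11, 8, 1, 6, 0, 1, 4, 0, 5, 10, 4, 2, 5, 7, 2, 9, 11], [5, 10, 2, 5, 7, 2, 3, 9, 8, 3, 0, 1, 0, 6, 1, 11, 8, 6, 7, 9, 10, 11], [2, 7, 2, 3, 9, 8, 3, 1, 6, 0, 1, 4, 0, 10, 4, 11, 10, 8, 6, 7, 9, 11], [3, 8, 9, 3, 2, 7,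 5, 2, 1, 0, 1, 4, 0, 10, 5, 4, 11, 10, 9, 7, 8, 11], [3, 9, 8, 3, 1, 6, 0, 1, 4, 0, 2, 5, 2, 10, 4, 5, 11, 10, 8, 6, 9, 11], [3, 9, 3, 2, 7, 5, 2, 4, 10, 5, 0, 4, 1, 0, 6, 1, 11, 6, 10, 9, 7, 11], [7, 10, 3, 8, 3, 6, 11, 8, 1, 6, 0, 1, 4, 0, 5, 10, 4, 2, 5, 7, 2, 11], [7, 3, 9, 8, 3, 6, 11, 8, 1, 6, 0, 1, 4, 0, 5, 4, 2, 5, 7, 2, 9, 11], [0, 10, 5, 4, 10, 2, 5, 7, 2, 9, 7, 3, 9, 8, 3, 6, 8, 1, 6, 0, 1, 4]],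
    15, 0x10094204ea2253052a8864a432511941949c4650352939948d4a92b9465c932e⟩,
  ⟨⟨13, [(0, 5), (1, 6), (2, 7), (3, 8), (4, 9), (4, 10), (5, 6), (5, 11), (6, 11), (7, 9), (7, 12), (8, 10), (8, 12), (9, 12), (10, 12), (11, 12)], [(0, 2), (1, 3)]⟩,
    [[5, 6, 11, 5, 1, 6, 3, 1, 8, 3, 4, 10, 9, 4, 2, 7, 2, 12, 9, 7, 8, 10, 11, 12], [3, 8, 3, 4, 10, 9, 4, 2, 7, 0, 2, 5, 0, 6, 11, 5, 6, 12, 11, 9, 7, 8, 10, 12], [0, 5, 0, 6, 11, 5, 1, 6, 3, 1, 8, 3, 4, 10, 9, 4, 7, 12, 9, 7, 8, 10, 11, 12], [8, 4, 10, 9, 4, 2, 7, 0, 2, 5, 0, 1, 6, 1, 11, 5, 6, 12, 11, 9, 7, 8, 10, 12], [8, 10, 11, 9, 7, 12, 9, 2, 7, 0, 2, 5, 0, 6, 11, 5, 1, 6, 3, 1, 8, 3, 10, 12], [6, 11, 1, 6, 3, 1, 8, 3, 4, 10,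 9, 4, 0, 2, 0, 7, 2, 12, 9, 7, 8, 10, 11, 12], [1, 3, 1, 8, 3, 4, 10, 9, 4, 2, 7, 0, 2, 5, 0, 11, 5, 12, 11, 9, 7, 8, 10, 12], [4, 9, 10, 4, 3, 8, 1, 3, 6, 1, 2, 0, 2, 5, 0, 11, 6, 5, 12, 11, 10, 8, 9, 12], [4, 10, 9, 4, 2, 7, 0, 2, 5, 0, 3, 1, 3, 6, 1, 11, 5, 6, 12, 11, 9, 7, 10, 12], [4, 10, 4, 3, 8, 1, 3, 6, 1, 5, 11, 6, 0, 5, 2, 0, 7, 2, 12, 7, 11, 10, 8, 12], [8, 11, 4, 9, 4, 7, 12, 9, 2, 7, 0, 2, 5, 0, 6, 11, 5, 1, 6, 3, 1, 8, 3, 12], [8, 4, 10, 9, 4, 7, 12, 9, 2, 7, 0, 2, 5, 0, 6, 5, 1, 6, 3, 1, 8, 3, 10, 12], [0, 11, 6, 5, 11, 1, 6, 3, 1, 8, 3, 10, 8, 4, 10, 9, 4, 7, 9, 2, 7, 0, 2, 5]],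
    16, 0x2814880ace252b2a9595298a94c14a93a91853a48b5445a81a55212ad4c96964a4b2⟩]

theorem okT_dd1_7 : okT dd1_7 = true := by decide +kernel

def dd1 : List EntD := dd1_0 ++ (dd1_1 ++ (dd1_2 ++ (dd1_3 ++ (dd1_4 ++ (dd1_5 ++ (dd1_6 ++ (dd1_7)))))))

theorem okT_dd1 : okT dd1 = true :=
  okT_append _ _ okT_dd1_0 (
  okT_append _ _ okT_dd1_1 (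
  okT_append _ _ okT_dd1_2 (
  okT_append _ _ okT_dd1_3 (
  okT_append _ _ okT_dd1_4 (
  okT_append _ _ okT_dd1_5 (
  okT_append _ _ okT_dd1_6 (
  okT_dd1_7)))))))

end Pool.Agent.Helper24.FF
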