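import Pool.Agent.Helper24.FF.TApp

set_option autoImplicit false
set_option maxRecDepth 100000

namespace Pool.Agent.Helper24.FF

open Pool.Agent.Helper64.FL

def dd2_0 : List EntD := [
  ⟨⟨11, [(0, 4), (1, 5), (2, 3), (2, 6), (3, 7), (3, 8), (4, 6), (4, 10), (5, 9), (5, 10), (6, 10), (7, 8), (7, 9), (8, 10), (9, 10)], [(0, 1)]⟩,
    [[1, 5, 1, 7, 9, 3, 8, 7, 2, 3, 6, 2, 4, 10, 6, 4, 8, 5, 9, 10], [5, 7, 9, 3, 8, 7, 2, 3, 6, 2, 0, 4, 0, 10, 6, 4, 8, 5, 9, 10], [8, 5, 9, 6, 4, 10, 6, 0, 4, 1, 0, 5, 1, 7, 9, 3, 8, 7, 3, 10], [8, 5, 9, 2, 6, 2, 4, 10, 6, 0, 4, 1, 0, 5, 1, 7, 9, 8, 7, 10], [2, 6, 3, 2, 7, 8, 3, 9, 7, 0, 1, 0, 5, 1, 10, 9, 5, 8, 6, 10], [7, 9, 3, 8, 7, 2, 3, 6, 2, 1,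 0, 1, 4, 0, 10, 6, 4, 8, 9, 10], [2, 3, 2, 7, 8, 3, 9, 7, 1, 5, 0, 1, 4, 0, 10, 4, 9, 5, 8, 10], [5, 9, 6, 4, 8, 10, 3, 8, 2, 3, 6, 2, 0, 4, 1, 0, 5, 1, 9, 10], [5, 7, 9, 3, 7, 2, 3, 6, 2, 4, 10, 6, 0, 4, 1, 0, 5, 1, 9, 10], [5, 6, 4, 8, 10, 7, 3, 8, 7, 2, 3, 6, 2, 0, 4, 1, 0, 5, 1, 10], [8, 9, 7, 5, 9, 1, 5, 0, 1, 4, 0, 6, 4, 2, 6, 3, 2, 8, 7, 3]],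
    13, 0x4021081198855252250a149c898454622a839140caa0aa90454522a⟩,
  ⟨⟨12, [(0, 6), (1, 7), (2, 4), (2, 8), (3, 5), (3, 9), (4, 5), (4, 10), (5, 10), (6, 8), (6, 11), (7, 9), (7, 11), (8, 11), (9, 11), (10, 11)], [(0, 1)]⟩,
    [[1, 7, 1, 3, 9, 5, 3, 4, 10, 5, 2, 4, 8, 2, 6, 11, 8, 6, 10, 7, 9, 11], [7, 3, 9, 5, 3, 4, 10, 5, 2, 4, 8, 2, 0, 6, 0, 11, 8, 6, 10, 7, 9, 11], [10, 7, 9, 8, 6, 11, 8, 0, 6, 1, 0, 7, 1, 3, 9, 5, 3, 4, 10, 5, 4, 11], [7, 9, 8, 6, 10, 11, 5, 4, 10, 5, 2, 4, 8, 2, 0, 6, 1, 0, 7, 1, 9, 11], [10, 7, 9, 2, 8, 2, 6, 11, 8, 0, 6, 1, 0, 7, 1, 3, 9, 5, 3, 10, 5, 11], [7, 3, 9, 3, 8, 6, 10, 11, 4, 10, 2, 4, 8, 2, 0, 6, 1, 0, 7, 1, 9, 11], [2, 8, 4, 2, 5, 10, 4, 3,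 5, 9, 3, 0, 1, 0, 7, 1, 11, 9, 7, 10, 8, 11], [3, 9, 5, 3, 4, 10, 5, 2, 4, 8, 2, 1, 0, 1, 6, 0, 11, 8, 6, 10, 9, 11], [2, 4, 2, 5, 10, 4, 3, 5, 9, 3, 1, 7, 0, 1, 6, 0, 11, 6, 9, 7, 10, 11], [7, 8, 6, 10, 11, 3, 5, 3, 4, 10, 5, 2, 4, 8, 2, 0, 6, 1, 0, 7, 1, 11], [7, 3, 9, 5, 3, 4, 5, 2, 4, 8, 2, 6, 11, 8, 0, 6, 1, 0, 7, 1, 9, 11], [2, 10, 5, 4, 10, 3, 5, 9, 3, 7, 9, 1, 7, 0, 1, 6, 0, 8, 6, 2, 8, 4]],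
    14, 0x2056602941929c2a5233293a9409294664824aa2995112a92b9465c932e⟩,
  ⟨⟨13, [(0, 5), (1, 7), (2, 8), (3, 9), (4, 6), (4, 10), (5, 6), (5, 11), (6, 11), (7, 8), (7, 12), (8, 12), (9, 10), (9, 12), (10, 12), (11, 12)], [(0, 1), (2, 3)]⟩,
    [[5, 6, 11, 5, 4, 6, 10, 4, 3, 9, 2, 3, 8, 2, 1, 7, 1, 12, 8, 7, 10, 9, 11, 12], [0, 5, 0, 6, 11, 5, 4, 6, 10, 4, 3, 9, 2, 3, 8, 2, 7, 12, 8, 7, 10, 9, 11, 12], [10, 3, 9, 3, 11, 8, 7, 12, 8, 1, 7, 0, 1, 5, 0, 6, 11, 5, 4, 6, 10, 4, 9, 12], [10, 9, 11, 2, 8, 2, 7, 12, 8, 1, 7, 0, 1, 5, 0, 6, 11, 5, 4, 6, 10, 4, 9, 12], [10, 3, 9, 2, 3, 8, 2, 1, 7, 0, 1, 5, 0, 6, 11, 5, 6, 12, 11, 8, 7, 10, 9, 12], [6, 11, 4, 6, 10, 4, 3, 9, 2, 3, 8, 2, 0,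 1, 0, 7, 1, 12, 8, 7, 10, 9, 11, 12], [4, 10, 4, 3, 9, 2, 3, 8, 2, 1, 7, 0, 1, 5, 0, 11, 5, 12, 11, 8, 7, 10, 9, 12], [1, 0, 1, 5, 0, 6, 11, 5, 4, 6, 10, 4, 3, 9, 2, 3, 8, 2, 12, 8, 10, 9, 11, 12], [10, 2, 3, 2, 9, 3, 11, 7, 12, 1, 7, 0, 1, 5, 0, 6, 11, 5, 4, 6, 10, 4, 9, 12], [10, 11, 3, 2, 3, 8, 2, 7, 12, 8, 1, 7, 0, 1, 5, 0, 6, 11, 5, 4, 6, 10, 4, 12], [3, 9, 2, 3, 8, 2, 1, 7, 0, 1, 5, 0, 4, 6, 4, 11, 5, 6, 12, 11, 8, 7, 9, 12], [10, 3, 9, 2, 3, 8, 2, 7, 12, 8, 1, 7, 0, 1, 5, 0, 6, 5, 4, 6, 10, 4, 9, 12], [0, 11, 6, 5, 11, 4, 6, 10, 4, 9, 10, 3, 9, 2, 3, 8, 2, 7, 8, 1, 7, 0, 1, 5]],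
    16, 0x28128409ce14ab2a5594e98a74c43a83ad510ea04b4625ea49d48d6ad2c9676493b2⟩,
  ⟨⟨12, [(0, 4), (1, 5), (2, 6), (3, 7), (4, 8), (4, 9), (5, 6), (5, 11), (6, 11), (7, 10), (7, 11), (8, 9), (8, 10), (9, 11), (10, 11)], [(0, 1), (2, 3)]⟩,
    [[4, 8, 9, 4, 10, 8, 3, 7, 2, 3, 6, 2, 1, 5, 1, 11, 6, 5, 10, 7, 9, 11], [0, 4, 0, 8, 9, 4, 10, 8, 3, 7, 2, 3, 6, 2, 5, 11, 6, 5, 10, 7, 9, 11], [10, 3, 7, 3, 9, 6, 5, 11, 6, 1, 5, 0, 1, 4, 0, 8, 9, 4, 10, 8, 7, 11], [10, 7, 9, 2, 6, 2, 5, 11, 6, 1, 5, 0, 1, 4, 0, 8, 9, 4, 10, 8, 7, 11], [8, 9, 10, 8, 3, 7, 2, 3, 6, 2, 0, 1, 0, 5, 1, 11, 6, 5, 10, 7, 9, 11], [1, 0, 1, 4, 0, 8, 9, 4, 10, 8, 3, 7, 2, 3, 6, 2, 11, 6, 10, 7, 9, 11], [10, 2, 3,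 2, 7, 3, 9, 5, 11, 1, 5, 0, 1, 4, 0, 8, 9, 4, 10, 8, 7, 11], [10, 9, 3, 2, 3, 6, 2, 5, 11, 6, 1, 5, 0, 1, 4, 0, 8, 9, 4, 10, 8, 11], [10, 3, 7, 2, 3, 6, 2, 1, 5, 0, 1, 4, 0, 9, 4, 11, 9, 6, 5, 10, 7, 11], [10, 3, 7, 2, 3, 6, 2, 5, 11, 6, 1, 5, 0, 1, 4, 0, 8, 4, 10, 8, 7, 11], [3, 7, 2, 3, 6, 2, 1, 5, 0, 1, 4, 0, 8, 9, 4, 8, 11, 9, 6, 5, 7, 11], [9, 10, 8, 7, 10, 3, 7, 2, 3, 6, 2, 5, 6, 1, 5, 0, 1, 4, 0, 9, 8, 4]],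
    15, 0x407c803a509d490aa0855243a62a5520a98495472a312738d2a4eb9255c72ae⟩]

theorem okT_dd2_0 : okT dd2_0 = true := by decide +kernel

def dd2_1 : List EntD := [
  ⟨⟨14, [(0, 6), (1, 7), (2, 8), (3, 9), (4, 10), (5, 11), (6, 7), (6, 12), (7, 12), (8, 10), (8, 13), (9, 11), (9, 13), (10, 13), (11, 13), (12, 13)], [(0, 2), (1, 3), (4, 5)]⟩,
    [[6, 7, 12, 6, 1, 7, 3, 1, 9, 3, 5, 11, 4, 5, 10, 4, 2, 8, 2, 13, 10, 8, 9, 11, 12, 13], [3, 9, 3, 5, 11, 4, 5, 10, 4, 2, 8, 0, 2, 6, 0, 7, 12, 6, 7, 13, 12, 10, 8, 9, 11, 13], [0, 6, 0, 7, 12, 6, 1, 7, 3, 1, 9, 3, 5, 11, 4, 5, 10, 4, 8, 13, 10, 8, 9, 11, 12, 13], [9, 5, 11, 4, 5, 10, 4, 2, 8, 0, 2, 6, 0, 1, 7, 1, 12, 6, 7, 13, 12, 10, 8,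 9, 11, 13], [9, 5, 11, 5, 12, 10, 8, 13, 10, 2, 8, 0, 2, 6, 0, 7, 12, 6, 1, 7, 3, 1, 9, 3, 11, 13], [9, 11, 12, 4, 10, 4, 8, 13, 10, 2, 8, 0, 2, 6, 0, 7, 12, 6, 1, 7, 3, 1, 9, 3, 11, 13], [7, 12, 1, 7, 3, 1, 9, 3, 5, 11, 4, 5, 10, 4, 0, 2, 0, 8, 2, 13, 10, 8, 9, 11, 12, 13], [1, 3, 1, 9, 3, 5, 11, 4, 5, 10, 4, 2, 8, 0, 2, 6, 0, 12, 6, 13, 12, 10, 8, 9, 11, 13], [4, 10, 5, 4, 11, 5, 3, 9, 1, 3, 7, 1, 2, 0, 2, 6, 0, 12, 7, 6, 13, 12, 11, 9, 10, 13], [5, 11, 4, 5, 10, 4, 2, 8, 0, 2, 6, 0, 3, 1, 3, 7, 1, 12, 6, 7, 13, 12, 10, 8, 11, 13], [4, 5, 4, 11, 5, 3, 9, 1, 3, 7, 1, 6, 12, 7, 0, 6, 2, 0, 8, 2, 13, 8, 12, 11, 9, 13], [9, 12, 5, 4, 5, 10, 4, 8, 13, 10, 2, 8, 0, 2, 6, 0, 7, 12,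 6, 1, 7, 3, 1, 9, 3, 13], [9, 5, 11, 4, 5, 10, 4, 8, 13, 10, 2, 8, 0, 2, 6, 0, 7, 6, 1, 7, 3, 1, 9, 3, 11, 13], [0, 12, 7, 6, 12, 1, 7, 3, 1, 9, 3, 11, 9, 5, 11, 4, 5, 10, 4, 8, 10, 2, 8, 0, 2, 6]],
    17, 0x602510139cca58652c3254092a9094e15230ab5118948cd2352b2b15a58b14d9896ca4b6⟩,
  ⟨⟨10, [(0, 2), (1, 3), (2, 6), (2, 9), (3, 7), (3, 9), (4, 5), (4, 6), (4, 8), (5, 7), (5, 8), (6, 9), (7, 9), (8, 9)], [(0, 1)]⟩,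
    [[1, 3, 1, 5, 7, 4, 8, 5, 6, 4, 2, 9, 6, 2, 8, 3, 7, 9], [3, 5, 7, 4, 8, 5, 6, 4, 0, 2, 0, 9, 6, 2, 8, 3, 7, 9], [4, 6, 5, 8, 4, 7, 5, 0, 1, 0, 3, 1, 9, 7, 3, 8, 6, 9], [5, 7, 4, 8, 5, 6, 4, 1, 0, 1, 2, 0, 9, 6, 2, 8, 7, 9], [8, 3, 7, 6, 2, 9, 6, 0, 2, 1, 0, 3, 1, 5, 7, 8, 5, 9], [3, 7, 6, 2, 8, 9, 4, 8, 6, 4, 0, 2, 1, 0, 3, 1, 7, 9], [4, 5, 8, 4, 7, 5, 1, 3, 0, 1, 2, 0, 9, 2, 7, 3, 8, 9], [3, 6, 2, 8, 9, 5, 4, 8, 5, 6, 4, 0, 2, 1, 0, 3, 1, 9], [3, 5, 7, 4, 5, 6, 4, 2, 9, 6, 0, 2, 1, 0, 3, 1, 7, 9], [1, 0, 3, 1, 7, 3, 5, 7, 8, 4, 5, 8, 6, 4, 2, 6, 0, 2]],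
    12, 0x81188084e312610d18509ca24c41a82894106a0699024c3126⟩,
  ⟨⟨10, [(0, 3), (1, 5), (2, 3), (2, 4), (3, 9), (4, 6), (4, 7), (5, 8), (5, 9), (6, 7), (6, 8), (7, 9), (8, 9)], [(0, 1)]⟩,
    [[8, 1, 5, 1, 7, 3, 9, 2, 3, 4, 2, 6, 7, 4, 8, 6, 5, 9], [8, 5, 7, 0, 3, 0, 9, 2, 3, 4, 2, 6, 7, 4, 8, 6, 5, 9], [4, 6, 7, 4, 8, 6, 1, 5, 0, 1, 3, 0, 9, 3, 8, 5, 7, 9], [2, 4, 2, 6, 7, 4, 8, 6, 0, 1, 0, 5, 1, 9, 8, 5, 7, 9], [6, 7, 8, 6, 1, 5, 0, 1, 2, 3, 2, 0, 9, 3, 8, 5, 7, 9], [6, 8, 4, 7, 6, 2, 4, 1, 0, 1, 3, 0, 2, 9, 3, 7, 8, 9], [8, 1, 5, 0, 1, 3, 0, 7, 9, 4, 7, 2, 4, 3, 2, 8, 5, 9], [8, 1, 5, 0, 1, 3, 0, 9, 2, 3, 4, 2, 6, 4, 8, 6, 5, 9], [5, 2, 3, 4, 2, 6, 7, 4, 6, 9, 7, 0, 3, 1, 0,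 5, 1, 9], [4, 2, 7, 6, 4, 7, 8, 6, 5, 8, 1, 5, 0, 1, 3, 0, 2, 3]],
    12, 0x180e8407d051a509d188aa0c34822a730d390a9ca98e34c51a6⟩,
  ⟨⟨11, [(0, 4), (1, 4), (2, 5), (3, 6), (4, 10), (5, 7), (5, 8), (6, 9), (6, 10), (7, 8), (7, 9), (8, 10), (9, 10)], [(0, 2), (1, 3)]⟩,
    [[2, 5, 2, 7, 8, 5, 9, 7, 3, 6, 1, 3, 4, 1, 10, 4, 9, 6, 8, 10], [9, 3, 6, 3, 8, 4, 10, 0, 4, 2, 0, 5, 2, 7, 8, 5, 9, 7, 6, 10], [5, 7, 8, 5, 9, 7, 3, 6, 1, 3, 0, 4, 0, 1, 10, 4, 9, 6, 8, 10], [9, 6, 8, 1, 4, 1, 10, 0, 4, 2, 0, 5, 2, 7, 8, 5, 9, 7, 6, 10], [0, 2, 0, 5, 2, 7, 8, 5, 9, 7, 1, 3, 1, 6, 3, 10, 9, 6, 8, 10], [7, 8, 9, 7, 3, 6, 1, 3, 2, 0, 2, 4, 0, 1, 10, 4, 9, 6, 8, 10], [7, 9, 5, 8, 7, 2, 5, 0, 2, 3,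 1, 3, 4, 1, 0, 10, 4, 8, 9, 10], [9, 3, 6, 1, 3, 4, 1, 8, 10, 5, 8, 2, 5, 0, 2, 4, 0, 9, 6, 10], [9, 3, 6, 1, 3, 4, 1, 10, 0, 4, 2, 0, 5, 2, 7, 5, 9, 7, 6, 10], [6, 0, 4, 2, 0, 5, 2, 7, 8, 5, 7, 10, 8, 1, 4, 3, 1, 6, 3, 10], [3, 1, 6, 3, 9, 6, 7, 9, 8, 5, 7, 8, 2, 5, 0, 2, 4, 0, 1, 4]],
    14, 0x8032201b288c9ca45052240a149c88c28d0532931130d0a0ca90454622a⟩]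

theorem okT_dd2_1 : okT dd2_1 = true := by decide +kernel

def dd2_2 : List EntD := [
  ⟨⟨10, [(0, 3), (0, 4), (1, 3), (1, 6), (2, 5), (2, 7), (3, 9), (4, 5), (4, 8), (5, 8), (6, 7), (6, 9), (7, 9), (8, 9)], []⟩,
    [[4, 5, 8, 4, 2, 5, 7, 2, 1, 6, 3, 1, 9, 3, 7, 6, 8, 9], [7, 6, 8, 3, 9, 0, 3, 4, 0, 5, 8, 4, 2, 5, 7, 2, 6, 9], [7, 1, 6, 3, 1, 8, 9, 5, 4, 8, 5, 0, 4, 3, 0, 7, 6, 9], [0, 4, 0, 5, 8, 4, 2, 5, 7, 2, 1, 6, 1, 9, 7, 6, 8, 9], [5, 8, 2, 5, 7, 2, 1, 6, 0, 3, 0, 1, 9, 3, 7, 6, 8, 9], [2, 7, 2, 1, 6, 3, 1, 8, 9, 4, 8, 0, 4, 3, 0, 7, 6, 9], [2, 7, 5, 2, 4, 8, 5, 0, 4, 1, 3, 1, 0, 9, 3, 8, 7, 9], [1, 6, 3, 1, 8, 9, 2, 5, 2, 4, 8, 5, 0, 4, 3, 0, 6, 9], [7, 1, 6, 3, 1, 9,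 0, 3, 4, 0, 5, 4, 2, 5, 7, 2, 6, 9], [6, 1, 7, 6, 2, 7, 5, 2, 8, 4, 5, 8, 0, 4, 3, 0, 1, 3]],
    12, 0x3886944348032301918509cc35051a82193050a0c99034c61a6⟩,
  ⟨⟨11, [(0, 4), (1, 5), (2, 4), (2, 7), (3, 6), (3, 8), (4, 10), (5, 6), (5, 9), (6, 9), (7, 8), (7, 10), (8, 10), (9, 10)], [(0, 1)]⟩,
    [[1, 5, 1, 6, 9, 5, 3, 6, 8, 3, 2, 7, 4, 2, 10, 4, 8, 7, 9, 10], [5, 6, 9, 5, 3, 6, 8, 3, 2, 7, 0, 4, 0, 2, 10, 4, 8, 7, 9, 10], [8, 7, 9, 4, 10, 0, 4, 1, 0, 5, 1, 6, 9, 5, 3, 6, 8, 3, 7, 10], [8, 2, 7, 4, 2, 9, 10, 6, 5, 9, 6, 1, 5, 0, 1, 4, 0, 8, 7, 10], [0, 1, 0, 5, 1, 6, 9, 5, 3, 6, 8, 3, 2, 7, 2, 10, 8, 7, 9, 10], [6, 9, 3, 6, 8, 3, 2, 7, 1, 0, 1, 4, 0, 2, 10, 4, 8, 7, 9, 10], [3,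 8, 3, 2, 7, 4, 2, 9, 10, 5, 9, 1, 5, 0, 1, 4, 0, 8, 7, 10], [3, 8, 6, 3, 5, 9, 6, 1, 5, 0, 1, 2, 4, 2, 0, 10, 4, 9, 8, 10], [2, 7, 4, 2, 9, 10, 3, 6, 3, 5, 9, 6, 1, 5, 0, 1, 4, 0, 7, 10], [8, 2, 7, 4, 2, 10, 0, 4, 1, 0, 5, 1, 6, 5, 3, 6, 8, 3, 7, 10], [7, 2, 8, 7, 3, 8, 6, 3, 9, 5, 6, 9, 1, 5, 0, 1, 4, 0, 2, 4]],
    14, 0x203e401d284e9049525226291494e98644e24a819141c8a4ea92454722a⟩,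
  ⟨⟨11, [(0, 4), (1, 7), (2, 4), (2, 5), (3, 6), (3, 8), (4, 10), (5, 6), (5, 9), (6, 9), (7, 8), (7, 10), (8, 10), (9, 10)], [(0, 1)]⟩,
    [[8, 1, 7, 1, 9, 4, 10, 2, 4, 5, 2, 6, 9, 5, 3, 6, 8, 3, 7, 10], [8, 7, 9, 0, 4, 0, 10, 2, 4, 5, 2, 6, 9, 5, 3, 6, 8, 3, 7, 10], [5, 6, 9, 5, 3, 6, 8, 3, 1, 7, 0, 1, 4, 0, 10, 4, 8, 7, 9, 10], [8, 1, 7, 0, 1, 4, 0, 9, 10, 6, 5, 9, 6, 2, 5, 4, 2, 8, 7, 10], [2, 5, 2, 6, 9, 5, 3, 6, 8, 3, 0, 1, 0, 7, 1, 10, 8, 7, 9, 10], [6, 9, 3, 6, 8, 3, 1, 7, 0, 1, 2, 4, 2, 0, 10, 4, 8, 7, 9, 10], [3, 8, 3, 1, 7, 0, 1, 4, 0, 9, 10, 5, 9, 2, 5, 4, 2, 8, 7, 10], [3, 8, 6, 3, 5, 9, 6, 2, 5, 1, 0, 1, 4, 0, 2, 10, 4, 9, 8, 10], [7, 2, 4, 5, 2, 3, 6, 3, 9, 5, 6,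 10, 9, 0, 4, 1, 0, 7, 1, 10], [8, 1, 7, 0, 1, 4, 0, 10, 2, 4, 5, 2, 6, 5, 3, 6, 8, 3, 7, 10], [5, 2, 9, 6, 5, 9, 3, 6, 8, 3, 7, 8, 1, 7, 0, 1, 4, 0, 2, 4]],
    13, 0x4025081390474e14a8391288ea0645253a61914988a4ea92454722a⟩,
  ⟨⟨12, [(0, 5), (1, 5), (2, 6), (3, 8), (4, 7), (4, 9), (5, 11), (6, 7), (6, 10), (7, 10), (8, 9), (8, 11), (9, 11), (10, 11)], [(0, 2), (1, 3)]⟩,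
    [[2, 6, 2, 7, 10, 6, 4, 7, 9, 4, 3, 8, 1, 3, 5, 1, 11, 5, 9, 8, 10, 11], [9, 3, 8, 3, 10, 5, 11, 0, 5, 2, 0, 6, 2, 7, 10, 6, 4, 7, 9, 4, 8, 11], [6, 7, 10, 6, 4, 7, 9, 4, 3, 8, 1, 3, 0, 5, 0, 1, 11, 5, 9, 8, 10, 11], [9, 8, 10, 1, 5, 1, 11, 0, 5, 2, 0, 6, 2, 7, 10, 6, 4, 7, 9, 4, 8, 11], [9, 3, 8, 1, 3, 5, 1, 10, 11, 7, 6, 10, 7, 2, 6, 0, 2, 5, 0, 9, 8, 11], [0, 2, 0, 6, 2, 7, 10, 6, 4, 7, 9, 4, 1, 3, 1, 8, 3, 11, 9, 8, 10, 11], [7, 10, 4, 7, 9, 4, 3, 8, 1, 3, 2, 0, 2, 5, 0, 1, 11, 5, 9, 8, 10, 11], [4, 9, 4, 3, 8, 1, 3, 5, 1, 10, 11, 6, 10, 2, 6, 0, 2, 5, 0, 9, 8, 11], [4, 9, 7, 4, 6, 10, 7, 2, 6, 0, 2, 3, 1, 3, 5, 1, 0, 11, 5, 10, 9, 11], [8, 0, 5, 2, 0, 6, 2, 4, 7, 4, 10,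 6, 7, 11, 10, 1, 5, 3, 1, 8, 3, 11], [9, 3, 8, 1, 3, 5, 1, 11, 0, 5, 2, 0, 6, 2, 7, 6, 4, 7, 9, 4, 8, 11], [3, 1, 8, 3, 9, 8, 4, 9, 7, 4, 10, 6, 7, 10, 2, 6, 0, 2, 5, 0, 1, 5]],
    15, 0x809ca04a6125398aa8c54a152a32518559c855242a81a94a14a92b9455c92ae⟩]

theorem okT_dd2_2 : okT dd2_2 = true := by decide +kernel

def dd2_3 : List EntD := [
  ⟨⟨11, [(0, 5), (1, 7), (2, 4), (2, 6), (3, 4), (3, 8), (4, 10), (5, 6), (5, 9), (6, 9), (7, 8), (7, 10), (8, 10), (9, 10)], [(0, 1)]⟩,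
    [[8, 1, 7, 1, 2, 4, 6, 2, 5, 9, 6, 5, 10, 9, 3, 4, 8, 3, 7, 10], [8, 7, 2, 4, 6, 2, 0, 5, 0, 9, 6, 5, 10, 9, 3, 4, 8, 3, 7, 10], [9, 8, 7, 4, 10, 3, 4, 8, 3, 1, 7, 0, 1, 5, 0, 6, 9, 5, 6, 10], [8, 1, 7, 0, 1, 5, 0, 6, 9, 5, 2, 6, 4, 2, 10, 4, 9, 8, 7, 10], [9, 3, 8, 3, 7, 10, 8, 1, 7, 0, 1, 5, 0, 2, 6, 2, 9, 5, 6, 10], [8, 0, 1, 0, 7, 1, 2, 4, 6, 2, 9, 6, 10, 9, 3, 4, 8, 3, 7, 10], [9, 8, 7, 2, 4, 2, 10, 3, 4, 8, 3, 1, 7, 0, 1, 5, 0, 9, 5, 10], [3, 8, 4, 3, 9, 10, 1, 0, 1, 5, 0, 6, 9, 5, 2, 6, 4, 2, 8, 10], [1, 7, 0, 1, 5, 0, 6, 9, 5, 2, 6, 3, 4, 3, 2, 10, 4, 9, 7, 10], [8, 1, 7, 0, 1, 5, 0, 6, 5, 2, 6, 4, 2, 10, 3, 4, 8, 3, 7, 10], [8, 3, 7, 8, 1, 7, 0, 1, 5, 0, 9, 6, 5, 9,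 2, 6, 4, 2, 3, 4]],
    14, 0x20265011314ea4a74e122929141d298474823a81a520d2a4ea92454722a⟩,
  ⟨⟨12, [(0, 5), (1, 6), (2, 7), (3, 8), (4, 5), (4, 9), (5, 11), (6, 7), (6, 10), (7, 10), (8, 9), (8, 11), (9, 11), (10, 11)], [(0, 1), (2, 3)]⟩,
    [[10, 9, 8, 5, 11, 4, 5, 9, 4, 3, 8, 2, 3, 7, 2, 1, 6, 1, 10, 7, 6, 11], [10, 9, 8, 0, 5, 0, 11, 4, 5, 9, 4, 3, 8, 2, 3, 7, 2, 6, 10, 7, 6, 11], [9, 3, 8, 3, 0, 5, 1, 0, 6, 1, 7, 10, 6, 7, 11, 10, 4, 5, 9, 4, 8, 11], [9, 8, 0, 5, 1, 0, 6, 1, 2, 7, 2, 10, 6, 7, 11, 10, 4, 5, 9, 4, 8, 11], [9, 3, 8, 2, 3, 7, 2, 6, 10, 7, 1, 6, 0, 1, 5, 0, 11, 5, 10, 9, 8, 11], [10, 4, 9, 4, 8, 11, 9, 3, 8, 2, 3, 7, 2, 0, 1, 0, 6, 1, 10, 7, 6, 11], [10, 9, 8,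 1, 0, 1, 5, 0, 11, 4, 5, 9, 4, 3, 8, 2, 3, 7, 2, 10, 7, 11], [9, 2, 3, 2, 8, 3, 0, 5, 1, 0, 6, 1, 10, 6, 11, 10, 4, 5, 9, 4, 8, 11], [4, 9, 5, 4, 10, 11, 3, 2, 3, 7, 2, 6, 10, 7, 1, 6, 0, 1, 5, 0, 9, 11], [3, 8, 2, 3, 7, 2, 6, 10, 7, 1, 6, 0, 1, 4, 5, 4, 0, 11, 5, 10, 8, 11], [9, 3, 8, 2, 3, 7, 2, 6, 7, 1, 6, 0, 1, 5, 0, 11, 4, 5, 9, 4, 8, 11], [9, 4, 8, 9, 3, 8, 2, 3, 7, 2, 10, 6, 7, 10, 1, 6, 0, 1, 5, 0, 4, 5]],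
    15, 0x409ca04a60a52914a8c54e62aa325388aa48a4622e81954a0aa92b9455c92ae⟩,
  ⟨⟨12, [(0, 5), (1, 6), (2, 8), (3, 9), (4, 5), (4, 7), (5, 11), (6, 7), (6, 10), (7, 10), (8, 9), (8, 11), (9, 11), (10, 11)], [(0, 2), (1, 3)]⟩,
    [[9, 2, 8, 2, 10, 5, 11, 4, 5, 7, 4, 6, 10, 7, 1, 6, 3, 1, 9, 3, 8, 11], [3, 9, 3, 2, 8, 0, 2, 5, 0, 10, 11, 6, 7, 10, 6, 4, 7, 5, 4, 9, 8, 11], [9, 8, 10, 0, 5, 0, 11, 4, 5, 7, 4, 6, 10, 7, 1, 6, 3, 1, 9, 3, 8, 11], [9, 2, 8, 0, 2, 5, 0, 10, 11, 1, 6, 1, 7, 10, 6, 4, 7, 5, 4, 9, 8, 11], [7, 6, 10, 7, 1, 6, 3, 1, 9, 3, 2, 8, 0, 2, 5, 0, 11, 5, 9, 8, 10, 11], [4, 7, 4, 6, 10, 7, 1, 6, 3, 1, 9, 3, 0, 2, 0, 8, 2, 11, 9, 8, 10, 11], [1, 3, 1, 9, 3, 2, 8, 0,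 2, 5, 0, 10, 11, 7, 10, 4, 7, 5, 4, 9, 8, 11], [6, 10, 1, 6, 3, 1, 9, 3, 2, 8, 0, 2, 4, 5, 4, 0, 11, 5, 9, 8, 10, 11], [3, 9, 1, 3, 6, 1, 7, 10, 6, 4, 7, 2, 0, 2, 5, 0, 4, 11, 5, 10, 9, 11], [8, 4, 5, 7, 4, 3, 1, 3, 6, 1, 10, 7, 6, 11, 10, 0, 5, 2, 0, 8, 2, 11], [9, 2, 8, 0, 2, 5, 0, 11, 4, 5, 7, 4, 6, 7, 1, 6, 3, 1, 9, 3, 8, 11], [7, 4, 10, 6, 7, 10, 1, 6, 3, 1, 9, 3, 8, 9, 2, 8, 0, 2, 5, 0, 4, 5]],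
    14, 0x40565029304a8c25d0252522148caa8c54e442941551d0a90b9455c82ae⟩,
  ⟨⟨13, [(0, 6), (1, 6), (2, 7), (3, 8), (4, 9), (5, 10), (6, 12), (7, 8), (7, 11), (8, 11), (9, 10), (9, 12), (10, 12), (11, 12)], [(0, 2), (1, 4), (3, 5)]⟩,
    [[2, 7, 2, 8, 11, 7, 3, 8, 5, 3, 10, 5, 4, 9, 1, 4, 6, 1, 12, 6, 10, 9, 11, 12], [10, 4, 9, 4, 11, 6, 12, 0, 6, 2, 0, 7, 2, 8, 11, 7, 3, 8, 5, 3, 10, 5, 9, 12], [7, 8, 11, 7, 3, 8, 5, 3, 10, 5, 4, 9, 1, 4, 0, 6, 0, 1, 12, 6, 10, 9, 11, 12], [5, 10, 5, 4, 9, 1, 4, 6, 1, 11, 12, 8, 7, 11, 8, 2, 7, 0, 2, 6, 0, 10, 9, 12], [10, 9, 11, 1, 6, 1, 12, 0, 6, 2, 0, 7, 2, 8, 11, 7, 3, 8, 5, 3, 10, 5, 9, 12], [10, 4, 9, 1, 4, 6, 1, 11, 12, 3, 8, 3, 7, 11, 8,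 2, 7, 0, 2, 6, 0, 10, 9, 12], [0, 2, 0, 7, 2, 8, 11, 7, 3, 8, 5, 3, 10, 5, 1, 4, 1, 9, 4, 12, 10, 9, 11, 12], [8, 11, 3, 8, 5, 3, 10, 5, 4, 9, 1, 4, 2, 0, 2, 6, 0, 1, 12, 6, 10, 9, 11, 12], [3, 5, 3, 10, 5, 4, 9, 1, 4, 6, 1, 11, 12, 7, 11, 2, 7, 0, 2, 6, 0, 10, 9, 12], [5, 10, 3, 5, 8, 3, 7, 11, 8, 2, 7, 0, 2, 4, 1, 4, 6, 1, 0, 12, 6, 11, 10, 12], [9, 0, 6, 2, 0, 7, 2, 5, 3, 5, 8, 3, 11, 7, 8, 12, 11, 1, 6, 4, 1, 9, 4, 12], [10, 4, 9, 1, 4, 6, 1, 12, 0, 6, 2, 0, 7, 2, 8, 7, 3, 8, 5, 3, 10, 5, 9, 12], [4, 1, 9, 4, 10, 9, 5, 10, 3, 5, 8, 3, 11, 7, 8, 11, 2, 7, 0, 2, 6, 0, 1, 6]],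
    16, 0x30128809cc15a712559cca0e64815eb3a540cc9466d245aa299524cad2c966649332⟩]

theorem okT_dd2_3 : okT dd2_3 = true := by decide +kernel

def dd2_4 : List EntD := [
  ⟨⟨10, [(0, 4), (1, 5), (2, 4), (2, 6), (3, 5), (3, 7), (4, 8), (5, 8), (6, 7), (6, 9), (7, 9), (8, 9)], [(0, 1)]⟩,
    [[6, 2, 7, 9, 6, 3, 7, 1, 5, 1, 3, 8, 5, 9, 4, 8, 2, 4], [0, 6, 2, 7, 9, 6, 3, 7, 5, 3, 8, 5, 9, 4, 8, 2, 0, 4], [3, 5, 7, 3, 6, 9, 7, 6, 8, 9, 1, 5, 0, 1, 4, 0, 8, 4], [1, 0, 5, 1, 8, 5, 2, 4, 6, 2, 7, 9, 6, 7, 8, 9, 0, 4], [0, 1, 0, 7, 3, 2, 6, 2, 9, 7, 6, 8, 9, 5, 8, 3, 1, 5], [1, 0, 1, 6, 2, 3, 7, 3, 9, 6, 7, 8, 9, 4, 8, 2, 0, 4], [2, 3, 5, 7, 3, 9, 7, 8, 9, 1, 5, 0, 1, 4, 0, 8, 2, 4], [1,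 0, 3, 5, 3, 1, 8, 5, 2, 4, 6, 2, 9, 6, 8, 9, 0, 4], [6, 2, 9, 7, 6, 9, 3, 7, 5, 3, 1, 5, 0, 1, 4, 0, 2, 4], [1, 0, 5, 1, 8, 3, 5, 7, 3, 6, 7, 2, 6, 4, 2, 8, 0, 4]],
    12, 0x20128409ca14a5191208a98454e322931549c8a4a8924445222⟩,
  ⟨⟨11, [(0, 5), (1, 6), (2, 5), (3, 7), (4, 6), (4, 8), (5, 9), (6, 9), (7, 8), (7, 10), (8, 10), (9, 10)], [(0, 1), (2, 3)]⟩,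
    [[3, 2, 7, 3, 8, 10, 7, 4, 8, 1, 6, 1, 4, 9, 6, 10, 5, 9, 2, 5], [0, 3, 2, 7, 3, 8, 10, 7, 4, 8, 6, 4, 9, 6, 10, 5, 9, 2, 0, 5], [4, 6, 8, 4, 3, 7, 3, 10, 8, 7, 9, 10, 1, 6, 0, 1, 5, 0, 9, 5], [2, 4, 6, 8, 4, 7, 10, 8, 7, 9, 10, 1, 6, 0, 1, 5, 0, 9, 2, 5], [1, 0, 6, 1, 9, 6, 2, 5, 3, 2, 7, 3, 8, 10, 7, 8, 9, 10, 0, 5], [0, 1, 0, 8, 4, 2, 3, 2, 7, 3, 10, 8, 7, 9, 10, 6, 9, 4, 1, 6], [1, 0, 1, 3, 2, 7, 3, 4, 8, 4, 10, 7, 8, 9, 10, 5, 9, 2, 0, 5], [3, 2, 3, 4, 6, 8, 4, 10, 8, 9, 10, 1, 6, 0, 1, 5, 0, 9, 2, 5], [1, 0, 4, 6, 4, 1, 9, 6, 2, 5, 3, 2, 7, 3, 10, 7, 9, 10, 0, 5], [3, 2, 7, 3, 10, 8, 7, 10, 4, 8, 6, 4, 1, 6, 0, 1, 5, 0, 2, 5], [1, 0, 6, 1, 9, 4, 6, 8, 4, 7, 8, 3, 7, 2,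 3, 5, 2, 9, 0, 5]],
    13, 0x5029081594464c42a60a9188da0855482a719951cca8c99454c62a6⟩,
  ⟨⟨12, [(0, 6), (1, 7), (2, 6), (3, 7), (4, 8), (5, 9), (6, 10), (7, 10), (8, 9), (8, 11), (9, 11), (10, 11)], [(0, 1), (2, 4), (3, 5)]⟩,
    [[4, 2, 8, 4, 9, 11, 8, 5, 9, 3, 5, 1, 7, 1, 3, 10, 7, 11, 6, 10, 2, 6], [0, 4, 2, 8, 4, 9, 11, 8, 5, 9, 3, 5, 7, 3, 10, 7, 11, 6, 10, 2, 0, 6], [3, 7, 5, 3, 9, 5, 4, 8, 4, 11, 9, 8, 10, 11, 1, 7, 0, 1, 6, 0, 10, 6], [1, 0, 7, 1, 10, 7, 2, 6, 4, 2, 8, 4, 5, 9, 5, 11, 8, 9, 10, 11, 0, 6], [2, 3, 7, 5, 3, 9, 5, 8, 11, 9, 8, 10, 11, 1, 7, 0, 1, 6, 0, 10, 2, 6], [1, 0, 3, 7, 3, 1, 10, 7, 2, 6, 4, 2, 8, 4, 9, 11, 8, 9, 10, 11, 0, 6], [0, 1, 0, 5, 3, 9, 5,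 2, 4, 2, 8, 4, 11, 9, 8, 10, 11, 7, 10, 3, 1, 7], [1, 0, 1, 4, 2, 8, 4, 3, 5, 3, 9, 5, 11, 8, 9, 10, 11, 6, 10, 2, 0, 6], [4, 2, 4, 3, 7, 5, 3, 9, 5, 11, 9, 10, 11, 1, 7, 0, 1, 6, 0, 10, 2, 6], [1, 0, 5, 3, 5, 7, 3, 1, 10, 7, 2, 6, 4, 2, 8, 4, 11, 8, 10, 11, 0, 6], [4, 2, 8, 4, 11, 9, 8, 11, 5, 9, 3, 5, 7, 3, 1, 7, 0, 1, 6, 0, 2, 6], [1, 0, 7, 1, 10, 3, 7, 5, 3, 9, 5, 8, 9, 4, 8, 2, 4, 6, 2, 10, 0, 6]],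
    14, 0x205e602d308e9c2b4e332519b208fa4a65043ab41d5a4cacea96654732a⟩,
  ⟨⟨9, [(0, 1), (0, 2), (1, 5), (1, 8), (2, 6), (2, 8), (3, 4), (3, 5), (3, 7), (4, 6), (4, 7), (5, 8), (6, 8), (7, 8)], []⟩,
    [[2, 4, 6, 3, 7, 4, 5, 3, 1, 8, 5, 1, 7, 2, 6, 8], [3, 5, 4, 7, 3, 6, 4, 0, 2, 0, 8, 6, 2, 7, 5, 8], [4, 6, 3, 7, 4, 5, 3, 0, 1, 0, 8, 5, 1, 7, 6, 8], [7, 2, 6, 5, 1, 8, 5, 0, 1, 2, 0, 4, 6, 7, 4, 8], [2, 6, 5, 1, 7, 8, 3, 7, 5, 3, 0, 1, 2, 0, 6, 8], [3, 4, 7, 3, 6, 4, 0, 2, 1, 0, 8, 1, 6, 2, 7, 8], [2, 5, 1, 7, 8, 4, 3, 7, 4, 5, 3, 0, 1, 2, 0, 8], [2, 4, 6, 3, 4, 5, 3, 1, 8, 5, 0, 1, 2, 0, 6, 8], [2, 0, 6, 2, 4, 6, 7, 3, 4, 7, 5, 3, 1, 5, 0, 1]],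
    11, 0x4074403a611d310294264e40a519938cc9cc88e14460a2⟩]

theorem okT_dd2_4 : okT dd2_4 = true := by decide +kernel

def dd2_5 : List EntD := [
  ⟨⟨10, [(0, 3), (1, 4), (2, 5), (2, 6), (3, 7), (3, 8), (4, 7), (4, 9), (5, 7), (5, 8), (6, 8), (6, 9), (7, 9), (8, 9)], [(0, 1)]⟩,
    [[1, 4, 1, 6, 8, 9, 2, 6, 5, 2, 3, 8, 7, 3, 5, 4, 9, 7], [4, 6, 8, 9, 2, 6, 5, 2, 0, 3, 0, 8, 7, 3, 5, 4, 9, 7], [4, 6, 8, 9, 6, 3, 5, 8, 7, 5, 0, 3, 1, 0, 4, 1, 9, 7], [0, 1, 0, 4, 1, 6, 8, 9, 2, 6, 5, 2, 8, 7, 5, 4, 9, 7], [8, 1, 0, 1, 3, 0, 2, 5, 6, 2, 9, 8, 6, 7, 9, 5, 3, 7], [4, 2, 6, 2, 8, 9, 6, 3, 8, 7, 0, 3, 1, 0, 4, 1, 9, 7], [4, 8, 9, 3, 2, 5, 2, 8, 7, 5, 0, 3, 1, 0, 4, 1, 9, 7], [3, 6, 9,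 5, 8, 2, 5, 6, 2, 4, 9, 1, 4, 0, 1, 3, 0, 8], [0, 3, 1, 0, 4, 1, 6, 9, 2, 6, 5, 2, 7, 5, 4, 9, 3, 7], [6, 8, 2, 6, 5, 2, 3, 8, 4, 7, 1, 4, 0, 1, 3, 0, 5, 7]],
    12, 0x180a8405c812a81914906a0a45261a610d288694878a33c419e⟩,
  ⟨⟨11, [(0, 4), (1, 5), (2, 6), (3, 7), (4, 8), (4, 9), (5, 8), (5, 9), (6, 8), (6, 10), (7, 9), (7, 10), (8, 10), (9, 10)], [(0, 2), (1, 3)]⟩,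
    [[2, 6, 2, 7, 9, 10, 3, 7, 1, 3, 5, 1, 4, 9, 8, 4, 5, 6, 10, 8], [6, 3, 7, 3, 9, 10, 7, 4, 5, 9, 8, 5, 0, 4, 2, 0, 6, 2, 10, 8], [6, 7, 9, 10, 3, 7, 1, 3, 5, 1, 0, 4, 0, 9, 8, 4, 5, 6, 10, 8], [6, 7, 9, 10, 7, 4, 1, 5, 1, 9, 8, 5, 0, 4, 2, 0, 6, 2, 10, 8], [0, 2, 0, 6, 2, 7, 9, 10, 3, 7, 1, 3, 5, 1, 9, 8, 5, 6, 10, 8], [6, 1, 3, 1, 7, 3, 9, 10, 7, 4, 9, 8, 0, 4, 2, 0, 6, 2, 10, 8], [9, 2, 0, 2, 4, 0, 1, 5, 3, 1, 7, 3, 10, 9, 7, 8, 10, 5, 4, 8], [6, 9, 10, 4, 3, 1, 3, 5, 1, 9, 8, 5, 0, 4, 2, 0, 6, 2, 10, 8], [4, 7, 10, 5, 9, 1, 5, 3, 1, 7, 3, 6, 10, 2, 6, 0, 2, 4, 0, 9], [0, 4, 2, 0, 6, 2, 7, 10, 3, 7, 1, 3, 5, 1, 8, 5, 6, 10, 4, 8], [7, 9, 3, 7, 1, 3, 5, 1, 4, 9, 6, 8, 2, 6,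 0, 2, 4, 0, 5, 8]],
    13, 0x4015100b9424461266115490c9c6452532a391518898a88c4445222⟩,
  ⟨⟨9, [(0, 3), (1, 5), (2, 4), (2, 7), (3, 6), (3, 8), (4, 6), (4, 8), (5, 7), (5, 8), (6, 7), (7, 8)], [(0, 1)]⟩,
    [[1, 5, 1, 4, 3, 8, 6, 3, 2, 4, 7, 2, 6, 5, 8, 7], [5, 4, 0, 3, 0, 8, 6, 3, 2, 4, 7, 2, 6, 5, 8, 7], [1, 5, 0, 1, 3, 0, 4, 8, 6, 4, 3, 7, 6, 5, 8, 7], [0, 1, 0, 5, 1, 4, 8, 2, 6, 4, 7, 6, 2, 5, 8, 7], [2, 1, 5, 0, 1, 3, 0, 8, 6, 3, 7, 6, 5, 8, 2, 7], [4, 2, 1, 0, 1, 3, 0, 6, 8, 3, 4, 7, 8, 6, 2, 7], [2, 1, 5, 0, 1, 3, 0, 8, 3, 7, 5, 4, 8, 2, 4, 7], [6, 2, 4, 2, 3, 6, 5, 8, 1, 5, 0, 1, 3, 0, 4, 8], [2, 3, 6, 0, 3, 1, 0, 5, 1, 7, 5, 4, 6, 2, 4, 7]],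
    11, 0x404c60225091394698654e21a6215208694888a34441a2⟩,
  ⟨⟨10, [(0, 4), (1, 6), (2, 5), (3, 8), (4, 7), (4, 9), (5, 7), (5, 9), (6, 8), (6, 9), (7, 8), (8, 9)], [(0, 1), (2, 3)]⟩,
    [[1, 6, 1, 5, 4, 9, 7, 4, 2, 5, 3, 2, 8, 3, 7, 6, 9, 8], [6, 5, 0, 4, 0, 9, 7, 4, 2, 5, 3, 2, 8, 3, 7, 6, 9, 8], [3, 1, 6, 0, 1, 4, 0, 5, 9, 7, 5, 4, 8, 7, 6, 9, 3, 8], [1, 6, 0, 1, 4, 0, 2, 5, 2, 9, 7, 5, 4, 8, 7, 6, 9, 8], [0, 1, 0, 6, 1, 5, 9, 7, 2, 5, 3, 2, 8, 3, 7, 6, 9, 8], [2, 3, 2, 1, 6, 0, 1, 4, 0, 9, 7, 4, 8, 7, 6, 9, 3, 8], [2, 3, 5, 2, 1, 0, 1, 4, 0, 7, 9, 4, 5, 8, 9, 7, 3, 8], [3, 1, 6, 0, 1, 4, 0, 9, 4, 8, 6, 5, 9, 2, 5, 3, 2, 8], [7, 3, 2, 3, 5, 2, 4, 7, 6, 9, 1, 6, 0, 1, 4, 0,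 5, 9], [3, 4, 7, 0, 4, 1, 0, 6, 1, 8, 6, 5, 7, 2, 5, 3, 2, 8]],
    12, 0x200a8405d06227219304a9ca6503223113288898a98c44c5226⟩]

theorem okT_dd2_5 : okT dd2_5 = true := by decide +kernel

def dd2_6 : List EntD := [
  ⟨⟨10, [(0, 2), (0, 4), (1, 3), (1, 5), (2, 6), (2, 8), (3, 7), (3, 9), (4, 8), (4, 9), (5, 8), (5, 9), (6, 7), (6, 8), (7, 9)], []⟩,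
    [[9, 4, 1, 5, 3, 1, 7, 9, 3, 6, 7, 2, 8, 6, 2, 5, 4, 8], [9, 5, 4, 3, 7, 9, 3, 6, 7, 2, 8, 6, 0, 2, 4, 0, 5, 8], [7, 6, 3, 9, 7, 1, 3, 5, 1, 0, 4, 0, 9, 8, 4, 5, 6, 8], [9, 1, 5, 1, 4, 7, 9, 6, 7, 2, 8, 6, 0, 2, 4, 0, 5, 8], [9, 1, 5, 3, 1, 7, 9, 3, 6, 7, 0, 2, 0, 8, 6, 2, 5, 8], [9, 4, 1, 3, 1, 7, 9, 3, 6, 7, 2, 8, 6, 0, 2, 4, 0, 8], [5, 0, 4, 2, 0, 8, 2, 9, 4, 1, 5, 3, 1, 7, 9, 3, 7, 8], [3, 9, 1, 3, 5, 1, 4, 9, 6, 2, 8, 6, 0, 2, 4, 0, 5, 8], [0, 4, 2, 0, 6, 2, 7, 6, 1, 3, 5, 1, 9, 5, 7, 3, 4, 9], [4, 6, 2, 5, 8, 1, 5, 3, 1, 7, 3, 6, 7, 0, 2, 4, 0, 8]],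
    12, 0x28488c244802a2015490c9c644c22a9299398898a88c4445222⟩,
  ⟨⟨11, [(0, 3), (1, 5), (2, 4), (2, 6), (3, 7), (3, 9), (4, 8), (4, 10), (5, 9), (5, 10), (6, 9), (6, 10), (7, 8), (7, 9), (8, 10)], [(0, 1)]⟩,
    [[10, 1, 5, 1, 2, 6, 4, 2, 8, 10, 4, 7, 8, 3, 9, 7, 3, 6, 5, 9], [10, 5, 2, 6, 4, 2, 8, 10, 4, 7, 8, 0, 3, 0, 9, 7, 3, 6, 5, 9], [10, 6, 5, 4, 8, 10, 4, 7, 8, 3, 9, 7, 0, 3, 1, 0, 5, 1, 6, 9], [8, 7, 4, 10, 8, 2, 4, 6, 2, 0, 1, 0, 5, 1, 10, 9, 5, 6, 7, 9], [10, 2, 6, 2, 5, 8, 10, 7, 8, 3, 9, 7, 0, 3, 1, 0, 5, 1, 6, 9], [10, 2, 6, 4, 2, 8, 10, 4, 7, 8, 1, 0, 1, 3, 0, 9, 7, 3, 6, 9], [10, 5, 2, 4, 2, 8, 10, 4, 7, 8, 3, 9, 7, 0, 3, 1, 0, 5, 1, 9], [8, 4, 10, 8, 2, 4, 6, 2,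 5, 10, 3, 9, 0, 3, 1, 0, 5, 1, 6, 9], [4, 10, 2, 4, 6, 2, 5, 10, 7, 3, 9, 7, 0, 3, 1, 0, 5, 1, 6, 9], [1, 5, 0, 1, 3, 0, 7, 3, 8, 7, 2, 4, 6, 2, 10, 6, 8, 4, 5, 10], [5, 7, 3, 6, 9, 2, 6, 4, 2, 8, 4, 7, 8, 0, 3, 1, 0, 5, 1, 9]],
    13, 0x101b180c94264e32aa28d5186a0e55042a4115308a98a98c34c51a6⟩,
  ⟨⟨12, [(0, 4), (1, 5), (2, 6), (3, 7), (4, 8), (4, 10), (5, 9), (5, 11), (6, 10), (6, 11), (7, 10), (7, 11), (8, 9), (8, 10), (9, 11)], [(0, 2), (1, 3)]⟩,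
    [[11, 2, 6, 2, 3, 7, 1, 3, 5, 1, 9, 11, 5, 8, 9, 4, 10, 8, 4, 7, 6, 10], [11, 3, 7, 3, 6, 5, 9, 11, 5, 8, 9, 4, 10, 8, 0, 4, 2, 0, 6, 2, 7, 10], [11, 6, 3, 7, 1, 3, 5, 1, 9, 11, 5, 8, 9, 0, 4, 0, 10, 8, 4, 7, 6, 10], [11, 7, 6, 1, 5, 1, 9, 11, 5, 8, 9, 4, 10, 8, 0, 4, 2, 0, 6, 2, 7, 10], [9, 8, 5, 11, 9, 1, 5, 3, 1, 7, 3, 0, 2, 0, 6, 2, 11, 10, 6, 7, 8, 10], [11, 1, 3, 1, 7, 3, 6, 9, 11, 8, 9, 4, 10, 8, 0, 4, 2, 0, 6, 2, 7, 10], [11, 3, 7, 1, 3, 5, 1, 9, 11, 5, 8, 9, 2, 0, 2, 4, 0, 10, 8, 4, 7, 10], [11, 6, 3, 1, 3, 5, 1, 9, 11, 5, 8, 9, 4, 10, 8, 0, 4, 2, 0, 6, 2, 10], [9, 5, 11, 9, 1, 5, 3, 1, 7, 3, 6, 11, 4, 10, 0, 4, 2, 0, 6, 2, 7, 10], [5, 11, 1, 5, 3, 1, 7, 3, 6, 11,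 8, 4, 10, 8, 0, 4, 2, 0, 6, 2, 7, 10], [2, 6, 0, 2, 4, 0, 8, 4, 9, 8, 1, 5, 3, 1, 7, 3, 11, 7, 9, 5, 6, 11], [6, 8, 4, 7, 10, 3, 7, 1, 3, 5, 1, 9, 5, 8, 9, 0, 4, 2, 0, 6, 2, 10]],
    14, 0x403e401d410e984752832b32159d0a4a64a132309b38cca0ea90654732a⟩,
  ⟨⟨9, [(0, 2), (0, 3), (1, 4), (1, 5), (2, 6), (2, 7), (3, 6), (3, 8), (4, 6), (4, 8), (5, 7), (5, 8), (7, 8)], []⟩,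
    [[5, 2, 7, 6, 2, 4, 3, 6, 8, 3, 1, 4, 5, 1, 7, 8], [6, 4, 0, 3, 2, 0, 6, 7, 2, 5, 8, 7, 5, 3, 4, 8], [5, 7, 6, 4, 0, 3, 0, 6, 8, 3, 1, 4, 5, 1, 7, 8], [7, 1, 5, 4, 1, 8, 6, 4, 0, 2, 0, 6, 7, 2, 5, 8], [7, 1, 5, 1, 3, 8, 0, 6, 3, 2, 6, 0, 7, 2, 5, 8], [6, 1, 4, 1, 0, 3, 2, 0, 6, 7, 2, 8, 7, 3, 4, 8], [4, 7, 5, 3, 8, 0, 3, 2, 0, 7, 2, 1, 5, 4, 1, 8], [5, 6, 4, 0, 3, 2, 0, 6, 2, 8, 3, 1, 4, 5, 1, 8], [3, 0, 6, 3, 7, 2, 5, 7, 1, 5, 4, 1, 6, 4, 0, 2]],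
    11, 0xc044a11a408d100898674e51a7111310e9c888e34441a2⟩]

theorem okT_dd2_6 : okT dd2_6 = true := by decide +kernel

def dd2_7 : List EntD := [
  ⟨⟨10, [(0, 4), (1, 5), (2, 3), (2, 6), (3, 7), (3, 8), (4, 7), (4, 9), (5, 8), (5, 9), (6, 7), (6, 9), (8, 9)], [(0, 1)]⟩,
    [[8, 1, 5, 1, 6, 4, 9, 7, 4, 2, 6, 3, 2, 7, 8, 3, 5, 9], [8, 5, 6, 0, 4, 0, 9, 7, 4, 2, 6, 3, 2, 7, 8, 3, 5, 9], [8, 1, 5, 0, 1, 4, 0, 6, 9, 7, 6, 4, 3, 7, 8, 3, 5, 9], [8, 1, 5, 0, 1, 4, 0, 2, 6, 2, 9, 7, 6, 4, 7, 8, 5, 9], [2, 7, 6, 3, 7, 2, 8, 3, 0, 1, 0, 5, 1, 9, 8, 5, 6, 9], [3, 8, 7, 2, 3, 6, 2, 1, 0, 1, 4, 0, 7, 9, 4, 6, 8, 9], [8, 1, 5, 0, 1, 4, 0, 9, 7, 4, 2, 3, 2, 7, 8, 3, 5, 9], [2, 6, 3, 2, 8, 3,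 1, 5, 0, 1, 4, 0, 9, 4, 8, 5, 6, 9], [5, 7, 4, 2, 6, 3, 2, 7, 3, 9, 6, 0, 4, 1, 0, 5, 1, 9], [2, 4, 7, 0, 4, 1, 0, 5, 1, 8, 5, 3, 8, 6, 7, 2, 6, 3]],
    12, 0x80d90064a1327221414ca0644e64231113088a0c99044c6226⟩,
  ⟨⟨10, [(0, 3), (1, 4), (2, 5), (2, 6), (3, 7), (3, 8), (4, 7), (4, 9), (5, 7), (5, 9), (6, 8), (6, 9), (8, 9)], [(0, 1)]⟩,
    [[6, 3, 8, 7, 3, 5, 1, 4, 1, 7, 9, 4, 2, 5, 6, 2, 8, 9], [6, 0, 3, 0, 8, 7, 3, 5, 4, 7, 9, 4, 2, 5, 6, 2, 8, 9], [7, 5, 1, 4, 0, 1, 3, 0, 7, 8, 3, 6, 9, 8, 6, 4, 5, 9], [6, 8, 7, 5, 0, 1, 0, 4, 1, 7, 9, 4, 2, 5, 6, 2, 8, 9], [8, 2, 6, 5, 2, 9, 7, 5, 1, 0, 1, 3, 0, 7, 8, 3, 6, 9], [8, 2, 6, 2, 4, 9, 7, 1, 4, 0, 1, 3, 0, 7, 8, 3, 6, 9], [7, 2,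 5, 2, 1, 4, 0, 1, 3, 0, 7, 8, 3, 9, 8, 4, 5, 9], [5, 8, 6, 4, 9, 1, 4, 0, 1, 3, 0, 8, 3, 2, 6, 5, 2, 9], [6, 7, 5, 1, 4, 0, 1, 3, 0, 7, 3, 9, 4, 2, 5, 6, 2, 9], [8, 4, 7, 1, 4, 0, 1, 3, 0, 5, 7, 2, 5, 6, 2, 8, 6, 3]],
    12, 0x180a8405d0322920d204aa0c45251a6111288894878a33c419e⟩,
  ⟨⟨11, [(0, 4), (1, 5), (2, 6), (3, 7), (4, 8), (4, 9), (5, 8), (5, 10), (6, 8), (6, 10), (7, 9), (7, 10), (9, 10)], [(0, 1), (2, 3)]⟩,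
    [[7, 4, 9, 8, 4, 6, 1, 5, 1, 8, 10, 5, 2, 6, 3, 2, 7, 3, 9, 10], [7, 0, 4, 0, 9, 8, 4, 6, 5, 8, 10, 5, 2, 6, 3, 2, 7, 3, 9, 10], [8, 6, 1, 5, 0, 1, 4, 0, 8, 9, 4, 3, 7, 3, 10, 9, 7, 5, 6, 10], [8, 2, 6, 2, 1, 5, 0, 1, 4, 0, 8, 9, 4, 7, 10, 9, 7, 5, 6, 10], [7, 9, 8, 6, 0, 1, 0, 5, 1, 8, 10, 5, 2, 6, 3, 2, 7, 3, 9, 10], [9, 3, 7, 2, 3, 6, 2, 10, 8, 6, 1, 0, 1, 4, 0, 8, 9, 4, 7, 10], [9, 2, 3, 2, 7, 3, 5, 10, 8, 1, 5, 0, 1, 4, 0, 8, 9, 4, 7, 10], [8, 3, 2, 3, 6, 2, 1, 5, 0, 1, 4, 0, 8, 9, 4, 10, 9, 5, 6, 10], [6, 9, 7, 5, 10, 1, 5, 0, 1, 4, 0, 9, 4, 3, 7, 2, 3, 6, 2, 10], [7, 8, 6, 1, 5, 0, 1, 4, 0, 8, 4, 10, 5, 2, 6, 3, 2, 7, 3, 10], [9, 5, 8, 1, 5, 0, 1, 4, 0, 6, 8, 2, 6, 3,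 2, 7, 3, 9, 7, 4]],
    13, 0x101b200c94265242aa29149caa8c44e32a3117308a98a88c4445222⟩]

theorem okT_dd2_7 : okT dd2_7 = true := by decide +kernel

def dd2 : List EntD := dd2_0 ++ (dd2_1 ++ (dd2_2 ++ (dd2_3 ++ (dd2_4 ++ (dd2_5 ++ (dd2_6 ++ (dd2_7)))))))

theorem okT_dd2 : okT dd2 = true :=
  okT_append _ _ okT_dd2_0 (
  okT_append _ _ okT_dd2_1 (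
  okT_append _ _ okT_dd2_2 (
  okT_append _ _ okT_dd2_3 (
  okT_append _ _ okT_dd2_4 (
  okT_append _ _ okT_dd2_5 (
  okT_append _ _ okT_dd2_6 (
  okT_dd2_7)))))))

end Pool.Agent.Helper24.FF
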