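import Pool.Agent.Helper24.FF.TApp

set_option autoImplicit false
set_option maxRecDepth 100000

namespace Pool.Agent.Helper24.FF

open Pool.Agent.Helper64.FL

def dd3_0 : List EntD := [
  ⟨⟨9, [(0, 2), (1, 3), (2, 4), (2, 8), (3, 6), (3, 8), (4, 5), (4, 7), (5, 6), (5, 7), (6, 8), (7, 8)], [(0, 1)]⟩,
    [[6, 1, 3, 1, 7, 2, 8, 4, 2, 5, 7, 4, 6, 5, 3, 8], [6, 3, 7, 0, 2, 0, 8, 4, 2, 5, 7, 4, 6, 5, 3, 8], [4, 5, 7, 4, 6, 5, 0, 1, 0, 3, 1, 8, 6, 3, 7, 8], [5, 6, 4, 7, 5, 1, 0, 1, 2, 0, 4, 8, 2, 7, 6, 8], [5, 7, 6, 5, 1, 3, 0, 1, 2, 0, 8, 2, 6, 3, 7, 8], [6, 1, 3, 0, 1, 2, 0, 7, 8, 4, 7, 2, 4, 6, 3, 8], [3, 4, 2, 5, 7, 4, 5, 8, 7, 0, 2, 1, 0, 3, 1, 8], [6, 1, 3, 0, 1, 2, 0, 8, 4, 2,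 5, 4, 6, 5, 3, 8], [7, 5, 4, 7, 6, 5, 3, 6, 1, 3, 0, 1, 2, 0, 4, 2]],
    11, 0x407c403a410d184e98624c512720d39449c688e2443122⟩,
  ⟨⟨11, [(0, 3), (0, 4), (1, 5), (1, 7), (2, 6), (2, 8), (3, 5), (3, 9), (4, 6), (4, 10), (5, 9), (6, 10), (7, 9), (7, 10), (8, 9), (8, 10)], []⟩,
    [[8, 1, 7, 5, 1, 3, 9, 5, 3, 10, 7, 2, 8, 6, 2, 4, 10, 6, 4, 9], [7, 8, 5, 3, 9, 5, 0, 3, 4, 0, 6, 10, 4, 2, 6, 8, 2, 7, 10, 9], [8, 1, 7, 5, 1, 3, 9, 5, 0, 3, 4, 0, 6, 10, 4, 6, 7, 8, 10, 9], [8, 1, 7, 5, 1, 9, 5, 10, 7, 2, 8, 6, 2, 0, 4, 0, 10, 6, 4, 9], [8, 1, 7, 5, 1, 0, 3, 0, 9, 5, 3, 10, 7, 2, 8, 6, 2, 10, 6, 9], [10, 1, 7, 1, 2, 8, 6, 2, 4, 10, 6, 0, 4, 3, 0, 9, 3, 8, 7, 9], [2, 8, 2, 1, 7, 5, 1,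 3, 9, 5, 0, 3, 4, 0, 10, 4, 7, 8, 10, 9], [8, 1, 5, 1, 3, 9, 5, 0, 3, 4, 0, 6, 10, 4, 2, 6, 8, 2, 10, 9], [1, 7, 5, 1, 3, 9, 5, 0, 3, 4, 0, 2, 6, 2, 10, 4, 6, 7, 10, 9], [7, 6, 4, 8, 10, 2, 8, 6, 2, 0, 4, 3, 0, 5, 3, 1, 5, 7, 1, 10], [1, 7, 5, 1, 0, 3, 4, 0, 6, 4, 2, 6, 8, 2, 9, 8, 5, 3, 7, 9]],
    13, 0x401d180ea8e34a342621d520694284c23a70a1408ea0e99034c71a6⟩,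
  ⟨⟨12, [(0, 4), (1, 8), (2, 5), (2, 6), (3, 7), (3, 9), (4, 5), (4, 10), (5, 10), (6, 7), (6, 11), (7, 11), (8, 10), (8, 11), (9, 10), (9, 11)], [(0, 1)]⟩,
    [[11, 1, 8, 1, 3, 9, 7, 3, 6, 11, 7, 2, 6, 5, 2, 4, 10, 5, 4, 9, 8, 10], [11, 8, 3, 9, 7, 3, 6, 11, 7, 2, 6, 5, 2, 0, 4, 0, 10, 5, 4, 9, 8, 10], [6, 7, 11, 6, 3, 7, 9, 3, 8, 11, 5, 4, 10, 5, 0, 4, 1, 0, 8, 1, 9, 10], [11, 9, 8, 7, 6, 11, 7, 2, 6, 5, 2, 4, 10, 5, 0, 4, 1, 0, 8, 1, 9, 10], [11, 0, 1, 0, 8, 1, 3, 9, 7, 3, 6, 11, 7, 2, 6, 5, 2, 10, 5, 9, 8, 10], [2, 6, 2, 7, 11, 6, 3, 7, 9, 3, 8, 11, 4, 10, 0, 4, 1, 0, 8, 1, 9, 10], [7, 11, 3, 7, 9, 3, 8, 11, 2, 5, 2, 4, 10, 5, 0, 4, 1, 0, 8, 1, 9, 10], [11, 3, 9, 3, 8, 6, 11,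 2, 6, 5, 2, 4, 10, 5, 0, 4, 1, 0, 8, 1, 9, 10], [11, 3, 9, 7, 3, 6, 11, 7, 2, 6, 5, 2, 1, 0, 1, 4, 0, 10, 5, 4, 9, 10], [11, 8, 3, 7, 3, 6, 11, 7, 2, 6, 5, 2, 4, 10, 5, 0, 4, 1, 0, 8, 1, 10], [8, 7, 6, 9, 11, 3, 9, 7, 3, 2, 6, 5, 2, 4, 5, 0, 4, 1, 0, 8, 1, 11], [8, 5, 4, 9, 10, 3, 9, 7, 3, 6, 7, 2, 6, 5, 2, 0, 4, 1, 0, 8, 1, 10]],
    14, 0x204e40255a0894885014a51215a4898484e64271a148d0a50a92454822a⟩,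
  ⟨⟨13, [(0, 5), (1, 6), (2, 9), (3, 10), (4, 7), (4, 8), (5, 7), (5, 11), (6, 8), (6, 12), (7, 11), (8, 12), (9, 11), (9, 12), (10, 11), (10, 12)], [(0, 2), (1, 3)]⟩,
    [[12, 2, 9, 2, 3, 10, 1, 3, 6, 1, 8, 12, 6, 4, 8, 7, 4, 5, 11, 7, 5, 10, 9, 11], [12, 3, 10, 3, 9, 6, 8, 12, 6, 4, 8, 7, 4, 5, 11, 7, 0, 5, 2, 0, 9, 2, 10, 11], [12, 9, 3, 10, 1, 3, 6, 1, 8, 12, 6, 4, 8, 7, 4, 0, 5, 0, 11, 7, 5, 10, 9, 11], [12, 10, 9, 1, 6, 1, 8, 12, 6, 4, 8, 7, 4, 5, 11, 7, 0, 5, 2, 0, 9, 2, 10, 11], [8, 6, 12, 8, 1, 6, 3, 1, 10, 3, 9, 12, 7, 5, 11, 7, 0, 5, 2, 0, 9, 2, 10, 11], [12, 0, 2, 0, 9, 2, 3, 10, 1, 3, 6, 1, 8, 12, 6, 4, 8, 7, 4, 11, 7, 10, 9, 11], [12, 1, 3, 1, 10, 3, 9, 8, 12, 4,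 8, 7, 4, 5, 11, 7, 0, 5, 2, 0, 9, 2, 10, 11], [4, 8, 4, 6, 12, 8, 1, 6, 3, 1, 10, 3, 9, 12, 5, 11, 0, 5, 2, 0, 9, 2, 10, 11], [6, 12, 1, 6, 3, 1, 10, 3, 9, 12, 4, 7, 4, 5, 11, 7, 0, 5, 2, 0, 9, 2, 10, 11], [12, 3, 10, 1, 3, 6, 1, 8, 12, 6, 4, 8, 7, 4, 2, 0, 2, 5, 0, 11, 7, 5, 10, 11], [12, 9, 3, 1, 3, 6, 1, 8, 12, 6, 4, 8, 7, 4, 5, 11, 7, 0, 5, 2, 0, 9, 2, 11], [2, 9, 0, 2, 5, 0, 7, 5, 4, 7, 8, 4, 1, 6, 3, 1, 10, 3, 12, 10, 8, 6, 9, 12], [9, 7, 5, 10, 11, 3, 10, 1, 3, 6, 1, 8, 6, 4, 8, 7, 4, 0, 5, 2, 0, 9, 2, 11]],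
    15, 0x140a4405672a948949c895893ac51d4112a0c94c14a30a750d2a92b9475c93ae⟩]

theorem okT_dd3_0 : okT dd3_0 = true := by decide +kernel

def dd3_1 : List EntD := [
  ⟨⟨9, [(0, 2), (0, 3), (1, 4), (1, 5), (2, 6), (2, 7), (3, 4), (3, 8), (4, 8), (5, 6), (5, 8), (6, 7), (7, 8)], []⟩,
    [[7, 1, 5, 4, 1, 3, 8, 4, 3, 6, 5, 2, 7, 6, 2, 8], [5, 7, 4, 3, 8, 4, 0, 3, 2, 0, 6, 7, 2, 5, 6, 8], [7, 1, 5, 4, 1, 0, 3, 0, 8, 4, 3, 6, 5, 7, 6, 8], [7, 1, 5, 4, 1, 8, 4, 6, 5, 0, 2, 0, 7, 6, 2, 8], [6, 1, 5, 1, 2, 7, 6, 0, 2, 3, 0, 8, 3, 7, 5, 8], [7, 1, 4, 1, 3, 8, 4, 0, 3, 2, 0, 6, 7, 2, 6, 8], [1, 5, 4, 1, 0, 3, 2, 0, 7, 2, 8, 7, 4, 3, 5, 8], [1, 5, 4, 1, 3, 8, 4, 0, 3, 2, 0, 6, 2, 5, 6, 8],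 [7, 5, 6, 1, 5, 4, 1, 3, 4, 0, 3, 2, 0, 7, 6, 2]],
    12, 0x100a8c054e22a4195388898444813a6291284e9ca88e4445222⟩,
  ⟨⟨10, [(0, 3), (0, 4), (1, 3), (1, 6), (2, 5), (2, 7), (3, 8), (4, 5), (4, 9), (5, 9), (6, 8), (6, 9), (7, 8), (7, 9)], []⟩,
    [[6, 2, 7, 5, 2, 4, 9, 5, 4, 8, 7, 1, 6, 3, 1, 8, 3, 9], [6, 2, 7, 5, 2, 4, 9, 5, 0, 4, 3, 0, 8, 3, 7, 6, 8, 9], [7, 6, 5, 4, 9, 5, 0, 4, 3, 0, 8, 1, 3, 6, 1, 7, 8, 9], [1, 6, 1, 2, 7, 5, 2, 0, 4, 0, 9, 5, 4, 8, 7, 6, 8, 9], [0, 3, 0, 8, 1, 3, 6, 1, 7, 8, 5, 9, 2, 5, 7, 2, 6, 9], [8, 2, 7, 2, 1, 6, 3, 1, 8, 0, 3, 4, 0, 9, 4, 6, 7, 9], [2, 7, 5, 2, 4, 9, 5, 0, 4, 1, 3, 1, 0, 8, 3, 7, 8, 9], [6, 2, 5, 2, 4, 9, 5, 0, 4, 3, 0, 1, 8, 3, 6, 8,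 1, 9], [6, 5, 4, 7, 9, 2, 7, 5, 2, 0, 4, 3, 0, 1, 3, 6, 1, 9], [6, 1, 8, 6, 0, 3, 4, 0, 5, 4, 2, 5, 7, 2, 8, 7, 1, 3]],
    14, 0xe21a510d200c8c065251a309d290c98275261a5119388c9cc88e34461a2⟩,
  ⟨⟨11, [(0, 4), (1, 5), (2, 4), (2, 6), (3, 7), (3, 8), (4, 9), (5, 9), (5, 10), (6, 7), (6, 10), (7, 10), (8, 9), (8, 10)], [(0, 1)]⟩,
    [[7, 2, 6, 4, 2, 9, 4, 8, 1, 5, 1, 9, 10, 5, 3, 8, 7, 3, 6, 10], [7, 2, 6, 0, 4, 0, 2, 9, 4, 8, 5, 9, 10, 5, 3, 8, 7, 3, 6, 10], [7, 6, 9, 8, 1, 5, 0, 1, 4, 0, 9, 4, 10, 5, 3, 8, 7, 3, 6, 10], [7, 2, 6, 4, 2, 9, 0, 4, 1, 0, 5, 1, 8, 9, 10, 8, 5, 7, 6, 10], [7, 2, 6, 2, 9, 8, 0, 1, 0, 5, 1, 9, 10, 5, 3, 8, 7, 3, 6, 10], [3, 8, 7, 3, 6, 10, 7, 2, 6, 1, 0,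 1, 4, 0, 2, 9, 4, 8, 9, 10], [7, 9, 8, 1, 5, 0, 1, 2, 4, 2, 0, 9, 4, 10, 5, 3, 8, 7, 3, 10], [2, 6, 4, 2, 9, 0, 4, 1, 0, 5, 1, 3, 8, 3, 9, 10, 8, 5, 6, 10], [3, 7, 3, 2, 6, 4, 2, 9, 0, 4, 1, 0, 5, 1, 9, 10, 5, 7, 6, 10], [3, 8, 7, 3, 2, 6, 4, 2, 0, 4, 1, 0, 5, 1, 10, 5, 7, 6, 8, 10], [1, 0, 5, 1, 9, 5, 2, 4, 6, 2, 7, 6, 3, 7, 8, 3, 9, 8, 0, 4]],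
    13, 0x1023201090455452250a1520898454e62a719540caa0a99044c5226⟩,
  ⟨⟨10, [(0, 4), (1, 5), (2, 3), (2, 6), (3, 7), (3, 8), (4, 6), (4, 9), (5, 7), (5, 9), (6, 9), (7, 8), (8, 9)], [(0, 1)]⟩,
    [[7, 1, 5, 1, 3, 8, 7, 2, 3, 6, 2, 4, 9, 6, 4, 8, 5, 9], [7, 5, 3, 8, 7, 2, 3, 6, 2, 0, 4, 0, 9, 6, 4, 8, 5, 9], [3, 7, 8, 3, 5, 7, 6, 4, 9, 6, 0, 4, 1, 0, 5, 1, 8, 9], [7, 8, 5, 7, 2, 6, 2, 4, 9, 6, 0, 4, 1, 0, 5, 1, 8, 9], [2, 6, 3, 2, 7, 8, 3, 0, 1, 0, 5, 1, 7, 9, 5, 8, 6, 9], [7, 3, 8, 7, 2, 3, 6, 2, 1, 0, 1, 4, 0, 9, 6, 4, 8, 9], [2, 3, 2, 7, 8, 3, 5, 7, 4, 9, 0, 4, 1, 0, 5, 1, 8, 9], [5, 6, 4, 8, 9, 3, 8, 2, 3, 6, 2, 0, 4, 1, 0, 5, 1, 9], [7, 5, 3, 7, 2, 3, 6, 2, 4, 9, 6, 0, 4, 1,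 0, 5, 1, 9], [8, 5, 7, 1, 5, 0, 1, 4, 0, 6, 4, 2, 6, 3, 2, 8, 7, 3]],
    12, 0x20108408cc44250a1394c98454622a839940caa0c99054c62a6⟩]

theorem okT_dd3_1 : okT dd3_1 = true := by decide +kernel

def dd3_2 : List EntD := [
  ⟨⟨11, [(0, 5), (1, 6), (2, 4), (2, 7), (3, 4), (3, 8), (4, 9), (5, 7), (5, 10), (6, 9), (6, 10), (7, 10), (8, 9), (8, 10)], [(0, 1)]⟩,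
    [[9, 1, 6, 1, 3, 8, 4, 3, 9, 2, 4, 7, 2, 5, 10, 7, 5, 8, 6, 10], [9, 6, 3, 8, 4, 3, 9, 2, 4, 7, 2, 0, 5, 0, 10, 7, 5, 8, 6, 10], [4, 9, 3, 4, 8, 3, 6, 9, 7, 5, 10, 7, 0, 5, 1, 0, 6, 1, 8, 10], [9, 8, 6, 4, 9, 2, 4, 7, 2, 5, 10, 7, 0, 5, 1, 0, 6, 1, 8, 10], [9, 3, 8, 3, 6, 9, 2, 7, 2, 5, 10, 7, 0, 5, 1, 0, 6, 1, 8, 10], [2, 7, 4, 2, 9, 3, 4, 8, 3, 0, 1, 0, 6, 1, 9, 10, 6, 8, 7, 10], [3, 9, 8, 4, 9, 3, 2, 4, 7, 2, 1, 0, 1, 5, 0, 10, 7, 5, 8, 10], [2, 4, 2, 9, 3, 4, 8, 3, 6, 9, 5, 10, 0, 5, 1, 0, 6, 1, 8, 10], [9, 6, 3, 4, 3, 9, 2, 4, 7, 2, 5, 10, 7, 0, 5, 1, 0, 6, 1, 10], [6, 7, 5, 8, 10, 3, 8, 4, 3, 2, 4, 7, 2, 0, 5, 1, 0, 6, 1, 10], [3, 6, 9, 1, 6, 0, 1, 5, 0, 7, 5, 2, 7, 4,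 2, 8, 9, 3, 8, 4]],
    13, 0x5021081198284e5427119498ea50748232419940cca0ea90654732a⟩,
  ⟨⟨12, [(0, 5), (1, 7), (2, 6), (3, 8), (4, 5), (4, 9), (5, 10), (6, 9), (6, 11), (7, 10), (7, 11), (8, 10), (8, 11), (9, 11)], [(0, 1), (2, 3)]⟩,
    [[10, 1, 7, 1, 8, 5, 10, 4, 5, 9, 4, 6, 11, 9, 2, 6, 3, 2, 8, 3, 7, 11], [10, 7, 8, 0, 5, 0, 10, 4, 5, 9, 4, 6, 11, 9, 2, 6, 3, 2, 8, 3, 7, 11], [10, 3, 8, 3, 1, 7, 0, 1, 5, 0, 10, 4, 5, 9, 4, 6, 11, 9, 6, 7, 8, 11], [10, 8, 1, 7, 0, 1, 5, 0, 10, 4, 5, 9, 4, 2, 6, 2, 11, 9, 6, 7, 8, 11], [5, 10, 0, 5, 1, 0, 7, 1, 8, 10, 9, 6, 11, 9, 2, 6, 3, 2, 8, 3, 7, 11], [10, 0, 1, 0, 7, 1, 8, 10, 4, 9, 4, 6, 11, 9, 2, 6, 3, 2, 8, 3, 7, 11], [10, 2, 3, 2,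 8, 3, 1, 7, 0, 1, 5, 0, 10, 4, 5, 9, 4, 11, 9, 7, 8, 11], [10, 8, 1, 0, 1, 5, 0, 10, 4, 5, 9, 4, 6, 11, 9, 2, 6, 3, 2, 8, 3, 11], [10, 1, 7, 0, 1, 5, 0, 10, 4, 5, 9, 4, 3, 2, 3, 6, 2, 11, 9, 6, 7, 11], [4, 5, 4, 10, 0, 5, 1, 0, 7, 1, 8, 10, 6, 11, 2, 6, 3, 2, 8, 3, 7, 11], [1, 7, 0, 1, 5, 0, 4, 5, 9, 4, 2, 6, 3, 2, 8, 3, 11, 8, 9, 6, 7, 11], [1, 0, 7, 1, 10, 7, 4, 5, 9, 4, 6, 9, 2, 6, 3, 2, 8, 3, 10, 8, 0, 5]],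
    14, 0xa0421023290e9c285672a921d5a0aa4c74c23a311f40cea0ea9055472aa⟩,
  ⟨⟨13, [(0, 5), (1, 7), (2, 6), (3, 9), (4, 8), (4, 10), (5, 6), (5, 11), (6, 11), (7, 8), (7, 12), (8, 12), (9, 11), (9, 12), (10, 11), (10, 12)], [(0, 1), (2, 3)]⟩,
    [[10, 3, 9, 2, 3, 6, 2, 5, 11, 6, 5, 12, 9, 4, 10, 8, 4, 1, 7, 1, 12, 8, 7, 11], [10, 3, 9, 2, 3, 6, 2, 0, 5, 0, 11, 6, 5, 12, 9, 4, 10, 8, 4, 7, 12, 8, 7, 11], [3, 9, 3, 10, 6, 5, 11, 6, 0, 5, 1, 0, 7, 1, 8, 12, 7, 4, 8, 10, 4, 9, 12, 11], [9, 10, 2, 6, 2, 5, 11, 6, 0, 5, 1, 0, 7, 1, 8, 12, 7, 4, 8, 10, 4, 9, 12, 11], [10, 3, 9, 2, 3, 6, 2, 5, 11, 6, 0, 5, 1, 0, 7, 1, 8, 12, 7, 8, 9, 10, 12, 11], [0, 1, 0, 7, 1, 8, 12, 7, 4, 8, 10, 4, 9,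 12, 6, 11, 2, 6, 3, 2, 9, 3, 10, 11], [12, 2, 3, 2, 9, 3, 4, 10, 8, 4, 7, 12, 8, 1, 7, 0, 1, 5, 0, 11, 5, 10, 9, 11], [10, 3, 9, 2, 3, 6, 2, 1, 0, 1, 5, 0, 11, 6, 5, 12, 9, 4, 10, 8, 4, 12, 8, 11], [4, 10, 4, 3, 9, 2, 3, 6, 2, 5, 11, 6, 0, 5, 1, 0, 7, 1, 12, 7, 9, 10, 12, 11], [10, 3, 2, 3, 6, 2, 5, 11, 6, 0, 5, 1, 0, 7, 1, 8, 12, 7, 4, 8, 10, 4, 12, 11], [3, 9, 2, 3, 6, 2, 5, 11, 6, 0, 5, 1, 0, 7, 1, 4, 8, 4, 12, 7, 8, 9, 12, 11], [9, 8, 7, 10, 12, 4, 10, 8, 4, 1, 7, 0, 1, 5, 0, 6, 5, 2, 6, 3, 2, 9, 3, 12], [3, 9, 2, 3, 6, 2, 0, 5, 1, 0, 7, 1, 8, 7, 4, 8, 10, 4, 11, 10, 6, 5, 9, 11]],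
    15, 0x409ca04a62a93852a0e94c252c515624a8c4ad044a91a95112a92b9455c92ae⟩,
  ⟨⟨14, [(0, 6), (1, 7), (2, 8), (3, 9), (4, 10), (5, 11), (6, 8), (6, 12), (7, 9), (7, 13), (8, 12), (9, 13), (10, 12), (10, 13), (11, 12), (11, 13)], [(0, 1), (2, 4), (3, 5)]⟩,
    [[11, 4, 10, 2, 4, 8, 2, 6, 12, 8, 6, 13, 10, 5, 11, 3, 5, 9, 3, 1, 7, 1, 13, 9, 7, 12], [11, 4, 10, 2, 4, 8, 2, 0, 6, 0, 12, 8, 6, 13, 10, 5, 11, 3, 5, 9, 3, 7, 13, 9, 7, 12], [4, 10, 4, 11, 8, 6, 12, 8, 0, 6, 1, 0, 7, 1, 9, 13, 7, 3, 9, 5, 3, 11, 5, 10, 13, 12], [5, 11, 5, 4, 10, 2, 4, 8, 2, 6, 12, 8, 0, 6, 1, 0, 7, 1, 9, 13, 7, 9, 10, 11, 13, 12], [10, 11, 2, 8, 2, 6, 12, 8, 0, 6, 1, 0, 7, 1, 9, 13, 7, 3, 9, 5, 3, 11, 5,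 10, 13, 12], [11, 4, 10, 2, 4, 8, 2, 6, 12, 8, 0, 6, 1, 0, 7, 1, 3, 9, 3, 13, 7, 9, 10, 11, 13, 12], [0, 1, 0, 7, 1, 9, 13, 7, 3, 9, 5, 3, 11, 5, 10, 13, 8, 12, 2, 8, 4, 2, 10, 4, 11, 12], [11, 4, 10, 2, 4, 8, 2, 1, 0, 1, 6, 0, 12, 8, 6, 13, 10, 5, 11, 3, 5, 9, 3, 13, 9, 12], [13, 2, 4, 2, 10, 4, 5, 11, 3, 5, 9, 3, 7, 13, 9, 1, 7, 0, 1, 6, 0, 12, 6, 11, 10, 12], [3, 5, 3, 11, 5, 4, 10, 2, 4, 8, 2, 6, 12, 8, 0, 6, 1, 0, 7, 1, 13, 7, 10, 11, 13, 12], [11, 4, 2, 4, 8, 2, 6, 12, 8, 0, 6, 1, 0, 7, 1, 9, 13, 7, 3, 9, 5, 3, 11, 5, 13, 12], [4, 10, 2, 4, 8, 2, 6, 12, 8, 0, 6, 1, 0, 7, 1, 5, 3, 5, 9, 3, 13, 7, 9, 10, 13, 12], [10, 9, 7, 11, 13, 5, 11, 3, 5, 9, 3, 1, 7, 0, 1, 6, 0, 8, 6,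 2, 8, 4, 2, 10, 4, 13], [4, 10, 2, 4, 8, 2, 0, 6, 1, 0, 7, 1, 9, 7, 3, 9, 5, 3, 11, 5, 12, 11, 8, 6, 10, 12]],
    16, 0x3014840ad065a70a949d4b5465ab32812d48d4904bd445a51ab5954ad4c96664a332⟩]

theorem okT_dd3_2 : okT dd3_2 = true := by decide +kernel

def dd3_3 : List EntD := [
  ⟨⟨11, [(0, 4), (1, 5), (2, 6), (3, 7), (4, 8), (4, 9), (5, 6), (5, 10), (6, 10), (7, 8), (7, 10), (8, 9), (9, 10)], [(0, 1), (2, 3)]⟩,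
    [[9, 3, 7, 2, 3, 6, 2, 1, 5, 1, 10, 6, 5, 8, 7, 4, 9, 8, 4, 10], [9, 3, 7, 2, 3, 6, 2, 5, 10, 6, 5, 8, 7, 0, 4, 0, 9, 8, 4, 10], [3, 7, 3, 9, 6, 5, 10, 6, 1, 5, 0, 1, 4, 0, 8, 9, 4, 7, 8, 10], [7, 9, 2, 6, 2, 5, 10, 6, 1, 5, 0, 1, 4, 0, 8, 9, 4, 7, 8, 10], [9, 3, 7, 2, 3, 6, 2, 0, 1, 0, 5, 1, 10, 6, 5, 8, 7, 9, 8, 10], [1, 0, 1, 4, 0, 8, 9, 4, 7, 8, 6, 10, 2, 6, 3, 2, 7, 3, 9, 10], [8, 2, 3, 2, 7, 3, 4, 9, 8, 0, 4, 1, 0, 5, 1, 10, 5, 9, 7, 10], [9, 3, 2, 3, 6, 2, 5, 10, 6, 1, 5, 0, 1, 4, 0, 8, 9, 4, 8, 10], [3, 7, 2, 3, 6, 2, 1, 5, 0, 1, 4, 0, 9, 4, 10, 9, 6, 5, 7, 10], [3, 7, 2, 3, 6, 2, 5, 10, 6, 1, 5, 0, 1, 4, 0, 8, 4, 7, 8, 10], [9, 7, 8, 3, 7, 2, 3, 6, 2, 5, 6, 1, 5, 0,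 1, 4, 0, 9, 8, 4]],
    14, 0x803a101f490e94275042a92153152a0e54c24a312738d2a4ea9255472aa⟩,
  ⟨⟨12, [(0, 5), (1, 6), (2, 7), (3, 8), (4, 5), (4, 9), (5, 10), (6, 7), (6, 11), (7, 11), (8, 10), (8, 11), (9, 10), (9, 11)], [(0, 1), (2, 3)]⟩,
    [[9, 3, 8, 2, 3, 7, 2, 1, 6, 1, 11, 7, 6, 10, 8, 4, 9, 5, 4, 10, 5, 11], [9, 3, 8, 2, 3, 7, 2, 6, 11, 7, 6, 10, 8, 4, 9, 0, 5, 0, 4, 10, 5, 11], [3, 8, 3, 9, 7, 6, 11, 7, 1, 6, 0, 1, 5, 0, 10, 4, 5, 9, 4, 8, 10, 11], [8, 9, 2, 7, 2, 6, 11, 7, 1, 6, 0, 1, 5, 0, 10, 4, 5, 9, 4, 8, 10, 11], [9, 3, 8, 2, 3, 7, 2, 6, 11, 7, 1, 6, 0, 1, 5, 0, 10, 5, 8, 9, 10, 11], [4, 9, 4, 3, 8, 2, 3, 7, 2, 0, 1, 0, 6, 1, 11, 7, 6, 10, 8, 9, 10, 11], [1, 0, 1,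 5, 0, 10, 4, 5, 9, 4, 8, 10, 7, 11, 2, 7, 3, 2, 8, 3, 9, 11], [10, 2, 3, 2, 8, 3, 4, 9, 5, 4, 10, 0, 5, 1, 0, 6, 1, 11, 6, 9, 8, 11], [9, 3, 2, 3, 7, 2, 6, 11, 7, 1, 6, 0, 1, 5, 0, 4, 10, 5, 9, 10, 4, 11], [3, 8, 2, 3, 7, 2, 6, 11, 7, 1, 6, 0, 1, 4, 5, 4, 0, 10, 5, 8, 10, 11], [3, 8, 2, 3, 7, 2, 1, 6, 0, 1, 5, 0, 4, 5, 9, 4, 11, 9, 7, 6, 8, 11], [4, 8, 10, 3, 8, 2, 3, 7, 2, 6, 7, 1, 6, 0, 1, 5, 0, 9, 10, 4, 9, 5]],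
    14, 0xa04a1027305294884e64ab4955a0aa4884e24a312740d2a50a9255482aa⟩,
  ⟨⟨13, [(0, 6), (1, 6), (2, 7), (3, 9), (4, 8), (5, 10), (6, 11), (7, 8), (7, 12), (8, 12), (9, 11), (9, 12), (10, 11), (10, 12)], [(0, 2), (1, 3), (4, 5)]⟩,
    [[9, 5, 10, 4, 5, 8, 4, 2, 7, 2, 12, 8, 7, 11, 10, 3, 9, 1, 3, 6, 1, 11, 6, 12], [3, 9, 3, 5, 10, 4, 5, 8, 4, 7, 12, 8, 2, 7, 0, 2, 6, 0, 11, 6, 10, 9, 11, 12], [9, 5, 10, 4, 5, 8, 4, 7, 12, 8, 7, 11, 10, 3, 9, 1, 3, 0, 6, 0, 1, 11, 6, 12], [9, 5, 10, 4, 5, 8, 4, 7, 12, 8, 2, 7, 0, 2, 1, 6, 1, 0, 11, 6, 10, 9, 11, 12], [5, 10, 5, 9, 8, 7, 12, 8, 2, 7, 0, 2, 6, 0, 11, 1, 6, 3, 1, 9, 3, 10, 11, 12], [10, 9, 4, 8, 4, 7, 12, 8, 2, 7, 0, 2, 6, 0, 11, 1,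 6, 3, 1, 9, 3, 10, 11, 12], [1, 3, 1, 9, 3, 5, 10, 4, 5, 8, 4, 0, 2, 0, 7, 2, 12, 8, 7, 11, 10, 9, 11, 12], [2, 0, 2, 6, 0, 11, 1, 6, 3, 1, 9, 3, 10, 11, 8, 12, 4, 8, 5, 4, 10, 5, 9, 12], [11, 4, 5, 4, 10, 5, 3, 9, 1, 3, 6, 1, 11, 0, 6, 2, 0, 7, 2, 12, 7, 9, 10, 12], [5, 10, 4, 5, 8, 4, 7, 12, 8, 2, 7, 0, 2, 3, 1, 3, 6, 1, 0, 11, 6, 10, 11, 12], [9, 5, 4, 5, 8, 4, 7, 12, 8, 2, 7, 0, 2, 6, 0, 11, 1, 6, 3, 1, 9, 3, 11, 12], [9, 8, 7, 10, 12, 5, 10, 4, 5, 8, 4, 2, 7, 0, 2, 6, 0, 1, 6, 3, 1, 9, 3, 12], [0, 9, 11, 3, 9, 1, 3, 6, 1, 10, 11, 5, 10, 4, 5, 8, 4, 7, 8, 2, 7, 0, 2, 6]],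
    15, 0x18094404e71253054b1465074a30ab624ca46a5044a52275152a92b9465c932e⟩,
  ⟨⟨12, [(0, 4), (1, 5), (2, 6), (2, 8), (3, 7), (3, 9), (4, 6), (4, 10), (5, 7), (5, 11), (6, 10), (7, 11), (8, 10), (8, 11), (9, 10), (9, 11)], [(0, 1)]⟩,
    [[9, 2, 8, 6, 2, 4, 10, 6, 4, 11, 8, 3, 9, 7, 3, 1, 5, 1, 11, 7, 5, 10], [9, 2, 8, 6, 2, 0, 4, 0, 10, 6, 4, 11, 8, 3, 9, 7, 3, 5, 11, 7, 5, 10], [8, 9, 6, 4, 10, 6, 0, 4, 1, 0, 5, 1, 7, 11, 5, 3, 7, 9, 3, 8, 11, 10], [9, 2, 8, 6, 2, 4, 10, 6, 0, 4, 1, 0, 5, 1, 7, 11, 5, 7, 8, 9, 11, 10], [9, 2, 8, 6, 2, 10, 6, 11, 8, 3, 9, 7, 3, 0, 1, 0, 5, 1, 11, 7, 5, 10], [9, 2, 8, 6, 2, 1, 0, 1, 4, 0, 10, 6, 4, 11, 8, 3, 9, 7, 3, 11, 7, 10], [11, 2, 8, 2, 3,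 9, 7, 3, 5, 11, 7, 1, 5, 0, 1, 4, 0, 10, 4, 9, 8, 10], [3, 9, 3, 2, 8, 6, 2, 4, 10, 6, 0, 4, 1, 0, 5, 1, 11, 5, 8, 9, 11, 10], [9, 2, 6, 2, 4, 10, 6, 0, 4, 1, 0, 5, 1, 7, 11, 5, 3, 7, 9, 3, 11, 10], [2, 8, 6, 2, 4, 10, 6, 0, 4, 1, 0, 5, 1, 3, 7, 3, 11, 5, 7, 8, 11, 10], [8, 7, 5, 9, 11, 3, 9, 7, 3, 1, 5, 0, 1, 4, 0, 6, 4, 2, 6, 8, 2, 11], [2, 8, 6, 2, 0, 4, 1, 0, 5, 1, 7, 5, 3, 7, 9, 3, 10, 9, 6, 4, 8, 10]],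
    14, 0x80421023285098894e54261255a48ad044e342812548d0a50a92454822a⟩]

theorem okT_dd3_3 : okT dd3_3 = true := by decide +kernel

def dd3_4 : List EntD := [
  ⟨⟨10, [(0, 3), (1, 4), (2, 5), (2, 6), (3, 7), (3, 8), (4, 5), (4, 9), (5, 9), (6, 7), (6, 9), (7, 8), (8, 9)], [(0, 1)]⟩,
    [[8, 2, 6, 5, 2, 1, 4, 1, 9, 5, 4, 7, 6, 3, 8, 7, 3, 9], [8, 2, 6, 5, 2, 4, 9, 5, 4, 7, 6, 0, 3, 0, 8, 7, 3, 9], [6, 8, 5, 4, 9, 5, 1, 4, 0, 1, 3, 0, 7, 8, 3, 6, 7, 9], [8, 2, 6, 5, 2, 0, 1, 0, 4, 1, 9, 5, 4, 7, 6, 8, 7, 9], [8, 2, 6, 5, 2, 9, 5, 7, 6, 1, 0, 1, 3, 0, 8, 7, 3, 9], [7, 2, 6, 2, 3, 8, 7, 0, 3, 1, 0, 4, 1, 9, 4, 8, 6, 9], [8, 2, 5, 2, 4, 9, 5, 1, 4, 0, 1, 3, 0, 7, 8, 3, 7, 9], [2, 6,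 5, 2, 1, 4, 0, 1, 3, 0, 8, 3, 9, 8, 5, 4, 6, 9], [2, 6, 5, 2, 4, 9, 5, 1, 4, 0, 1, 3, 0, 7, 3, 6, 7, 9], [8, 6, 7, 2, 6, 5, 2, 4, 5, 1, 4, 0, 1, 3, 0, 8, 7, 3]],
    13, 0x3019080d902650322719140cc9cc44a44251213090a0c99044c6226⟩,
  ⟨⟨11, [(0, 4), (1, 5), (2, 4), (2, 7), (3, 6), (3, 8), (4, 9), (5, 6), (5, 10), (6, 10), (7, 9), (7, 10), (8, 9), (8, 10)], [(0, 1)]⟩,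
    [[7, 3, 8, 6, 3, 1, 5, 1, 10, 6, 5, 9, 8, 2, 7, 4, 2, 9, 4, 10], [7, 3, 8, 6, 3, 5, 10, 6, 5, 9, 8, 2, 7, 0, 4, 0, 2, 9, 4, 10], [7, 3, 8, 6, 3, 5, 10, 6, 1, 5, 0, 1, 4, 0, 9, 4, 8, 7, 9, 10], [8, 7, 6, 5, 10, 6, 1, 5, 0, 1, 4, 0, 9, 2, 4, 7, 2, 8, 9, 10], [2, 7, 2, 3, 8, 6, 3, 0, 1, 0, 5, 1, 10, 6, 5, 9, 8, 7, 9, 10], [1, 0, 1, 4, 0, 9, 2, 4, 7, 2, 8, 9, 6, 10, 3, 6, 8, 3, 7, 10], [9, 3, 8, 3, 2, 7, 4, 2, 9, 0, 4, 1, 0, 5, 1, 10, 5, 7, 8, 10], [3, 8, 6, 3, 5, 10, 6, 1, 5, 0, 1, 2, 4, 2, 0, 9, 4, 8, 9, 10], [7, 3, 6, 3, 5, 10, 6, 1, 5, 0, 1, 4, 0, 2, 9, 4, 7, 9, 2, 10], [7, 6, 5, 8, 10, 3, 8, 6, 3, 1, 5, 0, 1, 4, 0, 2, 4, 7, 2, 10], [7, 2, 9, 7, 0, 4, 1, 0, 5, 1, 6, 5, 3, 6,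 8, 3, 9, 8, 2, 4]],
    15, 0x1008420469215208a942848242629d38909c455282a619d40cea0ea9055472aa⟩,
  ⟨⟨12, [(0, 5), (1, 5), (2, 6), (3, 7), (4, 8), (4, 9), (5, 10), (6, 8), (6, 11), (7, 10), (7, 11), (8, 11), (9, 10), (9, 11)], [(0, 2), (1, 3)]⟩,
    [[7, 4, 9, 8, 4, 2, 6, 2, 11, 8, 6, 10, 9, 3, 7, 1, 3, 5, 1, 10, 5, 11], [3, 7, 3, 4, 9, 8, 4, 6, 11, 8, 2, 6, 0, 2, 5, 0, 10, 5, 9, 7, 10, 11], [7, 4, 9, 8, 4, 6, 11, 8, 6, 10, 9, 3, 7, 1, 3, 0, 5, 0, 1, 10, 5, 11], [7, 4, 9, 8, 4, 6, 11, 8, 2, 6, 0, 2, 1, 5, 1, 0, 10, 5, 9, 7, 10, 11], [9, 7, 8, 6, 11, 8, 2, 6, 0, 2, 5, 0, 10, 1, 5, 3, 1, 7, 3, 9, 10, 11], [1, 3, 1, 7, 3, 4, 9, 8, 4, 0, 2, 0, 6, 2, 11, 8, 6, 10, 9, 7, 10, 11], [8, 10,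 9, 3, 7, 1, 3, 2, 0, 2, 5, 0, 1, 10, 5, 11, 7, 4, 9, 8, 4, 11], [4, 9, 8, 4, 6, 11, 8, 2, 6, 0, 2, 3, 1, 3, 5, 1, 0, 10, 5, 9, 10, 11], [10, 4, 9, 4, 3, 7, 1, 3, 5, 1, 10, 0, 5, 2, 0, 6, 2, 11, 6, 7, 9, 11], [7, 4, 8, 4, 6, 11, 8, 2, 6, 0, 2, 5, 0, 10, 1, 5, 3, 1, 7, 3, 10, 11], [7, 8, 6, 9, 11, 4, 9, 8, 4, 2, 6, 0, 2, 5, 0, 1, 5, 3, 1, 7, 3, 11], [0, 7, 10, 3, 7, 1, 3, 5, 1, 9, 10, 4, 9, 8, 4, 6, 8, 2, 6, 0, 2, 5]],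
    14, 0xa03a201f285298475063a30a75a4aace54e34a821d490ea4ea9255472aa⟩,
  ⟨⟨9, [(0, 2), (0, 3), (1, 2), (1, 4), (2, 8), (3, 5), (3, 6), (4, 7), (4, 8), (5, 6), (5, 7), (6, 8), (7, 8)], []⟩,
    [[3, 5, 6, 3, 7, 5, 1, 4, 2, 1, 8, 2, 7, 4, 6, 8], [7, 4, 6, 2, 8, 0, 2, 3, 0, 5, 6, 3, 7, 5, 4, 8], [0, 3, 0, 5, 6, 3, 7, 5, 1, 4, 1, 8, 7, 4, 6, 8], [5, 6, 7, 5, 1, 4, 0, 2, 0, 1, 8, 2, 7, 4, 6, 8], [5, 7, 3, 6, 5, 0, 3, 1, 2, 1, 0, 8, 2, 6, 7, 8], [7, 1, 4, 2, 1, 6, 8, 3, 6, 0, 3, 2, 0, 7, 4, 8], [7, 1, 4, 2, 1, 8, 0, 2, 3, 0, 5, 3, 7, 5, 4, 8], [1, 4, 2, 1, 6, 8, 5, 3, 6, 5, 0, 3, 2, 0, 4, 8], [4, 1, 7, 4, 5, 7, 6, 3, 5, 6, 0, 3, 2, 0, 1, 2]],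
    12, 0x100898624a312301130c89ca2441327209204c98888c2444122⟩]

theorem okT_dd3_4 : okT dd3_4 = true := by decide +kernel

def dd3_5 : List EntD := [
  ⟨⟨10, [(0, 3), (1, 4), (2, 3), (2, 5), (3, 9), (4, 6), (4, 7), (5, 8), (5, 9), (6, 7), (6, 8), (7, 9), (8, 9)], [(0, 1)]⟩,
    [[1, 4, 1, 6, 7, 4, 8, 6, 2, 5, 3, 2, 9, 3, 8, 5, 7, 9], [4, 6, 7, 4, 8, 6, 2, 5, 0, 3, 0, 2, 9, 3, 8, 5, 7, 9], [8, 5, 7, 3, 9, 0, 3, 1, 0, 4, 1, 6, 7, 4, 8, 6, 5, 9], [0, 1, 0, 4, 1, 6, 7, 4, 8, 6, 2, 5, 2, 9, 8, 5, 7, 9], [6, 7, 8, 6, 2, 5, 1, 0, 1, 3, 0, 2, 9, 3, 8, 5, 7, 9], [6, 8, 4, 7, 6, 1, 4, 0, 1, 2, 3, 2, 0, 9, 3, 7, 8, 9], [8, 2, 5, 3, 2, 7, 9, 4, 7, 1, 4, 0, 1, 3, 0, 8, 5, 9], [8, 2, 5, 3, 2,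 9, 0, 3, 1, 0, 4, 1, 6, 4, 8, 6, 5, 9], [2, 5, 3, 2, 7, 9, 6, 4, 7, 6, 1, 4, 0, 1, 3, 0, 5, 9], [5, 2, 8, 5, 6, 8, 7, 4, 6, 7, 1, 4, 0, 1, 3, 0, 2, 3]],
    13, 0x1023181090284623a720d310694474e442830d414ea0e99034c71a6⟩,
  ⟨⟨9, [(0, 2), (1, 3), (2, 4), (2, 8), (3, 5), (3, 8), (4, 5), (4, 6), (5, 7), (6, 7), (6, 8), (7, 8)], [(0, 1)]⟩,
    [[5, 1, 3, 1, 7, 4, 5, 6, 2, 4, 8, 2, 7, 6, 3, 8], [5, 3, 7, 4, 5, 6, 0, 2, 0, 4, 8, 2, 7, 6, 3, 8], [4, 6, 5, 4, 7, 0, 1, 0, 3, 1, 5, 8, 3, 6, 7, 8], [5, 7, 4, 5, 6, 1, 0, 1, 2, 0, 4, 8, 2, 7, 6, 8], [6, 5, 7, 3, 5, 2, 8, 0, 2, 1, 0, 3, 1, 6, 7, 8], [3, 4, 2, 6, 4, 7, 8, 6, 7, 0, 2, 1, 0, 3, 1, 8], [5, 7, 3, 4, 5, 2, 4, 8, 0, 2, 1, 0, 3, 1, 7,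 8], [5, 3, 4, 5, 2, 6, 4, 8, 6, 0, 2, 1, 0, 3, 1, 8], [1, 0, 3, 1, 5, 3, 6, 4, 7, 6, 5, 7, 2, 4, 0, 2]],
    11, 0x806420365189184c90434e512620d398498688c2443122⟩,
  ⟨⟨10, [(0, 3), (1, 4), (2, 5), (2, 6), (3, 7), (3, 9), (4, 8), (4, 9), (5, 7), (5, 9), (6, 8), (6, 9), (7, 8)], [(0, 1)]⟩,
    [[8, 1, 4, 1, 6, 7, 8, 5, 3, 7, 9, 3, 2, 5, 6, 2, 4, 9], [8, 4, 6, 7, 8, 5, 0, 3, 0, 7, 9, 3, 2, 5, 6, 2, 4, 9], [8, 6, 4, 7, 8, 3, 5, 7, 9, 5, 0, 3, 1, 0, 4, 1, 6, 9], [7, 5, 8, 7, 6, 0, 1, 0, 4, 1, 8, 9, 4, 2, 6, 5, 2, 9], [8, 6, 7, 8, 5, 1, 0, 1, 3, 0, 7, 9, 3, 2, 5, 6, 2, 9], [8, 2, 6, 2, 4, 7, 8, 3, 7, 9, 0, 3, 1, 0, 4, 1, 6, 9], [8, 4, 7, 8, 3, 2, 5, 2, 7, 9, 5, 0, 3, 1, 0, 4, 1, 9], [5,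 8, 6, 4, 8, 3, 9, 0, 3, 1, 0, 4, 1, 2, 6, 5, 2, 9], [4, 7, 3, 5, 7, 6, 9, 2, 6, 5, 2, 0, 3, 1, 0, 4, 1, 9], [1, 0, 4, 1, 8, 4, 5, 7, 2, 5, 6, 2, 8, 6, 3, 7, 0, 3]],
    12, 0x80b8c054e322820d204a9ca45061a610d288694898a34c41a6⟩,
  ⟨⟨11, [(0, 4), (1, 5), (2, 6), (3, 7), (4, 8), (4, 10), (5, 9), (5, 10), (6, 8), (6, 10), (7, 9), (7, 10), (8, 9)], [(0, 1), (2, 3)]⟩,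
    [[9, 1, 5, 1, 7, 8, 9, 6, 4, 8, 10, 4, 2, 6, 3, 2, 7, 3, 5, 10], [9, 5, 7, 8, 9, 6, 0, 4, 0, 8, 10, 4, 2, 6, 3, 2, 7, 3, 5, 10], [9, 3, 7, 3, 5, 8, 9, 4, 6, 8, 10, 6, 0, 4, 1, 0, 5, 1, 7, 10], [9, 7, 5, 8, 9, 4, 2, 6, 2, 8, 10, 6, 0, 4, 1, 0, 5, 1, 7, 10], [8, 6, 9, 8, 7, 0, 1, 0, 5, 1, 9, 10, 5, 3, 7, 2, 3, 6, 2, 10], [9, 7, 8, 9, 6, 1, 0, 1, 4, 0, 8, 10, 4, 2, 6, 3, 2, 7, 3, 10], [9, 2, 3, 2, 7, 3, 5, 8, 9, 4, 8, 10, 0, 4, 1, 0, 5, 1, 7, 10], [9, 5, 8, 9, 4, 3, 2, 3, 6, 2, 8, 10, 6, 0, 4, 1, 0, 5, 1, 10], [6, 9, 7, 5, 9, 4, 10, 0, 4, 1, 0, 5, 1, 3, 7, 2, 3, 6, 2, 10], [5, 8, 4, 6, 8, 7, 10, 3, 7, 2, 3, 6, 2, 0, 4, 1, 0, 5, 1, 10], [1, 0, 5, 1, 9, 5, 6, 8, 2, 6, 3, 2, 7, 3,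 9, 7, 4, 8, 0, 4]],
    13, 0x4019080d94265042a9291418aa4e44e3223113308898aa8c454522a⟩]

theorem okT_dd3_5 : okT dd3_5 = true := by decide +kernel

def dd3_6 : List EntD := [
  ⟨⟨9, [(0, 3), (0, 4), (1, 3), (1, 5), (2, 4), (2, 6), (3, 7), (4, 7), (5, 6), (5, 8), (6, 8), (7, 8)], []⟩,
    [[5, 1, 6, 8, 5, 2, 6, 4, 2, 7, 4, 8, 3, 7, 1, 3], [4, 0, 8, 7, 5, 6, 8, 5, 2, 6, 4, 2, 3, 7, 0, 3], [4, 0, 7, 4, 1, 3, 5, 1, 6, 8, 5, 6, 7, 8, 0, 3], [0, 6, 2, 1, 5, 1, 8, 6, 5, 7, 8, 4, 7, 2, 0, 4], [0, 5, 1, 2, 6, 2, 8, 5, 6, 7, 8, 3, 7, 1, 0, 3], [1, 4, 0, 8, 7, 6, 8, 2, 6, 4, 2, 3, 7, 0, 1, 3], [2, 4, 2, 0, 7, 4, 1, 3, 5, 1, 8, 5, 7, 8, 0, 3], [5, 1, 8, 6, 5, 8, 2, 6, 4, 2, 0, 4, 3, 0, 1, 3],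 [5, 1, 6, 5, 2, 6, 4, 2, 0, 7, 4, 3, 7, 0, 1, 3]],
    11, 0x10434c21a30912848900846042830d4148a0879033c419e⟩,
  ⟨⟨10, [(0, 4), (1, 6), (2, 4), (2, 5), (3, 5), (3, 7), (4, 8), (5, 8), (6, 7), (6, 9), (7, 9), (8, 9)], [(0, 1)]⟩,
    [[5, 2, 9, 8, 1, 6, 1, 7, 9, 6, 3, 7, 5, 3, 4, 8, 2, 4], [0, 5, 2, 9, 8, 6, 7, 9, 6, 3, 7, 5, 3, 4, 8, 2, 0, 4], [1, 0, 6, 1, 7, 9, 6, 3, 7, 5, 3, 8, 5, 9, 4, 8, 0, 4], [5, 2, 8, 5, 0, 4, 1, 0, 6, 1, 7, 9, 6, 7, 8, 9, 2, 4], [2, 7, 3, 0, 1, 0, 6, 1, 9, 7, 6, 8, 9, 5, 8, 3, 2, 5], [2, 1, 0, 6, 1, 3, 7, 3, 9, 6, 7, 8, 9, 4, 8, 0, 2, 4], [1, 0, 1, 5, 2, 9, 8, 7, 9, 3, 7, 5, 3, 4, 8, 2, 0, 4], [3, 5, 3, 2, 8, 5, 0, 4, 1, 0, 6, 1, 9, 6, 8, 9, 2, 4], [5, 2,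 3, 5, 7, 3, 9, 6, 7, 9, 1, 6, 0, 1, 4, 0, 2, 4], [1, 0, 6, 1, 7, 6, 3, 7, 5, 3, 2, 8, 5, 4, 8, 2, 0, 4]],
    13, 0x4015080b90494e6229311304a94495262a719128c8a4a8924445222⟩,
  ⟨⟨11, [(0, 5), (1, 6), (2, 7), (3, 8), (4, 5), (4, 6), (5, 9), (6, 9), (7, 8), (7, 10), (8, 10), (9, 10)], [(0, 2), (1, 3)]⟩,
    [[6, 4, 10, 9, 2, 7, 2, 8, 10, 7, 3, 8, 1, 3, 6, 1, 5, 9, 4, 5], [6, 4, 9, 6, 0, 5, 2, 0, 7, 2, 3, 8, 3, 10, 7, 8, 9, 10, 4, 5], [0, 6, 4, 10, 9, 7, 8, 10, 7, 3, 8, 1, 3, 6, 1, 5, 9, 4, 0, 5], [1, 6, 1, 4, 9, 6, 0, 5, 2, 0, 7, 2, 8, 10, 7, 8, 9, 10, 4, 5], [2, 0, 7, 2, 8, 10, 7, 3, 8, 1, 3, 6, 1, 9, 6, 10, 5, 9, 0, 5], [4, 3, 1, 8, 3, 0, 2, 0, 7, 2, 10, 8, 7, 9, 10, 6, 9, 1, 4,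 6], [4, 2, 0, 7, 2, 1, 3, 1, 8, 3, 10, 7, 8, 9, 10, 5, 9, 0, 4, 5], [2, 0, 2, 6, 4, 10, 9, 8, 10, 3, 8, 1, 3, 6, 1, 5, 9, 4, 0, 5], [3, 1, 3, 6, 1, 4, 9, 6, 0, 5, 2, 0, 7, 2, 10, 7, 9, 10, 4, 5], [6, 4, 1, 6, 3, 1, 8, 3, 10, 7, 8, 10, 2, 7, 0, 2, 5, 0, 4, 5], [2, 0, 7, 2, 8, 7, 3, 8, 1, 3, 6, 1, 4, 9, 6, 5, 9, 4, 0, 5]],
    13, 0x201b184b94064c12a522940ca9c465482a622951cca8c99454c62a6⟩,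
  ⟨⟨9, [(0, 2), (0, 3), (1, 4), (1, 5), (2, 6), (2, 8), (3, 7), (3, 8), (4, 6), (4, 8), (5, 7), (5, 8), (6, 7)], []⟩,
    [[7, 3, 5, 6, 7, 4, 2, 6, 8, 2, 1, 4, 5, 1, 3, 8], [5, 0, 3, 2, 0, 4, 8, 6, 4, 2, 7, 6, 3, 5, 7, 8], [6, 4, 7, 6, 5, 0, 3, 0, 7, 8, 3, 1, 5, 4, 1, 8], [7, 5, 6, 7, 4, 0, 2, 0, 6, 8, 2, 1, 4, 5, 1, 8], [1, 5, 1, 0, 3, 2, 0, 8, 6, 2, 7, 6, 3, 5, 7, 8], [0, 3, 2, 0, 1, 4, 1, 8, 6, 4, 2, 7, 6, 3, 7, 8], [1, 4, 5, 1, 0, 3, 2, 0, 8, 2, 7, 3, 5, 7, 4, 8], [0, 3, 2, 0, 1, 4, 5, 1, 8, 5, 6, 4, 2, 6, 3, 8], [3, 0, 7, 3, 4, 6, 1, 4, 5, 1, 7, 5, 2, 6, 0, 2]],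
    11, 0x14234811a3015100a9ca24c41a7189308694688a2443122⟩]

theorem okT_dd3_6 : okT dd3_6 = true := by decide +kernel

def dd3_7 : List EntD := [
  ⟨⟨9, [(0, 3), (1, 4), (2, 5), (2, 6), (3, 5), (3, 7), (4, 7), (4, 8), (5, 8), (6, 7), (6, 8)], [(0, 1)]⟩,
    [[6, 1, 4, 1, 7, 8, 4, 2, 6, 5, 2, 8, 3, 5, 7, 3], [0, 6, 4, 7, 8, 4, 2, 6, 5, 2, 8, 3, 5, 7, 0, 3], [1, 0, 4, 1, 6, 7, 8, 6, 4, 5, 8, 3, 5, 7, 0, 3], [0, 1, 0, 2, 6, 5, 2, 8, 5, 7, 6, 4, 7, 8, 1, 4], [1, 0, 1, 6, 7, 2, 8, 6, 5, 8, 2, 3, 5, 7, 0, 3], [8, 4, 2, 6, 2, 8, 7, 6, 1, 4, 0, 1, 3, 0, 7, 3], [1, 0, 4, 1, 7, 8, 4, 2, 5, 2, 8, 3, 5, 7, 0, 3], [1, 0, 4, 1, 8, 4, 2, 5, 6, 2, 8, 6, 3, 5, 0, 3], [1, 0, 4, 1, 7, 4, 5, 3, 2,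 5, 6, 2, 7, 6, 0, 3]],
    11, 0x406c6032409928c8a0834a222830d308898878c33c419e⟩,
  ⟨⟨10, [(0, 4), (1, 5), (2, 6), (3, 7), (4, 5), (4, 8), (5, 9), (6, 8), (6, 9), (7, 8), (7, 9)], [(0, 2), (1, 3)]⟩,
    [[7, 2, 6, 2, 8, 9, 6, 3, 7, 1, 3, 5, 1, 9, 4, 5, 8, 4], [2, 0, 6, 2, 3, 7, 3, 8, 9, 7, 6, 5, 9, 4, 5, 8, 0, 4], [0, 7, 6, 8, 9, 6, 3, 7, 1, 3, 5, 1, 9, 4, 5, 8, 0, 4], [2, 0, 6, 2, 7, 8, 9, 7, 6, 1, 5, 1, 9, 4, 5, 8, 0, 4], [8, 7, 0, 2, 0, 6, 2, 8, 9, 6, 3, 7, 1, 3, 5, 1, 9, 5], [9, 6, 1, 3, 1, 7, 3, 9, 8, 7, 2, 6, 0, 2, 4, 0, 8, 4], [2, 0, 2, 7, 8, 9, 3, 7, 1, 3, 5, 1, 9, 4, 5, 8, 0, 4], [2, 0, 6, 2, 8, 9, 6, 3, 1, 3, 5, 1, 9, 4, 5, 8, 0, 4], [2, 0, 6, 2, 9, 6, 1, 5, 3, 1, 7, 3,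 9, 7, 4, 5, 0, 4], [2, 0, 6, 2, 8, 6, 5, 4, 1, 5, 3, 1, 7, 3, 8, 7, 0, 4]],
    12, 0x100f90074a432611d284ca4e452622309b38cc9cc88e4446222⟩,
  ⟨⟨9, [(0, 3), (1, 4), (2, 3), (2, 5), (3, 6), (4, 6), (4, 7), (5, 7), (5, 8), (6, 8), (7, 8)], [(0, 1)]⟩,
    [[5, 2, 7, 8, 5, 1, 4, 1, 7, 6, 4, 8, 3, 6, 2, 3], [0, 5, 2, 7, 8, 5, 4, 7, 6, 4, 8, 3, 6, 2, 0, 3], [7, 4, 5, 8, 7, 5, 6, 8, 1, 4, 0, 1, 3, 0, 6, 3], [0, 1, 0, 2, 5, 2, 8, 7, 5, 6, 8, 4, 6, 7, 1, 4], [1, 0, 1, 5, 2, 7, 8, 5, 7, 6, 8, 3, 6, 2, 0, 3], [2, 7, 4, 8, 7, 6, 8, 1, 4, 0, 1, 3, 0, 6, 2, 3], [5, 2, 8, 7, 5, 8, 4, 7, 1, 4, 0, 1, 3, 0, 2, 3], [1, 0, 4, 1, 6, 4, 2, 3, 5, 2, 8, 5, 6, 8, 0, 3], [5, 2, 7, 5, 4, 7, 6, 1, 4, 0, 1,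 3, 0, 6, 2, 3]],
    11, 0xc084204640a139068c444a222838d4148a08690334419a⟩]

theorem okT_dd3_7 : okT dd3_7 = true := by decide +kernel

def dd3 : List EntD := dd3_0 ++ (dd3_1 ++ (dd3_2 ++ (dd3_3 ++ (dd3_4 ++ (dd3_5 ++ (dd3_6 ++ (dd3_7)))))))

theorem okT_dd3 : okT dd3 = true :=
  okT_append _ _ okT_dd3_0 (
  okT_append _ _ okT_dd3_1 (
  okT_append _ _ okT_dd3_2 (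
  okT_append _ _ okT_dd3_3 (
  okT_append _ _ okT_dd3_4 (
  okT_append _ _ okT_dd3_5 (
  okT_append _ _ okT_dd3_6 (
  okT_dd3_7)))))))

end Pool.Agent.Helper24.FF
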