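import Pool.Agent.Helper24.FF.TApp

set_option autoImplicit false
set_option maxRecDepth 100000

namespace Pool.Agent.Helper24.FF

open Pool.Agent.Helper64.FL

def dd4_0 : List EntD := [
  ⟨⟨10, [(0, 4), (1, 6), (2, 4), (2, 5), (3, 5), (3, 7), (4, 8), (5, 9), (6, 8), (6, 9), (7, 8), (7, 9)], [(0, 1)]⟩,
    [[5, 2, 9, 3, 5, 7, 3, 1, 6, 1, 9, 8, 6, 7, 4, 8, 2, 4], [0, 5, 2, 9, 3, 5, 7, 3, 6, 9, 8, 6, 7, 4, 8, 2, 0, 4], [9, 6, 3, 7, 5, 3, 9, 5, 8, 7, 1, 6, 0, 1, 4, 0, 8, 4], [5, 2, 9, 5, 6, 7, 9, 8, 7, 1, 6, 0, 1, 4, 0, 8, 2, 4], [2, 8, 7, 0, 1, 0, 6, 1, 8, 9, 6, 3, 7, 5, 3, 9, 2, 5], [2, 9, 6, 3, 7, 3, 9, 8, 7, 1, 6, 0, 1, 4, 0, 8, 2, 4], [1, 0, 1, 5, 2, 3, 9, 5, 7, 9, 3, 8, 7, 4,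 8, 2, 0, 4], [3, 5, 3, 2, 9, 5, 6, 9, 8, 1, 6, 0, 1, 4, 0, 8, 2, 4], [5, 2, 7, 9, 3, 7, 5, 3, 6, 9, 1, 6, 0, 1, 4, 0, 2, 4], [1, 0, 6, 1, 8, 6, 2, 4, 5, 2, 3, 5, 7, 3, 8, 7, 0, 4]],
    12, 0x80f9007482329311304e944652722519938cc9cc88e4446222⟩,
  ⟨⟨11, [(0, 5), (1, 6), (2, 7), (3, 8), (4, 5), (4, 6), (5, 9), (6, 10), (7, 9), (7, 10), (8, 9), (8, 10)], [(0, 2), (1, 3)]⟩,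
    [[6, 4, 10, 1, 6, 3, 1, 8, 3, 2, 7, 2, 10, 9, 7, 8, 5, 9, 4, 5], [6, 4, 10, 6, 7, 3, 8, 3, 10, 9, 8, 2, 7, 0, 2, 5, 0, 9, 4, 5], [0, 6, 4, 10, 1, 6, 3, 1, 8, 3, 7, 10, 9, 7, 8, 5, 9, 4, 0, 5], [1, 6, 1, 4, 10, 6, 7, 8, 10, 9, 8, 2, 7, 0, 2, 5, 0, 9, 4, 5], [10, 7, 3, 8, 1, 3, 6, 1, 10, 6, 9, 8, 2, 7, 0, 2, 5, 0, 9, 5], [4, 9, 8, 0, 2, 0, 7, 2, 9, 10, 7, 3, 8, 1, 3, 6, 1, 10, 4, 6], [4, 10, 7, 1, 3, 1, 8, 3, 10, 9, 8, 2, 7, 0, 2, 5, 0, 9, 4, 5], [2, 0, 2, 6, 4, 10, 1, 6, 3, 1, 8, 3, 10, 9, 8, 5, 9, 4, 0, 5], [3, 1, 3, 6, 1, 4, 10, 6, 7, 10, 9, 2, 7, 0, 2, 5, 0, 9, 4, 5], [6, 4, 8, 10, 3, 8, 1, 3, 6, 1, 7, 10, 2, 7, 0, 2, 5, 0, 4, 5], [2, 0, 7, 2, 9, 7, 4, 5, 6, 4, 1, 6, 3, 1,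 8, 3, 9, 8, 0, 5]],
    16, 0x184b8808ca0426095518aa0654a43a712151ca98874c13a309f40cea0e99054c72a6⟩,
  ⟨⟨10, [(0, 4), (1, 4), (2, 5), (3, 6), (4, 7), (5, 7), (5, 8), (6, 8), (6, 9), (7, 9), (8, 9)], [(0, 2), (1, 3)]⟩,
    [[3, 1, 6, 3, 8, 9, 6, 2, 5, 2, 8, 7, 5, 9, 4, 7, 1, 4], [8, 5, 3, 6, 3, 9, 8, 6, 7, 9, 2, 5, 0, 2, 4, 0, 7, 4], [0, 3, 1, 6, 3, 8, 9, 6, 5, 8, 7, 5, 9, 4, 7, 1, 0, 4], [1, 8, 5, 6, 9, 8, 6, 7, 9, 2, 5, 0, 2, 4, 0, 7, 1, 4], [0, 2, 0, 1, 3, 1, 6, 3, 9, 8, 6, 7, 9, 5, 7, 8, 2, 5], [2, 0, 2, 3, 1, 6, 3, 8, 9, 6, 8, 7, 9, 4, 7, 1, 0, 4], [3, 1, 3, 8, 5, 9, 8, 7, 9, 2, 5, 0, 2, 4, 0, 7, 1, 4], [3, 1, 6, 3, 9, 8, 6, 9, 5, 8, 2, 5, 0, 2, 4, 0, 1, 4], [2, 0, 5, 2, 7,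 5, 1, 4, 3, 1, 6, 3, 9, 6, 7, 9, 0, 4], [3, 1, 6, 3, 8, 6, 5, 8, 7, 2, 5, 0, 2, 4, 0, 7, 1, 4]],
    12, 0x101390094a24a409541488c25d28226195498aa4a79243c521e⟩,
  ⟨⟨11, [(0, 5), (1, 6), (2, 5), (3, 7), (4, 6), (4, 8), (5, 9), (6, 10), (7, 9), (7, 10), (8, 9), (8, 10)], [(0, 1), (2, 3)]⟩,
    [[10, 7, 4, 8, 1, 6, 1, 4, 10, 6, 9, 8, 3, 7, 2, 3, 5, 2, 9, 5], [0, 10, 7, 4, 8, 6, 4, 10, 6, 9, 8, 3, 7, 2, 3, 5, 2, 9, 0, 5], [1, 0, 6, 1, 10, 4, 6, 8, 4, 3, 7, 3, 10, 9, 7, 8, 5, 9, 0, 5], [2, 1, 0, 6, 1, 10, 4, 6, 8, 4, 7, 10, 9, 7, 8, 5, 9, 0, 2, 5], [1, 0, 6, 1, 10, 6, 7, 8, 10, 9, 8, 3, 7, 2, 3, 5, 2, 9, 0, 5], [0, 1, 0, 9, 8, 2, 3, 2, 7, 3, 9, 10, 7, 4, 8, 6, 4, 10, 1, 6], [1, 0, 1,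 10, 7, 4, 8, 4, 10, 9, 8, 3, 7, 2, 3, 5, 2, 9, 0, 5], [3, 2, 3, 1, 0, 6, 1, 4, 10, 6, 8, 10, 4, 9, 8, 5, 9, 0, 2, 5], [1, 0, 4, 6, 4, 1, 10, 6, 7, 10, 9, 3, 7, 2, 3, 5, 2, 9, 0, 5], [3, 2, 7, 3, 10, 7, 4, 6, 8, 4, 10, 8, 1, 6, 0, 1, 5, 0, 2, 5], [0, 7, 9, 3, 7, 2, 3, 5, 2, 8, 9, 4, 8, 6, 4, 1, 6, 0, 1, 5]],
    13, 0x1023281098284a242941949cc8c48cc43a71a1410ea0ea90654732a⟩]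

theorem okT_dd4_0 : okT dd4_0 = true := by decide +kernel

def dd4_1 : List EntD := [
  ⟨⟨12, [(0, 6), (1, 7), (2, 6), (3, 7), (4, 8), (5, 9), (6, 10), (7, 11), (8, 10), (8, 11), (9, 10), (9, 11)], [(0, 1), (2, 4), (3, 5)]⟩,
    [[11, 8, 5, 9, 3, 5, 1, 7, 1, 3, 11, 7, 10, 9, 4, 8, 2, 4, 6, 2, 10, 6], [0, 11, 8, 5, 9, 3, 5, 7, 3, 11, 7, 10, 9, 4, 8, 2, 4, 6, 2, 10, 0, 6], [1, 0, 7, 1, 11, 3, 7, 5, 3, 9, 5, 4, 8, 4, 11, 10, 8, 9, 6, 10, 0, 6], [1, 0, 7, 1, 11, 7, 8, 5, 9, 5, 11, 10, 9, 4, 8, 2, 4, 6, 2, 10, 0, 6], [2, 1, 0, 7, 1, 11, 3, 7, 5, 3, 9, 5, 8, 11, 10, 8, 9, 6, 10, 0, 2, 6], [1, 0, 3, 7, 3, 1, 11, 7, 8, 9, 11, 10, 9, 4, 8, 2, 4, 6, 2, 10, 0, 6], [0, 1, 0, 10, 9, 2, 4,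 2, 8, 4, 10, 11, 8, 5, 9, 3, 5, 7, 3, 11, 1, 7], [1, 0, 1, 11, 8, 3, 5, 3, 9, 5, 11, 10, 9, 4, 8, 2, 4, 6, 2, 10, 0, 6], [4, 2, 4, 1, 0, 7, 1, 11, 3, 7, 5, 3, 9, 5, 11, 10, 9, 6, 10, 0, 2, 6], [1, 0, 5, 3, 5, 7, 3, 1, 11, 7, 8, 11, 10, 4, 8, 2, 4, 6, 2, 10, 0, 6], [4, 2, 8, 4, 11, 8, 3, 7, 5, 3, 9, 5, 11, 9, 1, 7, 0, 1, 6, 0, 2, 6], [0, 8, 10, 4, 8, 2, 4, 6, 2, 9, 10, 5, 9, 3, 5, 7, 3, 1, 7, 0, 1, 6]],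
    14, 0xc04210233850984956832b49938d09049d044a51a34950a50a92654832a⟩,
  ⟨⟨9, [(0, 4), (1, 5), (2, 3), (2, 8), (3, 6), (3, 7), (4, 6), (4, 8), (5, 7), (5, 8), (6, 8), (7, 8)], [(0, 1)]⟩,
    [[1, 5, 1, 3, 7, 2, 6, 3, 4, 8, 6, 4, 2, 5, 7, 8], [5, 3, 7, 2, 6, 3, 0, 4, 0, 8, 6, 4, 2, 5, 7, 8], [5, 3, 7, 6, 3, 4, 8, 6, 0, 4, 1, 0, 5, 1, 7, 8], [2, 5, 7, 6, 4, 8, 6, 0, 4, 1, 0, 5, 1, 7, 2, 8], [3, 2, 6, 7, 3, 0, 1, 0, 5, 1, 8, 7, 5, 6, 2, 8], [3, 2, 7, 6, 3, 1, 0, 1, 4, 0, 8, 6, 4, 7, 2, 8], [3, 2, 7, 3, 1, 5, 0, 1, 4, 0, 8, 4, 7, 5, 2, 8], [3, 2, 6, 3, 0, 4, 1, 0, 5, 1, 8, 5, 6, 4, 2, 8], [2, 5, 7, 1, 5, 0, 1, 4, 0, 6, 4, 3, 6, 7, 2, 3]],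
    12, 0x20048402ce5225089310a98654e3223115188894888a2444122⟩,
  ⟨⟨9, [(0, 5), (1, 6), (2, 4), (2, 5), (3, 4), (3, 8), (4, 7), (5, 8), (6, 7), (6, 8), (7, 8)], [(0, 1)]⟩,
    [[7, 1, 6, 1, 3, 5, 8, 2, 5, 4, 2, 3, 7, 4, 6, 8], [7, 6, 3, 0, 5, 0, 8, 2, 5, 4, 2, 3, 7, 4, 6, 8], [4, 3, 7, 4, 1, 6, 0, 1, 5, 0, 8, 5, 7, 6, 3, 8], [7, 1, 6, 0, 1, 5, 0, 8, 2, 5, 4, 2, 7, 4, 6, 8], [3, 7, 1, 6, 0, 1, 2, 5, 2, 0, 8, 5, 7, 6, 3, 8], [2, 4, 2, 3, 7, 4, 0, 1, 0, 6, 1, 8, 7, 6, 3, 8], [4, 3, 7, 2, 4, 1, 0, 1, 5, 0, 2, 8, 5, 7, 3, 8], [1, 6, 0, 1, 5, 0, 3, 8, 4, 3, 2, 4, 5, 2, 6, 8], [3, 5, 2, 0, 5, 1, 0, 6, 1, 7, 6, 4, 7, 2, 3, 4]],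
    12, 0x80794034e62a608d288c9c8548232419520cc98a88c34451a2⟩,
  ⟨⟨9, [(0, 6), (1, 7), (2, 5), (2, 6), (3, 5), (3, 7), (4, 5), (4, 8), (6, 8), (7, 8)], [(0, 1)]⟩,
    [[1, 7, 1, 3, 8, 7, 4, 6, 8, 2, 6, 5, 2, 4, 3, 5], [7, 3, 8, 7, 4, 0, 6, 0, 8, 2, 6, 5, 2, 4, 3, 5], [8, 4, 1, 7, 0, 1, 6, 0, 8, 6, 3, 7, 5, 3, 4, 5], [8, 4, 0, 6, 1, 0, 7, 1, 8, 7, 2, 6, 5, 2, 4, 5], [7, 3, 8, 1, 7, 0, 1, 6, 0, 8, 2, 6, 5, 2, 3, 5], [2, 1, 0, 3, 7, 3, 1, 4, 8, 4, 7, 6, 8, 0, 2, 6], [8, 4, 0, 1, 0, 7, 1, 8, 3, 7, 2, 5, 2, 3, 4, 5], [3, 8, 4, 1, 0, 1, 6, 0, 8, 2, 6, 5, 2, 4, 3, 5], [4, 7, 3, 1, 7, 0, 1, 6, 0, 2, 6, 5, 2, 3, 4, 5]],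
    12, 0x80998044e332611d384894664a23a5219290e9cc88e4446222⟩]

theorem okT_dd4_1 : okT dd4_1 = true := by decide +kernel

def dd4_2 : List EntD := [
  ⟨⟨8, [(0, 1), (0, 2), (1, 3), (1, 7), (2, 5), (2, 7), (3, 4), (3, 6), (4, 5), (4, 6), (5, 7), (6, 7)], []⟩,
    [[5, 2, 6, 1, 7, 3, 1, 4, 6, 3, 5, 4, 2, 7], [3, 4, 6, 3, 5, 4, 0, 2, 0, 7, 5, 2, 6, 7], [4, 5, 3, 6, 4, 0, 1, 0, 3, 7, 1, 6, 5, 7], [4, 6, 5, 4, 0, 2, 1, 0, 7, 1, 5, 2, 6, 7], [5, 0, 2, 1, 0, 6, 7, 3, 6, 1, 3, 5, 2, 7], [0, 2, 1, 0, 6, 7, 4, 3, 6, 4, 1, 3, 2, 7], [5, 0, 2, 1, 0, 7, 3, 1, 4, 3, 5, 4, 2, 7], [6, 4, 3, 6, 5, 4, 2, 5, 0, 2, 1, 0, 3, 1]],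
    10, 0x20322019290294464612a620530ca98a78c13c509e⟩,
  ⟨⟨9, [(0, 2), (0, 4), (1, 3), (1, 5), (2, 6), (2, 7), (3, 6), (3, 7), (4, 6), (4, 8), (5, 7), (5, 8), (6, 8), (7, 8)], []⟩,
    [[4, 5, 7, 8, 1, 5, 3, 1, 2, 7, 6, 2, 3, 4, 8, 6], [4, 5, 7, 8, 5, 2, 3, 7, 6, 3, 0, 2, 4, 0, 8, 6], [0, 4, 0, 5, 7, 8, 1, 5, 3, 1, 7, 6, 3, 4, 8, 6], [4, 1, 5, 1, 7, 8, 5, 2, 7, 6, 0, 2, 4, 0, 8, 6], [7, 0, 2, 0, 1, 3, 5, 1, 8, 7, 5, 6, 8, 3, 2, 6], [4, 7, 8, 2, 1, 3, 1, 7, 6, 3, 0, 2, 4, 0, 8, 6], [2, 5, 8, 3, 7, 1, 3, 5, 1, 4, 8, 0, 4, 2, 0, 7], [0, 2, 4, 0, 5, 8, 1, 5, 3, 1, 6, 3, 4, 8, 2, 6], [5, 7, 1, 5, 3, 1, 2, 7, 4, 6, 0, 4, 2, 0, 3, 6]],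
    11, 0x14224401a400d1844a0834c22a828d30ca94678a23c311e⟩,
  ⟨⟨8, [(0, 2), (0, 4), (1, 3), (1, 6), (2, 5), (2, 7), (3, 5), (3, 7), (4, 6), (4, 7), (5, 6), (6, 7)], []⟩,
    [[4, 3, 2, 7, 5, 2, 1, 3, 6, 1, 5, 4, 7, 6], [0, 4, 2, 0, 3, 7, 5, 3, 2, 6, 5, 4, 7, 6], [0, 4, 0, 3, 7, 1, 5, 3, 6, 5, 1, 4, 7, 6], [1, 0, 4, 2, 0, 7, 5, 2, 6, 5, 4, 7, 1, 6], [3, 1, 0, 2, 0, 5, 7, 2, 3, 6, 7, 5, 1, 6], [1, 0, 4, 2, 0, 7, 2, 6, 4, 3, 7, 1, 3, 6], [5, 1, 3, 1, 2, 5, 4, 7, 0, 4, 2, 0, 3, 7], [1, 2, 5, 0, 2, 4, 0, 6, 4, 3, 5, 1, 3, 6]],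
    10, 0x401a6089184490034c4125191288890678823c311e⟩,
  ⟨⟨9, [(0, 3), (1, 7), (2, 4), (2, 5), (3, 6), (3, 8), (4, 6), (4, 8), (5, 7), (5, 8), (6, 7), (7, 8)], [(0, 1)]⟩,
    [[1, 2, 5, 4, 2, 3, 8, 6, 3, 4, 7, 6, 5, 8, 1, 7], [2, 5, 4, 2, 0, 3, 0, 8, 6, 3, 4, 7, 6, 5, 8, 7], [5, 3, 4, 8, 6, 4, 0, 3, 1, 0, 7, 1, 6, 5, 8, 7], [0, 1, 0, 2, 5, 4, 2, 8, 6, 4, 7, 6, 5, 8, 1, 7], [2, 5, 2, 3, 8, 6, 0, 3, 1, 0, 7, 1, 6, 5, 8, 7], [0, 1, 3, 0, 2, 4, 2, 6, 8, 4, 3, 7, 8, 6, 1, 7], [5, 3, 8, 0, 3, 1, 0, 7, 1, 2, 5, 4, 2, 8, 4, 7], [5, 6, 4, 1, 0, 1, 3, 0, 6, 8, 3, 2, 4, 5, 2, 8], [0, 1, 3, 0, 6, 3, 5, 7, 2, 5, 4, 2, 6, 4, 1, 7]],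
    11, 0x404c6022709130ca94434c42a7291208694888a34441a2⟩]

theorem okT_dd4_2 : okT dd4_2 = true := by decide +kernel

def dd4_3 : List EntD := [
  ⟨⟨8, [(0, 1), (0, 2), (1, 3), (1, 7), (2, 4), (2, 7), (3, 4), (3, 5), (4, 6), (5, 6), (5, 7), (6, 7)], []⟩,
    [[4, 2, 6, 3, 4, 5, 1, 3, 7, 1, 6, 5, 2, 7], [3, 5, 4, 3, 6, 0, 2, 0, 4, 7, 2, 5, 6, 7], [4, 6, 3, 4, 5, 0, 1, 0, 3, 7, 1, 6, 5, 7], [6, 5, 0, 2, 1, 0, 7, 1, 4, 2, 6, 4, 5, 7], [0, 2, 1, 0, 6, 5, 7, 6, 3, 5, 1, 3, 2, 7], [6, 0, 2, 1, 0, 7, 3, 1, 4, 3, 2, 6, 4, 7], [0, 2, 1, 0, 5, 7, 3, 5, 1, 4, 3, 2, 4, 7], [2, 0, 4, 2, 5, 3, 6, 5, 4, 6, 1, 3, 0, 1]],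
    10, 0x820a3089080c88064c40a5189314498478c13c209e⟩,
  ⟨⟨8, [(0, 1), (0, 2), (0, 3), (1, 2), (1, 4), (2, 5), (3, 4), (3, 6), (4, 7), (5, 6), (5, 7), (6, 7)], []⟩,
    [[7, 3, 4, 6, 3, 5, 7, 6, 2, 5, 1, 2, 4, 1], [6, 4, 3, 7, 4, 5, 6, 7, 2, 5, 0, 2, 3, 0], [7, 4, 5, 6, 7, 5, 3, 6, 1, 4, 0, 1, 3, 0], [5, 2, 6, 7, 5, 6, 4, 7, 1, 4, 0, 2, 1, 0], [6, 3, 7, 5, 6, 7, 2, 5, 1, 0, 2, 1, 3, 0], [3, 2, 1, 0, 2, 4, 1, 6, 3, 7, 6, 4, 7, 0], [3, 2, 1, 0, 5, 2, 7, 5, 4, 7, 1, 3, 4, 0], [6, 3, 5, 6, 2, 5, 1, 0, 2, 4, 1, 3, 4, 0]],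
    10, 0xe4022011080c9cc04a2224099314898838c01c400e⟩,
  ⟨⟨9, [(0, 1), (0, 2), (1, 3), (1, 4), (2, 5), (2, 6), (3, 4), (3, 7), (4, 8), (5, 6), (5, 7), (6, 8), (7, 8)], []⟩,
    [[8, 4, 5, 7, 2, 6, 5, 2, 8, 6, 3, 7, 1, 4, 3, 1], [0, 8, 6, 3, 7, 4, 3, 8, 4, 5, 7, 2, 6, 5, 0, 2], [0, 8, 4, 5, 7, 6, 5, 8, 6, 3, 7, 1, 4, 3, 0, 1], [2, 0, 5, 6, 2, 7, 5, 8, 7, 6, 4, 8, 1, 4, 0, 1], [2, 0, 6, 5, 2, 8, 6, 7, 8, 5, 3, 7, 1, 3, 0, 1], [2, 0, 6, 2, 8, 6, 4, 7, 8, 3, 7, 1, 4, 3, 0, 1], [8, 4, 7, 8, 3, 5, 7, 2, 5, 0, 2, 1, 0, 4, 3, 1], [2, 0, 5, 6, 2, 5, 8, 6, 4, 8, 3, 1, 4, 3, 0, 1], [4, 7, 3, 5, 7, 6, 2, 5, 6, 0, 2, 1, 0, 4, 3, 1]],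
    13, 0x201d080e98474813a4099184c98444a222719939489cc88e4446222⟩,
  ⟨⟨10, [(0, 2), (1, 3), (2, 4), (2, 5), (3, 6), (3, 7), (4, 5), (4, 8), (5, 9), (6, 7), (6, 8), (7, 9), (8, 9)], [(0, 1)]⟩,
    [[9, 5, 6, 8, 1, 3, 1, 7, 6, 3, 9, 7, 4, 8, 2, 5, 4, 2], [0, 9, 5, 6, 8, 3, 7, 6, 3, 9, 7, 4, 8, 2, 5, 4, 0, 2], [0, 1, 0, 9, 7, 4, 8, 5, 4, 9, 5, 6, 8, 3, 7, 6, 1, 3], [1, 0, 1, 9, 5, 6, 8, 7, 6, 9, 7, 4, 8, 2, 5, 4, 0, 2], [1, 0, 3, 1, 6, 7, 3, 8, 6, 9, 8, 7, 5, 9, 2, 5, 0, 2], [1, 0, 3, 1, 7, 6, 3, 9, 7, 8, 9, 6, 4, 8, 2, 4, 0, 2], [1, 0, 3, 1, 7, 3, 9, 7, 5, 8, 9, 4, 8, 2, 5, 4, 0, 2], [9, 5, 8, 9, 4, 6, 8, 3, 6, 1, 3, 0, 1, 2, 0, 5, 4, 2], [1, 0, 3, 1, 6, 7, 3, 6, 9, 7, 5, 9, 4,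 2, 5, 4, 0, 2], [5, 8, 4, 6, 8, 7, 3, 6, 7, 1, 3, 0, 1, 2, 0, 5, 4, 2]],
    14, 0x20462021208e8c284a242511d30ca9c654e342821d418aa0e99054c72a6⟩]

theorem okT_dd4_3 : okT dd4_3 = true := by decide +kernel

def dd4_4 : List EntD := [
  ⟨⟨8, [(0, 2), (0, 3), (1, 2), (1, 4), (2, 5), (3, 5), (3, 6), (4, 6), (4, 7), (5, 7), (6, 7)], []⟩,
    [[4, 1, 6, 7, 4, 3, 6, 5, 3, 7, 2, 5, 1, 2], [3, 0, 7, 5, 4, 6, 7, 4, 3, 6, 2, 5, 0, 2], [0, 1, 4, 1, 7, 6, 4, 5, 7, 3, 5, 6, 0, 3], [0, 4, 1, 6, 7, 4, 6, 5, 7, 2, 5, 1, 0, 2], [1, 3, 0, 7, 5, 6, 7, 3, 6, 2, 5, 0, 1, 2], [4, 1, 7, 6, 4, 7, 3, 6, 0, 3, 2, 0, 1, 2], [3, 0, 5, 3, 1, 2, 4, 1, 7, 4, 5, 7, 0, 2], [4, 1, 6, 4, 3, 6, 0, 5, 3, 2, 5, 0, 1,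 2]],
    10, 0x403a301d30c488234811a720d39849c658e22c3116⟩,
  ⟨⟨9, [(0, 3), (1, 4), (2, 3), (2, 5), (3, 6), (4, 7), (4, 8), (5, 6), (5, 7), (6, 8), (7, 8)], [(0, 1)]⟩,
    [[5, 2, 8, 6, 1, 4, 1, 7, 8, 4, 5, 7, 3, 6, 2, 3], [0, 5, 2, 8, 6, 4, 7, 8, 4, 5, 7, 3, 6, 2, 0, 3], [1, 0, 4, 1, 7, 8, 4, 5, 7, 6, 5, 8, 3, 6, 0, 3], [0, 1, 0, 6, 8, 2, 5, 2, 6, 7, 5, 4, 8, 7, 1, 4], [1, 0, 1, 5, 2, 8, 6, 7, 8, 5, 7, 3, 6, 2, 0, 3], [2, 1, 0, 4, 1, 7, 8, 4, 7, 6, 8, 3, 6, 0, 2, 3], [5, 2, 7, 5, 8, 4, 7, 8, 1, 4, 0, 1, 3, 0, 2, 3], [5, 2, 6, 5, 0, 3, 1, 0, 4, 1, 8, 4, 6, 8, 2, 3], [1, 0, 4, 1, 7, 4, 5, 7, 2, 6, 5, 3, 6, 2, 0, 3]],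
    12, 0x80b8c054624240953906a0834a24282153946a0a690334519a⟩,
  ⟨⟨8, [(0, 2), (1, 3), (2, 4), (2, 5), (3, 4), (3, 6), (4, 7), (5, 6), (5, 7), (6, 7)], [(0, 1)]⟩,
    [[6, 7, 5, 1, 3, 1, 6, 4, 3, 7, 2, 4, 5, 2], [0, 6, 7, 5, 3, 6, 4, 3, 7, 2, 4, 5, 0, 2], [0, 1, 0, 5, 7, 6, 5, 4, 7, 3, 4, 6, 1, 3], [1, 0, 1, 6, 7, 5, 6, 4, 7, 2, 4, 5, 0, 2], [7, 6, 5, 7, 3, 6, 1, 3, 0, 1, 2, 0, 5, 2], [6, 3, 7, 6, 4, 7, 1, 3, 0, 1, 2, 0, 4, 2], [5, 3, 4, 1, 3, 0, 1, 2, 0, 7, 4, 5, 7, 2], [6, 5, 3, 6, 4, 1, 3, 0, 1, 2, 0, 4, 5, 2]],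
    10, 0x403a101f184e98624a21a728d39849c648e2243112⟩,
  ⟨⟨8, [(0, 2), (0, 4), (1, 3), (1, 5), (2, 3), (2, 6), (3, 7), (4, 6), (4, 7), (5, 6), (5, 7)], []⟩,
    [[5, 4, 6, 7, 4, 1, 5, 3, 1, 7, 2, 3, 6, 2], [4, 0, 5, 6, 7, 5, 4, 3, 7, 2, 3, 6, 0, 2], [6, 5, 0, 4, 0, 6, 7, 4, 1, 5, 3, 1, 7, 3], [4, 0, 1, 5, 1, 6, 7, 5, 4, 7, 2, 6, 0, 2], [0, 5, 6, 1, 7, 5, 3, 7, 1, 2, 3, 6, 0, 2], [4, 0, 6, 7, 4, 1, 3, 1, 7, 2, 3, 6, 0, 2], [4, 0, 7, 4, 1, 3, 5, 1, 7, 5, 2, 3, 0, 2], [4, 0, 6, 4, 3, 2, 1, 3, 5, 1, 6, 5, 0, 2]],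
    10, 0x61225091100a90054622a620d314694878a33c419e⟩]

theorem okT_dd4_4 : okT dd4_4 = true := by decide +kernel

def dd4_5 : List EntD := [
  ⟨⟨9, [(0, 3), (0, 4), (1, 3), (1, 5), (2, 4), (2, 6), (3, 7), (4, 8), (5, 7), (5, 8), (6, 7), (6, 8)], []⟩,
    [[5, 1, 6, 7, 4, 8, 2, 4, 6, 2, 5, 8, 3, 7, 1, 3], [4, 0, 8, 2, 4, 6, 2, 5, 8, 7, 5, 6, 3, 7, 0, 3], [5, 1, 6, 7, 8, 6, 5, 4, 8, 0, 4, 3, 0, 7, 1, 3], [0, 7, 6, 1, 5, 1, 7, 8, 5, 2, 6, 4, 2, 8, 0, 4], [0, 5, 1, 2, 6, 2, 7, 8, 6, 5, 8, 3, 7, 1, 0, 3], [1, 4, 0, 2, 8, 4, 6, 8, 2, 7, 6, 3, 7, 0, 1, 3], [2, 4, 2, 0, 8, 4, 5, 8, 1, 7, 5, 3, 7, 1, 0, 3], [5, 1, 8, 5, 2, 4, 6, 2, 8, 6, 0, 4, 3, 0, 1, 3], [5, 1, 7, 5, 0, 3, 4, 0, 2, 4,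 6, 2, 7, 6, 1, 3]],
    13, 0x309128489006460327191208a8c264a1326115398898a88c4445222⟩,
  ⟨⟨10, [(0, 4), (1, 5), (2, 4), (2, 6), (3, 5), (3, 7), (4, 8), (5, 9), (6, 8), (6, 9), (7, 8), (7, 9)], [(0, 1)]⟩,
    [[6, 2, 7, 8, 1, 5, 1, 9, 3, 5, 7, 3, 6, 9, 4, 8, 2, 4], [0, 6, 2, 7, 8, 5, 9, 3, 5, 7, 3, 6, 9, 4, 8, 2, 0, 4], [1, 0, 5, 1, 9, 3, 5, 7, 3, 6, 9, 8, 6, 7, 4, 8, 0, 4], [6, 2, 7, 8, 9, 7, 6, 5, 9, 1, 5, 0, 1, 4, 0, 8, 2, 4], [0, 1, 0, 8, 7, 2, 6, 2, 8, 9, 6, 3, 7, 5, 3, 9, 1, 5], [1, 0, 1, 6, 2, 3, 7, 3, 8, 9, 7, 6, 9, 4, 8, 2, 0, 4], [2, 1, 0, 5, 1, 3, 9, 5, 7, 9, 3, 8, 7, 4, 8, 0, 2, 4], [1, 0, 3, 5, 3, 1, 9, 5, 6, 9, 2, 8, 6, 4, 8, 2, 0, 4], [6, 2, 9, 6, 3, 5, 7, 3, 9,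 7, 1, 5, 0, 1, 4, 0, 2, 4], [6, 2, 8, 6, 0, 4, 1, 0, 5, 1, 3, 5, 7, 3, 8, 7, 2, 4]],
    14, 0x203e401d284e90455042a411d28cca0e54c22a611d38cc9cc98e54c62a6⟩,
  ⟨⟨10, [(0, 4), (1, 5), (2, 4), (2, 9), (3, 5), (3, 9), (4, 7), (5, 8), (6, 7), (6, 8), (6, 9), (7, 8), (7, 9), (8, 9)], [(0, 1)]⟩,
    [[1, 5, 1, 3, 8, 5, 6, 4, 7, 2, 4, 9, 2, 8, 6, 7, 3, 9], [5, 3, 8, 5, 6, 0, 4, 0, 7, 2, 4, 9, 2, 8, 6, 7, 3, 9], [5, 3, 8, 1, 5, 0, 1, 4, 0, 7, 4, 6, 9, 8, 7, 6, 3, 9], [6, 5, 8, 1, 5, 0, 1, 4, 0, 7, 2, 4, 9, 2, 6, 8, 7, 9], [2, 0, 1, 0, 5, 1, 3, 8, 5, 6, 7, 9, 8, 6, 7, 3, 2, 9], [3, 6, 8, 1, 0, 1, 4, 0, 7, 2, 4, 9, 2, 6, 8, 7, 3, 9], [5, 3, 8, 1, 5, 0, 1, 4, 0, 7, 2, 4, 9, 2, 8, 7, 3, 9],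 [6, 5, 8, 3, 1, 5, 0, 1, 4, 0, 2, 4, 9, 2, 3, 6, 8, 9], [6, 4, 7, 2, 0, 4, 1, 0, 5, 1, 3, 5, 9, 3, 2, 6, 7, 9], [2, 4, 2, 6, 8, 7, 6, 3, 5, 3, 8, 1, 5, 0, 1, 4, 0, 7]],
    14, 0x20364019284c904348232720d28cc9cc3505125189418498698c24c3126⟩,
  ⟨⟨10, [(0, 6), (1, 7), (2, 6), (2, 8), (3, 6), (3, 9), (4, 7), (4, 8), (5, 7), (5, 9), (8, 9)], [(0, 1)]⟩,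
    [[9, 3, 4, 8, 1, 7, 1, 4, 5, 7, 9, 5, 2, 8, 6, 2, 3, 6], [9, 3, 4, 8, 7, 4, 5, 7, 9, 5, 2, 8, 0, 6, 0, 2, 3, 6], [9, 3, 5, 8, 9, 4, 8, 7, 4, 5, 1, 7, 0, 1, 6, 0, 3, 6], [8, 2, 4, 9, 8, 5, 9, 7, 5, 4, 1, 7, 0, 1, 6, 0, 2, 6], [8, 2, 9, 8, 3, 5, 9, 7, 5, 1, 7, 0, 1, 6, 0, 3, 2, 6], [9, 3, 8, 9, 2, 4, 8, 7, 4, 1, 7, 0, 1, 6, 0, 2, 3, 6], [3, 9, 3, 5, 2, 8, 2, 9, 4, 8, 0, 1, 0, 7, 1, 4, 5, 7], [5, 9, 5, 3, 4, 8, 4, 9, 2, 8, 1, 0, 1, 6, 0, 2, 3, 6], [2, 9, 3, 5, 9, 4, 7, 4, 5, 1, 7, 0, 1, 6, 0, 3, 2, 6], [3, 8, 2, 4, 8, 5, 7, 5, 4, 1, 7, 0, 1, 6, 0, 2, 3, 6]],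
    14, 0x204e6025385298494c32261113912a4644e41272894944a488922444122⟩]

theorem okT_dd4_5 : okT dd4_5 = true := by decide +kernel

def dd4_6 : List EntD := [
  ⟨⟨9, [(0, 3), (0, 4), (1, 3), (1, 8), (2, 4), (2, 8), (3, 6), (4, 7), (5, 6), (5, 7), (5, 8), (6, 7), (6, 8), (7, 8)], []⟩,
    [[4, 2, 7, 4, 5, 3, 6, 1, 3, 8, 1, 7, 5, 6, 2, 8], [4, 2, 7, 0, 4, 3, 0, 6, 3, 5, 8, 7, 6, 5, 2, 8], [5, 4, 7, 0, 4, 3, 0, 6, 1, 3, 8, 1, 5, 7, 6, 8], [1, 0, 4, 0, 2, 7, 4, 5, 6, 8, 7, 5, 6, 2, 1, 8], [2, 5, 7, 0, 3, 0, 6, 1, 3, 8, 1, 5, 7, 6, 2, 8], [4, 2, 7, 0, 4, 3, 0, 6, 1, 3, 8, 1, 7, 6, 2, 8], [5, 4, 7, 2, 0, 4, 3, 0, 1, 3, 8, 1, 2, 5, 7, 8], [5, 3, 6, 1, 0, 3, 4, 0, 2, 4, 8, 2, 1, 5, 6,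 8], [1, 3, 1, 5, 7, 6, 5, 2, 4, 2, 7, 0, 4, 3, 0, 6]],
    13, 0x3015200a90414e40a308930c48c254822a7285314494488a14420a2⟩,
  ⟨⟨9, [(0, 3), (0, 5), (1, 3), (1, 8), (2, 4), (2, 8), (3, 6), (4, 6), (4, 7), (5, 7), (5, 8), (6, 8), (7, 8)], []⟩,
    [[1, 4, 6, 2, 7, 4, 5, 8, 7, 5, 2, 3, 6, 1, 3, 8], [4, 2, 6, 7, 4, 5, 8, 7, 0, 5, 3, 0, 6, 3, 2, 8], [1, 4, 6, 7, 4, 5, 8, 7, 0, 5, 3, 0, 6, 1, 3, 8], [1, 4, 2, 6, 7, 4, 0, 5, 0, 8, 7, 5, 6, 2, 1, 8], [2, 1, 6, 7, 5, 8, 7, 0, 5, 3, 0, 6, 1, 3, 2, 8], [0, 3, 0, 1, 6, 3, 2, 7, 8, 4, 7, 2, 6, 4, 1, 8], [4, 2, 7, 4, 0, 5, 3, 0, 1, 3, 8, 1, 7, 5, 2, 8], [2, 3, 6, 1, 0, 3, 5, 0, 8, 5, 1, 4, 6, 2, 4, 8], [1, 5, 0, 7, 5, 2, 4, 2, 7, 6, 4, 3, 6,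 0, 1, 3]],
    13, 0x500918048c254e50a308930ca9c814c42a4115208294488a14420a2⟩,
  ⟨⟨9, [(0, 4), (0, 6), (1, 5), (1, 6), (2, 4), (2, 8), (3, 5), (3, 8), (4, 7), (5, 7), (6, 8), (7, 8)], []⟩,
    [[4, 2, 7, 4, 3, 6, 8, 1, 6, 5, 1, 3, 7, 5, 2, 8], [3, 4, 7, 2, 0, 4, 6, 0, 8, 6, 2, 5, 7, 3, 5, 8], [3, 4, 7, 0, 4, 6, 0, 8, 1, 6, 5, 1, 7, 3, 5, 8], [4, 2, 7, 0, 4, 6, 0, 8, 1, 6, 5, 1, 7, 5, 2, 8], [2, 5, 3, 7, 1, 5, 0, 6, 0, 1, 8, 6, 7, 3, 2, 8], [3, 4, 2, 7, 0, 4, 1, 6, 1, 0, 8, 6, 7, 2, 3, 8], [0, 4, 0, 2, 7, 4, 3, 8, 1, 5, 1, 3, 7, 5, 2, 8], [4, 2, 0, 4, 6, 0, 3, 8, 5, 3, 1, 5, 6, 1, 2, 8], [2, 6, 0, 1, 6, 3, 5, 3, 1, 7, 5, 4, 7, 0, 2, 4]],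
    13, 0x400d300690464c1127219208694224e532519928c498688c2443122⟩,
  ⟨⟨9, [(0, 3), (0, 4), (1, 3), (1, 5), (2, 4), (2, 5), (3, 6), (4, 7), (5, 8), (6, 7), (6, 8), (7, 8)], []⟩,
    [[5, 1, 8, 2, 5, 4, 2, 7, 4, 6, 8, 7, 3, 6, 1, 3], [8, 7, 6, 5, 8, 2, 5, 4, 2, 7, 0, 4, 3, 0, 6, 3], [5, 1, 8, 5, 7, 6, 8, 4, 7, 0, 4, 3, 0, 6, 1, 3], [0, 1, 5, 1, 2, 8, 5, 6, 7, 8, 6, 4, 7, 2, 0, 4], [0, 2, 5, 2, 1, 8, 5, 7, 6, 8, 7, 3, 6, 1, 0, 3], [1, 8, 7, 6, 8, 2, 4, 2, 7, 0, 4, 3, 0, 6, 1, 3], [5, 1, 2, 8, 5, 7, 8, 4, 7, 2, 0, 4, 3, 0, 1, 3], [4, 0, 2, 4, 5, 2, 1, 8, 5, 6, 8, 3, 6, 1, 0, 3], [5, 1, 2, 5, 4, 2, 0, 7, 4, 6, 7, 3, 6, 0, 1, 3]],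
    13, 0x508120029006505027205208c94464e60a8301284c98238c01c100e⟩]

theorem okT_dd4_6 : okT dd4_6 = true := by decide +kernel

def dd4_7 : List EntD := [
  ⟨⟨9, [(0, 5), (0, 6), (1, 5), (1, 7), (2, 5), (2, 8), (3, 6), (3, 7), (4, 6), (4, 8), (7, 8)], []⟩,
    [[8, 2, 3, 7, 6, 3, 4, 6, 8, 4, 1, 7, 5, 1, 2, 5], [8, 2, 4, 7, 8, 3, 7, 6, 3, 4, 0, 6, 5, 0, 2, 5], [7, 1, 3, 8, 7, 4, 8, 6, 4, 3, 0, 6, 5, 0, 1, 5], [7, 1, 8, 7, 2, 4, 8, 6, 4, 0, 6, 5, 0, 2, 1, 5], [8, 2, 7, 8, 1, 3, 7, 6, 3, 0, 6, 5, 0, 1, 2, 5], [2, 8, 2, 4, 1, 7, 1, 8, 3, 7, 0, 6, 0, 3, 4, 6], [4, 8, 4, 2, 3, 7, 3, 8, 1, 7, 0, 5, 0, 1, 2, 5], [1, 8, 2, 4, 8, 3, 6, 3, 4, 0, 6, 5, 0, 2, 1, 5], [2, 7, 1, 3, 7, 4, 6, 4,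 3, 0, 6, 5, 0, 1, 2, 5]],
    13, 0x501d300e98624c412621d288e94244a222718938489c888e2444122⟩,
  ⟨⟨9, [(0, 3), (0, 4), (1, 3), (1, 8), (2, 5), (2, 7), (3, 7), (4, 6), (4, 8), (5, 6), (5, 8), (6, 7), (7, 8)], []⟩,
    [[1, 3, 8, 1, 6, 2, 7, 5, 2, 4, 6, 8, 4, 5, 3, 7], [0, 3, 4, 0, 6, 8, 4, 2, 7, 5, 2, 8, 6, 5, 3, 7], [1, 3, 8, 1, 6, 7, 4, 5, 6, 8, 5, 0, 4, 3, 0, 7], [5, 2, 0, 4, 0, 6, 1, 8, 1, 4, 5, 7, 8, 6, 2, 7], [1, 0, 3, 0, 8, 1, 2, 6, 7, 5, 6, 2, 8, 5, 3, 7], [2, 1, 3, 8, 1, 6, 7, 4, 6, 8, 0, 4, 3, 0, 2, 7], [1, 0, 3, 4, 0, 8, 4, 1, 2, 7, 5, 2, 8, 5, 3, 7], [6, 2, 5, 2, 4, 6, 1, 8, 3, 1, 0, 3, 4, 0, 5, 8], [2, 4, 6, 0, 4, 1, 3, 1, 0, 7, 3, 5, 6, 2, 5, 7]],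
    12, 0x18488c054802a309531029c644c50a7111288894888a14440a2⟩,
  ⟨⟨10, [(0, 5), (1, 8), (2, 4), (2, 6), (3, 4), (3, 9), (4, 8), (5, 7), (5, 9), (6, 7), (6, 9), (7, 8), (8, 9)], [(0, 1)]⟩,
    [[1, 3, 4, 9, 3, 7, 8, 6, 5, 7, 9, 5, 2, 6, 4, 2, 1, 8], [3, 4, 9, 3, 7, 8, 6, 0, 5, 0, 7, 9, 5, 2, 6, 4, 2, 8], [3, 4, 9, 3, 7, 1, 8, 0, 1, 5, 0, 6, 7, 9, 6, 5, 4, 8], [4, 5, 7, 9, 0, 5, 1, 0, 8, 1, 6, 9, 7, 2, 6, 4, 2, 8], [0, 1, 5, 0, 2, 6, 2, 7, 3, 9, 3, 6, 5, 8, 9, 7, 1, 8], [0, 1, 0, 3, 4, 9, 3, 7, 8, 6, 7, 9, 2, 6, 4, 2, 1, 8], [3, 2, 4, 2, 9, 3, 7, 1, 8, 0, 1, 5, 0, 7, 9, 5, 4, 8], [3, 2, 4, 6, 2, 9, 6, 3, 1, 8, 0, 1, 5, 0, 9, 5, 4, 8], [3, 7, 6, 1, 0, 1, 5, 0, 7, 9, 5, 2, 6, 4, 2,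 3, 4, 9], [0, 1, 5, 0, 7, 5, 3, 4, 3, 8, 2, 4, 6, 2, 7, 6, 1, 8]],
    13, 0x5019080da0264e51a4195410c9cc34822a4199308a98a98c34c51a6⟩]

theorem okT_dd4_7 : okT dd4_7 = true := by decide +kernel

def dd4 : List EntD := dd4_0 ++ (dd4_1 ++ (dd4_2 ++ (dd4_3 ++ (dd4_4 ++ (dd4_5 ++ (dd4_6 ++ (dd4_7)))))))

theorem okT_dd4 : okT dd4 = true :=
  okT_append _ _ okT_dd4_0 (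
  okT_append _ _ okT_dd4_1 (
  okT_append _ _ okT_dd4_2 (
  okT_append _ _ okT_dd4_3 (
  okT_append _ _ okT_dd4_4 (
  okT_append _ _ okT_dd4_5 (
  okT_append _ _ okT_dd4_6 (
  okT_dd4_7)))))))

end Pool.Agent.Helper24.FF
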