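import Pool.Agent.Helper24.FF.TApp

set_option autoImplicit false
set_option maxRecDepth 100000

namespace Pool.Agent.Helper24.FF

open Pool.Agent.Helper64.FL

def dd5_0 : List EntD := [
  ⟨⟨8, [(0, 3), (0, 4), (1, 2), (1, 7), (2, 5), (2, 6), (3, 5), (3, 7), (4, 6), (4, 7), (5, 7), (6, 7)], []⟩,
    [[4, 2, 6, 1, 5, 2, 3, 7, 5, 3, 1, 4, 6, 7], [4, 2, 6, 5, 2, 3, 7, 5, 0, 3, 4, 0, 6, 7], [1, 4, 6, 5, 3, 7, 5, 0, 3, 4, 0, 6, 1, 7], [2, 1, 5, 6, 2, 0, 4, 0, 7, 6, 4, 5, 1, 7], [2, 1, 6, 5, 2, 0, 3, 0, 7, 5, 3, 6, 1, 7], [2, 1, 6, 2, 0, 4, 3, 0, 7, 3, 6, 4, 1, 7], [2, 1, 5, 2, 0, 3, 4, 0, 7, 4, 5, 3, 1, 7], [1, 4, 6, 0, 4, 3, 0, 5, 3, 2, 5, 6, 1, 2]],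
    11, 0xc014800a208d104894444c21a5191310690678813c309e⟩,
  ⟨⟨8, [(0, 3), (0, 4), (1, 4), (1, 5), (2, 3), (2, 7), (3, 6), (4, 7), (5, 6), (5, 7), (6, 7)], []⟩,
    [[3, 2, 6, 3, 1, 5, 4, 1, 7, 4, 6, 5, 2, 7], [6, 5, 2, 4, 7, 0, 4, 3, 0, 2, 6, 3, 5, 7], [6, 1, 5, 4, 1, 7, 0, 4, 3, 0, 6, 3, 5, 7], [2, 6, 1, 5, 0, 4, 0, 1, 7, 4, 6, 5, 2, 7], [0, 3, 0, 2, 6, 3, 1, 5, 1, 7, 6, 5, 2, 7], [3, 2, 6, 0, 3, 1, 4, 1, 0, 7, 4, 6, 2, 7], [1, 5, 4, 1, 2, 7, 3, 2, 0, 3, 4, 0, 5, 7], [2, 4, 0, 1, 4, 5, 1, 6, 5, 3, 6, 0, 2, 3]],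
    11, 0x10054602a311120448c454c3225089314894878a23c411e⟩,
  ⟨⟨8, [(0, 1), (0, 2), (1, 3), (1, 4), (2, 5), (2, 6), (3, 5), (3, 7), (4, 6), (4, 7), (5, 7), (6, 7)], []⟩,
    [[5, 1, 3, 4, 1, 6, 7, 4, 2, 6, 5, 2, 3, 7], [4, 0, 2, 0, 6, 5, 2, 3, 7, 5, 3, 4, 6, 7], [5, 0, 1, 0, 3, 4, 1, 6, 7, 4, 6, 5, 3, 7], [2, 5, 6, 0, 2, 1, 0, 4, 1, 7, 6, 4, 5, 7], [2, 6, 5, 0, 2, 1, 0, 3, 1, 7, 5, 3, 6, 7], [2, 6, 0, 2, 1, 0, 4, 3, 1, 7, 3, 6, 4, 7], [2, 5, 0, 2, 1, 0, 3, 4, 1, 7, 4, 5, 3, 7], [6, 4, 2, 6, 0, 5, 2, 3, 5, 1, 3, 0, 4, 1]],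
    11, 0x8034e3022011390098434a222620d28c890618800c3006⟩,
  ⟨⟨8, [(0, 2), (0, 3), (1, 2), (1, 4), (2, 5), (3, 4), (3, 6), (4, 7), (5, 6), (5, 7), (6, 7)], []⟩,
    [[4, 1, 7, 3, 4, 6, 3, 5, 7, 6, 2, 5, 1, 2], [7, 6, 5, 4, 7, 3, 4, 6, 0, 3, 2, 0, 5, 2], [0, 5, 7, 6, 5, 1, 4, 1, 7, 3, 4, 6, 0, 3], [0, 4, 1, 7, 4, 6, 5, 7, 6, 2, 5, 1, 0, 2], [1, 7, 6, 5, 7, 3, 6, 0, 3, 2, 0, 5, 1, 2], [4, 1, 6, 3, 7, 6, 4, 7, 0, 3, 2, 0, 1, 2], [3, 0, 4, 3, 1, 7, 4, 5, 7, 2, 5, 1, 0, 2], [4, 1, 3, 4, 0, 6, 3, 5, 6, 2, 5, 0, 1, 2]],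
    11, 0x8074603a208d104e94434c30a730539469c648e1243092⟩]

theorem okT_dd5_0 : okT dd5_0 = true := by decide +kernel

def dd5_1 : List EntD := [
  ⟨⟨8, [(0, 4), (0, 5), (1, 4), (1, 6), (2, 4), (2, 7), (3, 5), (3, 6), (5, 7), (6, 7)], []⟩,
    [[7, 2, 3, 6, 5, 3, 7, 5, 1, 6, 4, 1, 2, 4], [7, 2, 3, 5, 6, 3, 7, 6, 0, 5, 4, 0, 2, 4], [6, 1, 3, 7, 6, 5, 7, 3, 0, 5, 4, 0, 1, 4], [6, 1, 7, 6, 2, 5, 7, 0, 5, 4, 0, 2, 1, 4], [0, 1, 6, 1, 3, 2, 7, 2, 6, 5, 7, 3, 0, 5], [7, 2, 3, 6, 3, 7, 1, 6, 0, 4, 0, 1, 2, 4], [1, 7, 2, 3, 5, 3, 7, 0, 5, 4, 0, 2, 1, 4], [2, 6, 1, 3, 6, 5, 3, 0, 5, 4, 0, 1, 2, 4]],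
    11, 0x1406480326095204a90454a312411930c498a78c23c511e⟩,
  ⟨⟨8, [(0, 1), (0, 2), (0, 5), (1, 3), (1, 6), (2, 4), (2, 7), (3, 4), (3, 7), (4, 6), (5, 6), (5, 7), (6, 7)], []⟩,
    [[1, 4, 5, 7, 6, 5, 3, 2, 7, 4, 2, 1, 3, 6], [0, 5, 2, 0, 3, 7, 4, 3, 2, 6, 4, 5, 7, 6], [4, 0, 1, 5, 0, 7, 6, 5, 3, 7, 1, 4, 3, 6], [0, 1, 5, 2, 0, 7, 4, 2, 6, 4, 5, 7, 1, 6], [0, 1, 5, 2, 0, 7, 2, 6, 5, 3, 7, 1, 3, 6], [3, 0, 1, 2, 0, 4, 7, 2, 3, 6, 7, 4, 1, 6], [0, 5, 2, 1, 0, 3, 1, 7, 4, 3, 2, 4, 5, 7], [0, 5, 1, 2, 0, 4, 2, 6, 3, 4, 1, 3, 5, 6]],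
    10, 0xc1127105184a9ca14c5124195208a94408a1042082⟩,
  ⟨⟨8, [(0, 1), (0, 2), (0, 3), (1, 4), (1, 5), (2, 4), (2, 6), (3, 5), (3, 7), (4, 7), (5, 6), (6, 7)], []⟩,
    [[6, 3, 5, 7, 3, 2, 6, 4, 2, 7, 1, 4, 5, 1], [7, 5, 3, 6, 5, 4, 7, 2, 4, 6, 0, 2, 3, 0], [6, 5, 7, 6, 3, 4, 7, 1, 4, 5, 0, 1, 3, 0], [7, 4, 6, 7, 2, 5, 6, 1, 5, 4, 0, 1, 2, 0], [6, 2, 5, 7, 6, 3, 7, 1, 5, 0, 1, 3, 2, 0], [7, 3, 4, 6, 7, 2, 6, 1, 4, 0, 1, 2, 3, 0], [4, 2, 1, 7, 4, 3, 7, 0, 5, 3, 1, 5, 2, 0], [4, 2, 1, 4, 3, 0, 5, 3, 1, 6, 5, 2, 6, 0]],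
    10, 0xc20a508920469cc14a312410d38c28c40861042082⟩,
  ⟨⟨9, [(0, 2), (0, 8), (1, 3), (1, 8), (2, 5), (2, 7), (3, 6), (3, 7), (4, 5), (4, 6), (4, 7), (5, 8), (6, 8), (7, 8)], []⟩,
    [[4, 2, 5, 7, 2, 6, 4, 1, 8, 3, 1, 6, 7, 3, 5, 8], [2, 0, 5, 7, 2, 6, 8, 4, 3, 6, 7, 3, 5, 4, 0, 8], [0, 5, 3, 6, 7, 1, 3, 8, 1, 4, 7, 6, 5, 4, 0, 8], [1, 6, 2, 5, 7, 0, 2, 8, 0, 4, 7, 5, 6, 4, 1, 8], [2, 0, 5, 7, 2, 1, 6, 8, 3, 6, 1, 7, 3, 5, 0, 8], [2, 0, 7, 2, 6, 1, 8, 3, 1, 4, 6, 7, 4, 3, 0, 8], [2, 0, 4, 5, 7, 4, 2, 1, 8, 3, 1, 7, 3, 5, 0, 8], [2, 0, 5, 2, 3, 6, 1, 3, 8, 1, 4, 6, 5, 4, 0, 8], [1, 3, 1, 5, 4, 0, 2, 0, 5, 7, 2, 6, 4, 3, 6, 7]],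
    11, 0x20044402261892886a0244a41a3091310490678823c311e⟩]

theorem okT_dd5_1 : okT dd5_1 = true := by decide +kernel

def dd5_2 : List EntD := [
  ⟨⟨10, [(0, 3), (1, 9), (2, 4), (2, 9), (3, 6), (3, 8), (4, 7), (4, 8), (5, 6), (5, 7), (5, 8), (6, 9), (7, 9), (8, 9)], [(0, 1)]⟩,
    [[1, 5, 3, 6, 8, 3, 7, 5, 2, 9, 4, 2, 7, 8, 4, 6, 1, 9], [5, 0, 3, 0, 6, 8, 3, 7, 5, 2, 9, 4, 2, 7, 8, 4, 6, 9], [0, 1, 3, 0, 6, 8, 3, 7, 9, 5, 4, 7, 8, 4, 6, 5, 1, 9], [0, 1, 0, 6, 4, 7, 8, 2, 4, 9, 2, 5, 8, 7, 6, 5, 1, 9], [2, 7, 3, 6, 8, 0, 3, 1, 0, 9, 1, 5, 8, 6, 7, 5, 2, 9], [0, 1, 3, 0, 6, 8, 3, 2, 7, 9, 4, 7, 2, 8, 4, 6, 1, 9], [2, 7, 3, 8, 0, 3, 1, 0, 9, 1, 4, 5, 8, 7, 5, 2, 4, 9], [0, 1, 3, 0, 5,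 6, 8, 5, 3, 2, 9, 4, 2, 8, 4, 6, 1, 9], [4, 2, 7, 4, 3, 6, 0, 3, 1, 0, 9, 1, 5, 6, 7, 5, 2, 9], [2, 4, 2, 6, 5, 1, 0, 1, 3, 0, 6, 8, 3, 7, 5, 4, 7, 8]],
    14, 0x602a1017484aa4e35221a6191488a90434e51a6291208a94888a34441a2⟩,
  ⟨⟨11, [(0, 4), (1, 5), (2, 10), (3, 10), (4, 7), (4, 9), (5, 8), (5, 9), (6, 7), (6, 8), (6, 9), (7, 10), (8, 10), (9, 10)], [(0, 2), (1, 3)]⟩,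
    [[2, 6, 4, 7, 9, 4, 8, 6, 3, 10, 1, 3, 5, 1, 8, 9, 5, 7, 2, 10], [3, 0, 2, 4, 0, 7, 9, 4, 8, 10, 6, 5, 8, 9, 5, 7, 6, 2, 3, 10], [6, 0, 4, 0, 7, 9, 4, 8, 6, 3, 10, 1, 3, 5, 1, 8, 9, 5, 7, 10], [0, 2, 4, 0, 7, 9, 4, 8, 10, 6, 1, 5, 1, 8, 9, 5, 7, 6, 2, 10], [0, 2, 0, 7, 5, 8, 9, 1, 5, 3, 1, 10, 3, 6, 9, 8, 7, 6, 2, 10], [1, 3, 1, 8, 4, 7, 9, 0, 4, 2, 0, 10, 2, 6, 9, 7, 8, 6, 3, 10], [0, 2, 4, 0, 7, 9, 4, 8, 3, 10, 1, 3, 5, 1, 8, 9, 5, 7, 2, 10], [3, 8, 4, 9, 0, 4, 2, 0, 10, 2, 5, 6, 9, 8, 6, 1, 5, 3, 1, 10], [0, 2, 4, 0, 6, 7, 9, 6, 4, 3, 10, 1, 3, 5, 1, 9, 5, 7, 2, 10], [1, 3, 5, 1, 8, 5, 4, 7, 0, 4, 2, 0, 10, 2, 6, 7, 8, 6, 3, 10], [3, 1, 3, 5, 1, 7, 6, 2, 0, 2, 4, 0, 7, 9, 4, 8,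 6, 5, 8, 9]],
    13, 0x201b200ca8464e42a8291398aa86650622309b284c98a98c44c5226⟩,
  ⟨⟨7, [(0, 1), (0, 2), (0, 3), (1, 4), (1, 5), (2, 4), (2, 6), (3, 5), (3, 6), (4, 6), (5, 6)], []⟩,
    [[3, 1, 5, 4, 1, 2, 6, 4, 2, 3, 5, 6], [4, 0, 2, 3, 0, 5, 6, 3, 5, 4, 2, 6], [1, 4, 5, 0, 1, 3, 0, 6, 5, 3, 4, 6], [1, 5, 4, 0, 1, 2, 0, 6, 4, 2, 5, 6], [1, 5, 0, 1, 3, 2, 0, 6, 2, 5, 3, 6], [1, 4, 0, 1, 2, 3, 0, 6, 3, 4, 2, 6], [4, 2, 1, 4, 3, 0, 5, 3, 1, 5, 2, 0]],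
    9, 0x6105284490234c30a518920868c40861042082⟩,
  ⟨⟨7, [(0, 1), (0, 2), (1, 3), (1, 4), (2, 3), (2, 5), (3, 6), (4, 5), (4, 6), (5, 6)], []⟩,
    [[5, 6, 4, 2, 5, 3, 2, 6, 1, 3, 4, 1], [0, 4, 6, 5, 4, 3, 6, 2, 3, 5, 0, 2], [0, 5, 6, 4, 5, 3, 6, 1, 3, 4, 0, 1], [6, 5, 4, 6, 2, 5, 0, 2, 1, 0, 4, 1], [2, 0, 6, 3, 5, 6, 2, 5, 1, 3, 0, 1], [2, 0, 3, 2, 4, 1, 6, 4, 3, 6, 0, 1], [5, 4, 2, 5, 0, 3, 2, 1, 3, 0, 4, 1]],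
    9, 0x2019080c9441481126209314298438c11c208e⟩]

theorem okT_dd5_2 : okT dd5_2 = true := by decide +kernel

def dd5_3 : List EntD := [
  ⟨⟨11, [(0, 5), (1, 6), (2, 5), (2, 10), (3, 6), (3, 10), (4, 7), (4, 10), (5, 8), (6, 9), (7, 8), (7, 9), (8, 10), (9, 10)], [(0, 1)]⟩,
    [[5, 2, 8, 5, 4, 1, 6, 1, 9, 3, 6, 10, 3, 7, 9, 4, 8, 7, 2, 10], [0, 5, 0, 2, 8, 5, 4, 6, 9, 3, 6, 10, 3, 7, 9, 4, 8, 7, 2, 10], [6, 3, 9, 1, 6, 0, 1, 5, 0, 8, 5, 4, 10, 7, 4, 8, 9, 7, 3, 10], [5, 2, 8, 0, 5, 1, 0, 6, 1, 9, 6, 4, 10, 7, 4, 9, 8, 7, 2, 10], [5, 2, 8, 0, 5, 1, 0, 6, 1, 9, 3, 6, 10, 3, 7, 9, 8, 7, 2, 10], [2, 3, 7, 9, 4, 8, 7, 10, 8, 4, 0, 1, 0, 6, 1, 9, 3, 6, 2, 10], [3, 1, 0, 1, 5, 0, 2, 8, 5,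 4, 9, 10, 7, 9, 4, 8, 7, 2, 3, 10], [4, 6, 3, 9, 1, 6, 0, 1, 5, 0, 2, 8, 5, 10, 8, 2, 9, 3, 4, 10], [5, 2, 0, 5, 1, 0, 6, 1, 3, 9, 6, 4, 10, 7, 4, 9, 7, 3, 2, 10], [6, 3, 1, 6, 0, 1, 5, 0, 2, 8, 5, 4, 10, 7, 4, 8, 7, 2, 3, 10], [2, 1, 0, 3, 6, 3, 1, 9, 6, 4, 7, 4, 9, 8, 7, 5, 8, 0, 2, 5]],
    16, 0x28088404ca21a828d304894444c32261894984a0e352712720d3904906a88254312a⟩,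
  ⟨⟨10, [(0, 4), (0, 5), (1, 4), (1, 9), (2, 5), (2, 9), (3, 6), (3, 9), (4, 7), (5, 8), (6, 7), (6, 8), (7, 9), (8, 9)], []⟩,
    [[4, 1, 7, 4, 3, 5, 8, 2, 5, 9, 2, 6, 8, 3, 7, 6, 1, 9], [5, 2, 8, 0, 5, 4, 0, 7, 4, 3, 9, 6, 3, 7, 8, 6, 2, 9], [4, 1, 7, 0, 4, 5, 0, 8, 5, 3, 9, 6, 3, 8, 7, 6, 1, 9], [4, 1, 7, 0, 4, 5, 0, 8, 2, 5, 9, 2, 6, 8, 7, 6, 1, 9], [1, 2, 6, 8, 3, 7, 6, 9, 7, 3, 0, 5, 0, 8, 2, 5, 1, 9], [2, 0, 4, 0, 1, 7, 4, 3, 8, 9, 6, 8, 3, 7, 6, 1, 2, 9], [3, 5, 2, 8, 0, 5, 4, 0, 1, 7, 4, 9, 7, 1, 8, 2, 3, 9], [4, 1, 0, 4, 5, 0, 2, 8, 5, 3, 9, 6, 3, 8, 6, 2, 1, 9], [5, 2, 0, 5, 4, 0, 1, 7, 4, 3, 9, 6, 3, 7, 6, 1, 2, 9], [1, 2, 5, 2, 0, 8, 5, 3, 6, 3, 8, 7, 6, 4, 7, 0, 1, 4]],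
    15, 0x14034801a4089414294414e412510d2046a0c14e612618530c48c498614c20a6⟩,
  ⟨⟨10, [(0, 6), (0, 7), (1, 6), (1, 8), (2, 6), (2, 9), (3, 7), (3, 8), (4, 7), (4, 9), (5, 8), (5, 9)], []⟩,
    [[9, 2, 5, 4, 9, 7, 4, 3, 7, 8, 3, 5, 1, 8, 6, 1, 2, 6], [9, 2, 4, 5, 9, 8, 5, 3, 8, 7, 3, 4, 0, 7, 6, 0, 2, 6], [8, 1, 3, 5, 8, 9, 5, 4, 9, 7, 4, 3, 0, 7, 6, 0, 1, 6], [8, 1, 5, 8, 9, 5, 2, 4, 9, 7, 4, 0, 7, 6, 0, 2, 1, 6], [9, 2, 5, 9, 8, 5, 1, 3, 8, 7, 3, 0, 7, 6, 0, 1, 2, 6], [8, 1, 3, 8, 7, 3, 0, 4, 7, 9, 4, 2, 9, 6, 2, 0, 1, 6], [2, 9, 2, 4, 5, 9, 1, 8, 1, 5, 3, 8, 0, 7, 0, 3, 4, 7], [4, 9, 4, 2, 5, 9, 3, 8, 3, 5, 1, 8, 0, 6, 0, 1, 2, 6], [1, 5, 9, 5, 2, 4, 9, 3, 7, 3, 4, 0, 7, 6, 0, 2, 1,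 6], [2, 5, 8, 5, 1, 3, 8, 4, 7, 4, 3, 0, 7, 6, 0, 1, 2, 6]],
    15, 0x20204e012700538c49c815050292814902a0625220291054044882684034101a⟩,
  ⟨⟨9, [(0, 3), (0, 8), (1, 4), (1, 8), (2, 5), (2, 8), (3, 4), (3, 6), (4, 7), (5, 6), (5, 7), (6, 8), (7, 8)], []⟩,
    [[4, 1, 7, 3, 4, 6, 3, 2, 8, 5, 2, 6, 7, 5, 1, 8], [3, 0, 6, 4, 3, 7, 4, 2, 8, 5, 2, 7, 6, 5, 0, 8], [3, 0, 6, 4, 3, 7, 1, 4, 8, 1, 5, 7, 6, 5, 0, 8], [0, 1, 5, 7, 2, 6, 5, 8, 6, 2, 4, 7, 1, 4, 0, 8], [1, 3, 0, 6, 3, 2, 7, 8, 5, 7, 2, 6, 5, 0, 1, 8], [2, 4, 1, 7, 3, 4, 0, 6, 3, 8, 6, 0, 7, 1, 2, 8], [3, 0, 4, 3, 1, 7, 4, 2, 8, 5, 2, 7, 5, 1, 0, 8], [4, 1, 3, 4, 0, 6, 3, 2, 8, 5, 2, 6, 5, 0, 1, 8], [0, 2, 5, 2, 6, 7, 5, 1, 4, 1,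 7, 3, 4, 6, 0, 3]],
    14, 0x60124081180290624e4026185394098a148112510528808828840441022⟩]

theorem okT_dd5_3 : okT dd5_3 = true := by decide +kernel

def dd5_4 : List EntD := [
  ⟨⟨10, [(0, 4), (1, 9), (2, 5), (2, 9), (3, 6), (3, 9), (4, 7), (4, 8), (5, 6), (5, 7), (6, 8), (7, 9), (8, 9)], [(0, 1)]⟩,
    [[1, 3, 4, 8, 7, 4, 2, 9, 5, 2, 7, 6, 5, 8, 3, 6, 1, 9], [3, 0, 4, 0, 8, 7, 4, 2, 9, 5, 2, 7, 6, 5, 8, 3, 6, 9], [3, 4, 8, 7, 0, 4, 1, 0, 9, 1, 5, 7, 6, 5, 8, 3, 6, 9], [0, 1, 4, 0, 8, 7, 4, 2, 9, 5, 2, 7, 6, 5, 8, 6, 1, 9], [0, 1, 0, 6, 3, 8, 5, 6, 2, 7, 5, 9, 7, 2, 8, 3, 1, 9], [2, 3, 4, 8, 7, 0, 4, 1, 0, 9, 1, 7, 6, 8, 3, 6, 2, 9], [3, 0, 1, 4, 0, 8, 7, 4, 2, 9, 5, 2, 7, 5, 8, 1,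 3, 9], [2, 3, 4, 8, 0, 4, 1, 0, 9, 1, 6, 8, 3, 5, 6, 2, 5, 9], [3, 2, 4, 7, 0, 4, 1, 0, 9, 1, 5, 7, 2, 6, 5, 3, 6, 9], [1, 0, 1, 3, 6, 3, 8, 2, 5, 2, 6, 7, 5, 4, 7, 8, 0, 4]],
    16, 0x20068403c8012100b288298a14e41a820930c2a0c24e51a510d30c48c498614c20a6⟩,
  ⟨⟨8, [(0, 3), (0, 7), (1, 4), (1, 7), (2, 6), (2, 7), (3, 5), (3, 6), (4, 5), (4, 6), (5, 7), (6, 7)], []⟩,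
    [[2, 4, 3, 6, 5, 3, 1, 4, 7, 1, 5, 2, 6, 7], [2, 3, 4, 6, 5, 4, 0, 3, 7, 0, 5, 2, 6, 7], [3, 0, 5, 6, 3, 1, 7, 4, 1, 6, 5, 4, 0, 7], [0, 2, 4, 6, 1, 5, 4, 7, 5, 1, 2, 6, 0, 7], [1, 2, 3, 6, 0, 5, 3, 7, 5, 0, 2, 6, 1, 7], [1, 2, 3, 6, 0, 3, 7, 0, 2, 4, 6, 1, 4, 7], [2, 3, 0, 5, 3, 1, 7, 4, 1, 5, 4, 0, 2, 7], [2, 5, 1, 4, 1, 0, 3, 0, 5, 6, 3, 4, 2, 6]],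
    11, 0x10234e0223011384694624e222710d2904906688234311a⟩,
  ⟨⟨9, [(0, 4), (1, 8), (2, 5), (2, 8), (3, 7), (3, 8), (4, 6), (4, 7), (5, 6), (5, 7), (6, 8), (7, 8)], [(0, 1)]⟩,
    [[1, 3, 5, 4, 7, 6, 4, 2, 5, 8, 2, 6, 3, 7, 1, 8], [3, 5, 0, 4, 0, 7, 6, 4, 2, 5, 8, 2, 6, 3, 7, 8], [3, 4, 5, 7, 6, 5, 0, 4, 1, 0, 8, 1, 6, 3, 7, 8], [2, 4, 6, 7, 0, 4, 1, 0, 8, 1, 5, 7, 6, 2, 5, 8], [0, 1, 0, 3, 5, 7, 2, 6, 5, 8, 6, 2, 3, 7, 1, 8], [2, 3, 4, 7, 6, 0, 4, 1, 0, 8, 1, 6, 3, 7, 2, 8], [2, 3, 4, 7, 0, 4, 1, 0, 8, 1, 3, 5, 7, 2, 5, 8], [3, 2, 4, 6, 0, 4, 1, 0, 8, 1, 5, 6, 2, 5, 3, 8], [3, 6, 2, 5, 2, 1, 0, 1, 4, 0, 6, 7, 4, 5, 3, 7]],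
    12, 0x80b90055012a620d4088a0645032a628d288894878a33c419e⟩,
  ⟨⟨10, [(0, 5), (1, 6), (2, 9), (3, 9), (4, 8), (4, 9), (5, 7), (5, 8), (6, 7), (6, 8), (7, 9), (8, 9)], [(0, 2), (1, 3)]⟩,
    [[2, 4, 6, 5, 8, 7, 5, 1, 6, 3, 1, 9, 3, 7, 4, 8, 2, 9], [3, 4, 5, 6, 8, 7, 6, 0, 5, 2, 0, 9, 2, 7, 4, 8, 3, 9], [4, 6, 0, 5, 0, 8, 7, 5, 1, 6, 3, 1, 9, 3, 7, 4, 8, 9], [4, 5, 1, 6, 1, 8, 7, 6, 0, 5, 2, 0, 9, 2, 7, 4, 8, 9], [0, 2, 5, 0, 7, 8, 5, 3, 9, 1, 3, 6, 1, 8, 7, 6, 2, 9], [0, 2, 0, 4, 6, 8, 7, 1, 6, 3, 1, 9, 3, 7, 4, 8, 2, 9], [1, 3, 1, 4, 5, 8, 7, 0, 5, 2, 0, 9, 2, 7, 4, 8, 3, 9], [3, 4, 5, 8, 0, 5, 2, 0, 9, 2, 4, 6, 8, 1, 6, 3, 1, 9], [4, 0, 2, 5, 0, 7, 5, 3, 9, 1, 3, 6, 1, 7, 6, 2, 4,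 9], [4, 7, 3, 1, 3, 6, 1, 2, 0, 2, 5, 0, 7, 8, 5, 6, 4, 8]],
    13, 0x3097280c8806cc12a911948ca9ca45242a7311490c98a88c4445222⟩]

theorem okT_dd5_4 : okT dd5_4 = true := by decide +kernel

def dd5_5 : List EntD := [
  ⟨⟨10, [(0, 4), (0, 6), (1, 5), (1, 7), (2, 3), (2, 9), (3, 6), (3, 7), (4, 8), (4, 9), (5, 8), (5, 9), (6, 8), (6, 9), (7, 8), (7, 9)], []⟩,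
    [[8, 4, 1, 5, 7, 1, 6, 8, 2, 9, 3, 2, 6, 7, 3, 5, 4, 9], [2, 8, 7, 0, 6, 4, 0, 5, 8, 9, 5, 4, 3, 6, 7, 2, 3, 9], [8, 5, 3, 7, 6, 3, 4, 8, 9, 0, 4, 6, 0, 1, 7, 5, 1, 9], [2, 8, 1, 5, 7, 1, 0, 4, 6, 0, 8, 9, 6, 4, 7, 5, 2, 9], [8, 1, 5, 7, 1, 0, 6, 0, 8, 2, 9, 3, 2, 6, 7, 3, 5, 9], [2, 8, 1, 7, 1, 0, 6, 4, 0, 8, 9, 4, 3, 6, 7, 2, 3, 9], [8, 0, 4, 0, 1, 5, 7, 1, 8, 2, 9, 3, 2, 7, 3, 5, 4, 9], [8, 1, 5, 1, 0, 4, 6, 0, 8, 2, 9, 3, 2, 6, 3, 4, 5, 9], [5, 3, 7, 2, 6, 3, 4, 9, 0, 4, 6, 0, 2, 1, 7, 5, 1, 9], [7, 2, 3, 2, 5, 8, 1, 5, 7, 1, 0, 6, 4, 0, 8, 4, 3, 6]],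
    13, 0x6015200a9c244a122719130caa0824622a8289188894898a24c4126⟩,
  ⟨⟨11, [(0, 5), (1, 7), (2, 6), (2, 8), (3, 4), (3, 10), (4, 7), (4, 8), (5, 9), (5, 10), (6, 9), (6, 10), (7, 9), (7, 10), (8, 9), (8, 10)], [(0, 1)]⟩,
    [[9, 5, 2, 6, 8, 2, 1, 7, 1, 9, 3, 10, 4, 3, 7, 8, 4, 6, 5, 10], [9, 0, 5, 0, 2, 6, 8, 2, 7, 9, 3, 10, 4, 3, 7, 8, 4, 6, 5, 10], [3, 9, 8, 1, 7, 0, 1, 5, 0, 6, 9, 10, 6, 5, 4, 7, 8, 3, 4, 10], [9, 6, 4, 8, 7, 4, 5, 9, 10, 0, 5, 1, 0, 7, 1, 2, 8, 6, 2, 10], [3, 9, 2, 6, 8, 2, 0, 5, 1, 0, 7, 1, 9, 10, 7, 5, 8, 6, 3, 10], [9, 2, 6, 8, 2, 0, 1, 0, 7, 1, 9, 3, 10, 4, 3, 7, 8, 4, 6, 10], [3, 9, 2, 8, 2, 1, 7, 0, 1, 5, 0, 9, 10, 5, 4, 7, 8, 3, 4, 10], [9, 1, 0, 1, 5, 0,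 2, 6, 8, 2, 9, 3, 10, 4, 3, 8, 4, 6, 5, 10], [9, 2, 6, 2, 0, 5, 1, 0, 7, 1, 9, 3, 10, 4, 3, 7, 4, 5, 6, 10], [6, 4, 8, 3, 7, 4, 5, 10, 0, 5, 1, 0, 7, 1, 3, 2, 8, 6, 2, 10], [8, 3, 4, 3, 6, 9, 2, 6, 8, 2, 1, 7, 0, 1, 5, 0, 9, 5, 4, 7]],
    14, 0xa032101b384ca4a35261a4195390ca085483328115308a98aa8c35451aa⟩,
  ⟨⟨12, [(0, 6), (1, 7), (2, 8), (3, 9), (4, 5), (4, 11), (5, 8), (5, 9), (6, 10), (6, 11), (7, 10), (7, 11), (8, 10), (8, 11), (9, 10), (9, 11)], [(0, 2), (1, 3)]⟩,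
    [[10, 6, 1, 7, 3, 1, 9, 3, 2, 8, 2, 10, 4, 11, 5, 4, 8, 9, 5, 7, 6, 11], [4, 10, 3, 9, 3, 2, 8, 0, 2, 6, 0, 7, 10, 11, 7, 6, 5, 8, 9, 4, 5, 11], [10, 0, 6, 0, 1, 7, 3, 1, 9, 3, 8, 10, 4, 11, 5, 4, 8, 9, 5, 7, 6, 11], [4, 10, 9, 2, 8, 0, 2, 6, 0, 1, 7, 1, 10, 11, 7, 6, 5, 8, 9, 4, 5, 11], [10, 7, 5, 9, 8, 5, 6, 10, 11, 0, 6, 2, 0, 8, 2, 3, 9, 1, 3, 7, 1, 11], [4, 10, 1, 7, 3, 1, 9, 3, 0, 6, 2, 0, 8, 2, 10, 11, 8, 6, 9, 7, 4, 11], [10, 1, 7, 3, 1, 9, 3, 0, 2, 0, 8, 2, 10, 4, 11, 5, 4, 8, 9, 5, 7, 11], [4, 10, 1, 3, 1, 9, 3, 2, 8, 0, 2, 6, 0, 10, 11, 6, 5, 8, 9, 4, 5, 11], [10, 2, 0, 2, 6, 0, 1, 7, 3, 1, 9, 3, 10, 4, 11, 5, 4, 9, 5, 7, 6, 11], [10, 3, 1, 3, 7, 1, 0, 6, 2, 0, 8, 2, 10,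 4, 11, 5, 4, 8, 5, 6, 7, 11], [7, 5, 9, 4, 8, 5, 6, 11, 0, 6, 2, 0, 8, 2, 4, 3, 9, 1, 3, 7, 1, 11], [9, 4, 5, 4, 7, 10, 1, 7, 3, 1, 9, 3, 2, 8, 0, 2, 6, 0, 10, 6, 5, 8]],
    15, 0x807cc03a7099184da047546229199494ca8e45053a5219290e9ccb8e45c622e⟩,
  ⟨⟨9, [(0, 5), (1, 6), (2, 5), (2, 8), (3, 6), (3, 7), (4, 7), (4, 8), (5, 7), (6, 8), (7, 8)], [(0, 1)]⟩,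
    [[5, 4, 1, 6, 1, 8, 3, 6, 7, 3, 4, 2, 8, 5, 2, 7], [0, 5, 0, 4, 6, 8, 3, 6, 7, 3, 4, 2, 8, 5, 2, 7], [5, 3, 4, 8, 7, 4, 6, 8, 3, 1, 6, 0, 1, 5, 0, 7], [5, 4, 8, 7, 4, 2, 6, 8, 1, 6, 0, 1, 5, 0, 2, 7], [2, 5, 8, 2, 3, 7, 6, 3, 8, 1, 6, 0, 1, 5, 0, 7], [4, 0, 1, 0, 6, 1, 2, 8, 2, 3, 6, 7, 3, 4, 8, 7], [3, 1, 0, 1, 5, 0, 4, 8, 7, 4, 2, 8, 5, 2, 3, 7], [4, 5, 2, 0, 5, 1, 0, 3, 6, 3, 1, 8, 6, 2, 4, 8], [4, 6, 3, 1, 6, 0, 1, 2, 5, 2, 0, 7, 5, 3, 4, 7]],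
    13, 0x1013280898654c12283152886a0434c3228215410694878a33c419e⟩]

theorem okT_dd5_5 : okT dd5_5 = true := by decide +kernel

def dd5_6 : List EntD := [
  ⟨⟨8, [(0, 4), (0, 5), (1, 4), (1, 6), (2, 5), (2, 7), (3, 6), (3, 7), (4, 7), (5, 6), (6, 7)], []⟩,
    [[5, 3, 4, 7, 1, 4, 6, 1, 3, 2, 7, 5, 2, 6], [3, 2, 4, 7, 0, 4, 5, 0, 2, 6, 5, 3, 7, 6], [3, 4, 7, 1, 0, 4, 5, 0, 6, 5, 1, 3, 7, 6], [4, 1, 7, 0, 4, 5, 0, 6, 2, 5, 7, 2, 1, 6], [1, 0, 5, 0, 3, 7, 6, 3, 2, 7, 5, 2, 1, 6], [3, 0, 4, 0, 2, 7, 2, 1, 4, 6, 1, 3, 7, 6], [3, 5, 2, 0, 5, 1, 4, 1, 0, 7, 4, 2, 3, 7], [3, 4, 1, 0, 4, 2, 5, 2, 0, 6, 5, 1, 3, 6]],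
    12, 0x200694034a2224089288698a44c322608930c490678823c311e⟩,
  ⟨⟨8, [(0, 2), (0, 7), (1, 3), (1, 7), (2, 3), (2, 5), (3, 6), (4, 5), (4, 6), (4, 7), (5, 6), (5, 7), (6, 7)], []⟩,
    [[3, 1, 6, 2, 3, 5, 2, 4, 7, 6, 5, 4, 1, 7], [4, 3, 6, 2, 3, 5, 0, 2, 7, 0, 4, 6, 5, 7], [0, 3, 1, 6, 3, 4, 5, 7, 6, 4, 5, 1, 0, 7], [1, 4, 6, 2, 5, 0, 2, 7, 0, 4, 6, 5, 1, 7], [3, 1, 6, 2, 3, 5, 0, 2, 7, 0, 6, 5, 1, 7], [4, 3, 6, 1, 2, 3, 0, 2, 7, 0, 1, 4, 6, 7], [4, 2, 5, 0, 3, 2, 1, 3, 7, 1, 0, 4, 5, 7], [0, 2, 0, 4, 6, 5, 4, 1, 3, 1, 6, 2, 3, 5]],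
    12, 0x1840880144022510518889860461225205310090278803c101e⟩,
  ⟨⟨8, [(0, 4), (0, 5), (1, 4), (1, 6), (2, 5), (2, 7), (3, 6), (3, 7), (4, 7), (5, 6)], []⟩,
    [[6, 1, 3, 5, 6, 2, 5, 7, 2, 3, 4, 7, 1, 4], [5, 0, 2, 6, 5, 3, 6, 7, 3, 2, 4, 7, 0, 4], [5, 0, 6, 5, 1, 3, 6, 7, 3, 4, 7, 1, 0, 4], [6, 1, 5, 6, 0, 2, 5, 7, 2, 4, 7, 0, 1, 4], [0, 7, 2, 3, 7, 1, 6, 1, 3, 5, 6, 2, 0, 5], [0, 6, 1, 3, 6, 2, 7, 2, 3, 4, 7, 1, 0, 4], [1, 5, 0, 2, 5, 3, 7, 3, 2, 4, 7, 0, 1, 4], [3, 6, 3, 1, 2, 5, 2, 6, 0, 5, 4, 0, 1, 4]],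
    12, 0x280e94014c1026181288298a74e20a7181304e9c248e0241012⟩,
  ⟨⟨9, [(0, 6), (1, 7), (2, 5), (2, 8), (3, 6), (3, 8), (4, 7), (4, 8), (5, 6), (5, 7), (6, 8), (7, 8)], [(0, 1)]⟩,
    [[1, 7, 1, 4, 2, 3, 6, 8, 3, 5, 6, 2, 7, 5, 4, 8], [7, 4, 2, 3, 0, 6, 0, 8, 3, 5, 6, 2, 7, 5, 4, 8], [7, 4, 3, 6, 8, 3, 5, 0, 6, 1, 0, 7, 1, 5, 4, 8], [4, 5, 1, 7, 0, 1, 6, 0, 2, 5, 8, 2, 6, 4, 7, 8], [2, 7, 3, 6, 8, 3, 5, 0, 6, 1, 0, 7, 1, 2, 5, 8], [2, 7, 4, 3, 6, 8, 3, 0, 6, 1, 0, 7, 1, 4, 2, 8], [3, 4, 5, 0, 1, 0, 7, 1, 2, 5, 8, 2, 4, 7, 3, 8], [4, 3, 5, 1, 0, 1, 6, 0, 2, 5, 8, 2, 3, 6, 4, 8], [3, 1, 0, 4, 7, 4, 1, 2, 5, 2, 7, 6, 5, 0, 3, 6]],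
    14, 0xc012100b384498644c522618939049c834e51a511128869068882443122⟩]

theorem okT_dd5_6 : okT dd5_6 = true := by decide +kernel

def dd5_7 : List EntD := [
  ⟨⟨10, [(0, 7), (1, 8), (2, 7), (3, 9), (4, 6), (4, 9), (5, 8), (5, 9), (6, 7), (6, 8), (7, 9), (8, 9)], [(0, 1), (2, 3)]⟩,
    [[5, 6, 1, 8, 1, 4, 7, 6, 3, 9, 2, 3, 7, 2, 4, 5, 8, 9], [5, 6, 8, 4, 0, 7, 0, 6, 3, 9, 2, 3, 7, 2, 4, 5, 8, 9], [3, 5, 6, 1, 8, 0, 1, 7, 0, 4, 6, 9, 4, 7, 5, 8, 3, 9], [5, 6, 1, 8, 0, 1, 2, 7, 2, 0, 4, 6, 9, 4, 7, 5, 8, 9], [5, 6, 1, 8, 0, 1, 7, 0, 6, 3, 9, 2, 3, 7, 2, 5, 8, 9], [6, 4, 1, 8, 0, 1, 7, 0, 6, 3, 9, 2, 3, 7, 2, 8, 4, 9], [4, 5, 1, 8, 0, 1, 7, 0, 3, 9, 2, 3, 7, 2, 5, 8, 4, 9], [2, 3, 2, 5,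 6, 0, 1, 0, 8, 1, 4, 6, 9, 4, 5, 8, 3, 9], [5, 6, 4, 1, 0, 1, 7, 0, 6, 3, 9, 2, 3, 7, 2, 4, 5, 9], [3, 2, 3, 1, 0, 5, 8, 5, 1, 4, 6, 4, 8, 7, 6, 0, 2, 7]],
    19, 0x1c0442026700d0807a0244e62a7111388a9cc35011a3113188ba0a34c41a6215414894898a34c41a6⟩,
  ⟨⟨11, [(0, 8), (1, 9), (2, 8), (3, 9), (4, 10), (5, 10), (6, 7), (6, 10), (7, 8), (7, 9), (8, 10), (9, 10)], [(0, 1), (2, 4), (3, 5)]⟩,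
    [[5, 7, 1, 9, 1, 6, 8, 7, 4, 10, 2, 4, 8, 2, 6, 3, 9, 5, 3, 10], [5, 7, 9, 6, 0, 8, 0, 7, 4, 10, 2, 4, 8, 2, 6, 3, 9, 5, 3, 10], [4, 5, 7, 1, 9, 0, 1, 8, 0, 6, 7, 10, 6, 8, 3, 9, 5, 3, 4, 10], [5, 7, 6, 1, 9, 0, 1, 8, 0, 7, 4, 10, 2, 4, 8, 2, 9, 6, 5, 10], [5, 7, 1, 9, 0, 1, 2, 8, 2, 0, 6, 7, 10, 6, 8, 3, 9, 5, 3, 10], [7, 6, 1, 3, 9, 3, 0, 1, 8, 0, 7, 4, 10, 2, 4, 8, 2, 9, 6, 10], [5, 7, 1, 9, 0, 1, 8, 0, 7, 4, 10, 2, 4, 8, 2, 3, 9, 5, 3, 10], [6, 5, 1, 9, 0, 1, 8, 0, 4, 10, 2, 4, 8, 2, 3, 9, 5, 3, 6, 10], [2, 4, 2, 7, 6, 0, 1, 0, 9, 1, 7, 5, 10, 3, 5, 9, 3, 6, 4, 10], [3, 5, 3, 7, 6, 1, 0, 1, 8, 0, 7, 4, 10, 2, 4, 8, 2, 6, 5, 10], [4, 2, 4, 1, 0, 5, 3, 5, 9, 3, 1, 6, 7, 6, 9, 8,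 7, 0, 2, 8]],
    21, 0x801108098406d003290994848a0e45022a811941ca9cc54822e411b48cc9cc452322519328cd98aa8c454522a⟩,
  ⟨⟨9, [(0, 4), (0, 6), (1, 5), (1, 7), (2, 6), (2, 7), (3, 6), (3, 8), (4, 5), (4, 8), (5, 8), (6, 7), (7, 8)], []⟩,
    [[2, 4, 5, 8, 4, 1, 5, 7, 1, 3, 8, 6, 3, 2, 7, 6], [2, 8, 7, 3, 5, 4, 8, 5, 0, 4, 6, 0, 3, 2, 7, 6], [8, 3, 1, 7, 5, 1, 4, 8, 5, 0, 4, 6, 0, 7, 3, 6], [2, 8, 1, 7, 5, 1, 4, 8, 5, 0, 4, 6, 0, 2, 7, 6], [0, 2, 5, 8, 1, 5, 7, 1, 3, 8, 6, 3, 2, 7, 0, 6], [2, 8, 1, 7, 1, 3, 4, 8, 0, 4, 6, 0, 3, 2, 7, 6], [2, 5, 1, 0, 4, 0, 3, 8, 3, 5, 4, 7, 8, 1, 2, 7], [2, 8, 3, 1, 5, 1, 4, 8, 5, 0, 4, 6, 0, 3, 2, 6], [3, 0, 2, 7, 6, 2, 1, 7, 5, 1, 4, 5, 0, 4, 3, 6]],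
    16, 0x20069c2048012508141409c4050412520d2846a06250302708d38868c4686034201a⟩]

theorem okT_dd5_7 : okT dd5_7 = true := by decide +kernel

def dd5 : List EntD := dd5_0 ++ (dd5_1 ++ (dd5_2 ++ (dd5_3 ++ (dd5_4 ++ (dd5_5 ++ (dd5_6 ++ (dd5_7)))))))

theorem okT_dd5 : okT dd5 = true :=
  okT_append _ _ okT_dd5_0 (
  okT_append _ _ okT_dd5_1 (
  okT_append _ _ okT_dd5_2 (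
  okT_append _ _ okT_dd5_3 (
  okT_append _ _ okT_dd5_4 (
  okT_append _ _ okT_dd5_5 (
  okT_append _ _ okT_dd5_6 (
  okT_dd5_7)))))))

end Pool.Agent.Helper24.FF
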